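import Pool.Agent.P.MP_f562c3_an.Defs

open MeasureTheory Filter Topology Set
open scoped ENNReal

namespace Pool.Agent.P.MP_f562c3_an

theorem polar {X : Type*} [MeasurableSpace X] (μ : ComplexMeasure X)
    [IsFiniteMeasure μ.variation] :
    ∃ h : X → ℂ, Measurable h ∧ Integrable h μ.variation ∧ μ.variation.withDensityᵥ h = μ ∧
      ∀ᵐ x ∂μ.variation, ‖h x‖ = 1 := by
  have hac : μ ≪ᵥ μ.variation.toENNRealVectorMeasure := by
    refine VectorMeasure.AbsolutelyContinuous.mk fun s hs h0 => ?_
    rw [Measure.toENNRealVectorMeasure_apply_measurable hs] at h0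
    have := VectorMeasure.enorm_measure_le_variation μ s
    rw [h0] at this
    simpa using this
  rw [ComplexMeasure.absolutelyContinuous_ennreal_iff] at hac
  have hint := ComplexMeasure.integrable_rnDeriv μ μ.variation
  have hmeas : Measurable (μ.rnDeriv μ.variation) := by
    have h1 := SignedMeasure.measurable_rnDeriv (ComplexMeasure.re μ) μ.variation
    have h2 := SignedMeasure.measurable_rnDeriv (ComplexMeasure.im μ) μ.variation
    have : μ.rnDeriv μ.variation = fun x =>
        ((ComplexMeasure.re μ).rnDeriv μ.variation x : ℂ) +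
          ((ComplexMeasure.im μ).rnDeriv μ.variation x : ℂ) * Complex.I := by
      funext x
      apply Complex.ext <;> simp [ComplexMeasure.rnDeriv]
    rw [this]
    fun_prop
  have heq : μ.variation.withDensityᵥ (μ.rnDeriv μ.variation) = μ := by
    ext i hi : 1
    have h1 := SignedMeasure.withDensityᵥ_rnDeriv_eq _ _ hac.1
    have h2 := SignedMeasure.withDensityᵥ_rnDeriv_eq _ _ hac.2
    apply Complex.ext
    · rw [withDensityᵥ_apply hint hi, ← RCLike.re_eq_complex_re, ← integral_re hint.integrableOn,
        RCLike.re_eq_complex_re]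
      have := congrArg (fun s : SignedMeasure X => s i) h1
      rw [withDensityᵥ_apply (SignedMeasure.integrable_rnDeriv _ _) hi] at this
      exact this
    · rw [withDensityᵥ_apply hint hi, ← RCLike.im_eq_complex_im, ← integral_im hint.integrableOn,
        RCLike.im_eq_complex_im]
      have := congrArg (fun s : SignedMeasure X => s i) h2
      rw [withDensityᵥ_apply (SignedMeasure.integrable_rnDeriv _ _) hi] at this
      exact this
  refine ⟨_, hmeas, hint, heq, ?_⟩
  have hv := Measure.variation_withDensityᵥ hint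
  rw [heq] at hv
  have h1 : μ.variation.withDensity (fun x => ‖μ.rnDeriv μ.variation x‖ₑ) =
      μ.variation.withDensity (fun _ => 1) := by
    rw [← hv]; exact withDensity_one.symm
  rw [withDensity_eq_iff_of_sigmaFinite hmeas.enorm.aemeasurable aemeasurable_const] at h1
  filter_upwards [h1] with x hx
  have : ‖μ.rnDeriv μ.variation x‖ₑ = 1 := hx
  rw [← ofReal_norm, ENNReal.ofReal_eq_one] at this
  exact this

theorem prod_withDensity {X Y : Type*} [MeasurableSpace X] [MeasurableSpace Y]
    (σ : Measure X) (τ : Measure Y) [SFinite σ] [SFinite τ] {f : X → ℂ} {g : Y → ℂ}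
    (hf : Integrable f σ) (hg : Integrable g τ) :
    (σ.withDensityᵥ f).prod (τ.withDensityᵥ g) (ContinuousLinearMap.mul ℝ ℂ) =
      (σ.prod τ).withDensityᵥ (fun p => f p.1 * g p.2) := by
  apply VectorMeasure.prod_eq_of_forall_apply_prod
  intro s t hs ht
  rw [withDensityᵥ_apply (hf.mul_prod hg) (hs.prod ht), withDensityᵥ_apply hf hs,
    withDensityᵥ_apply hg ht, setIntegral_prod_mul]
  simp

theorem measurableSet_addPre {B : Set UI} (hB : MeasurableSet B) :
    MeasurableSet {p : UI × UI | (p.1 : ℝ) + (p.2 : ℝ) ∈ Subtype.val '' B} := by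
  have h1 : MeasurableSet (Subtype.val '' B) :=
    (MeasurableEmbedding.subtype_coe measurableSet_Ico).measurableSet_image.2 hB
  exact (by fun_prop : Measurable fun p : UI × UI => (p.1 : ℝ) + (p.2 : ℝ)) h1

theorem inL1_seqConv {w : ℕ → ℝ} (hw : ∀ n, 0 < w n) (hsub : ∀ m n, w (m + n) ≤ w m * w n)
    {x y : ℕ → ℂ} (hx : InL1 w x) (hy : InL1 w y) : InL1 w (seqConv x y) := by
  have hx' : Summable fun n => ‖‖x n‖ * w n‖ := hx.norm
  have hy' : Summable fun n => ‖‖y n‖ * w n‖ := hy.norm
  have := (summable_norm_sum_mul_range_of_summable_norm hx' hy').of_norm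
  refine Summable.of_nonneg_of_le (fun n => mul_nonneg (norm_nonneg _) (hw n).le) (fun n => ?_) this
  unfold seqConv
  calc ‖∑ j ∈ Finset.range (n + 1), x j * y (n - j)‖ * w n
      ≤ (∑ j ∈ Finset.range (n + 1), ‖x j‖ * ‖y (n - j)‖) * w n := by
        gcongr
        · exact (hw n).le
        · refine (norm_sum_le _ _).trans (le_of_eq ?_)
          simp
    _ = ∑ j ∈ Finset.range (n + 1), ‖x j‖ * ‖y (n - j)‖ * w n := by rw [Finset.sum_mul]
    _ ≤ _ := by
        refine Finset.sum_le_sum fun j hj => ?_
        have hj' : j ≤ n := Nat.lt_succ_iff.1 (Finset.mem_range.1 hj)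
        have h1 := hsub j (n - j)
        rw [Nat.add_sub_cancel' hj'] at h1
        calc ‖x j‖ * ‖y (n - j)‖ * w n ≤ ‖x j‖ * ‖y (n - j)‖ * (w j * w (n - j)) := by gcongr
          _ = _ := by ring

theorem assemble {w : ℕ → ℝ} (hw : ∀ n, 0 < w n) (hsub : ∀ m n, w (m + n) ≤ w m * w n)
    (μ : ℕ → ComplexMeasure UI) (K : ℕ → Set UI) (hdisj : Pairwise (Function.onFun Disjoint K))
    (hK : ∀ n, (μ n).variation (K n)ᶜ = 0)
    (hvar : ∀ n, (μ n).variation univ = ENNReal.ofReal (w n))
    (hconv : ∀ m n, IsConv (μ m) (μ n) (μ (m + n))) : Embeds w := by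
  classical
  have hfin : ∀ n, IsFiniteMeasure (μ n).variation := fun n => ⟨by rw [hvar]; simp⟩
  choose h hm hi he hn using fun n => polar (μ n)
  let idx : UI → ℕ := fun s => if hs : ∃ n, s ∈ K n then hs.choose else 0
  have hidx : ∀ n s, s ∈ K n → idx s = n := by
    intro n s hs
    have hex : ∃ n, s ∈ K n := ⟨n, hs⟩
    simp only [idx, hex, dif_pos]
    by_contra hne
    exact Set.disjoint_left.1 (hdisj hne) hex.choose_spec hs
  let f : (ℕ → ℂ) → UI → ℂ := fun x s => x (idx s) * h (idx s) s
  have hf : ∀ x n, f x =ᵐ[(μ n).variation] fun s => x n * h n s := by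
    intro x n
    have : ∀ᵐ s ∂(μ n).variation, s ∈ K n := hK n
    filter_upwards [this] with s hs
    simp only [f, hidx n s hs]
  have hfi : ∀ x n, Integrable (f x) (μ n).variation := fun x n =>
    ((hi n).const_mul (x n)).congr (hf x n).symm
  have hfn : ∀ x n, ∫ s, ‖f x s‖ ∂(μ n).variation = ‖x n‖ * w n := by
    intro x n
    have : (fun s => ‖f x s‖) =ᵐ[(μ n).variation] fun _ => ‖x n‖ := by
      filter_upwards [hf x n, hn n] with s h1 h2
      rw [h1, norm_mul, h2, mul_one]
    rw [integral_congr_ae this, integral_const, Measure.real, hvar,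
      ENNReal.toReal_ofReal (hw n).le, smul_eq_mul, mul_comm]
  let Λ : Measure UI := Measure.sum fun n => (μ n).variation
  have hint : ∀ x, InL1 w x → Integrable (f x) Λ := by
    intro x hx
    refine integrable_sum_measure (hfi x) ?_
    simp only [hfn]
    exact hx
  have happ : ∀ x, InL1 w x → ∀ B, MeasurableSet B →
      HasSum (fun n => x n * μ n B) (Λ.withDensityᵥ (f x) B) := by
    intro x hx B hB
    rw [withDensityᵥ_apply (hint x hx) hB]
    have h1 : Integrable (f x) (Measure.sum fun n => ((μ n).variation).restrict B) := by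
      rw [← Measure.restrict_sum _ hB]; exact (hint x hx).integrableOn
    have h2 := hasSum_integral_measure h1
    rw [← Measure.restrict_sum _ hB] at h2
    refine h2.congr_fun fun n => ?_
    symm
    rw [integral_congr_ae (ae_restrict_of_ae (hf x n)), integral_const_mul,
      ← withDensityᵥ_apply (hi n) hB, he n]
  refine ⟨fun x => Λ.withDensityᵥ (f x), ?_, ?_, ?_, ?_⟩
  · intro x y hx hy
    have : f (x + y) = f x + f y := by
      funext s
      simp only [f, Pi.add_apply]
      ring
    beta_reduce
    rw [this, withDensityᵥ_add (hint x hx) (hint y hy)]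
  · intro c x hx
    have : f (c • x) = c • f x := by
      funext s
      simp only [f, Pi.smul_apply, smul_eq_mul]
      ring
    beta_reduce
    rw [this, withDensityᵥ_smul]
  · intro x y hx hy B hB
    have hA := measurableSet_addPre hB
    set A := {p : UI × UI | (p.1 : ℝ) + (p.2 : ℝ) ∈ Subtype.val '' B} with hAdef
    have hxy := happ _ (inL1_seqConv hw hsub hx hy) B hB
    beta_reduce
    rw [prod_withDensity Λ Λ (hint x hx) (hint y hy),
      withDensityᵥ_apply ((hint x hx).mul_prod (hint y hy)) hA]
    have h0 : Integrable (fun p : UI × UI => f x p.1 * f y p.2) (Λ.prod Λ) :=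
      (hint x hx).mul_prod (hint y hy)
    have hΛ : Λ.prod Λ = Measure.sum fun p : ℕ × ℕ =>
        ((μ p.1).variation).prod ((μ p.2).variation) := Measure.prod_sum _ _
    have h1 : Integrable (fun p : UI × UI => f x p.1 * f y p.2) (Measure.sum fun p : ℕ × ℕ =>
        (((μ p.1).variation).prod ((μ p.2).variation)).restrict A) := by
      rw [← Measure.restrict_sum _ hA, ← hΛ]; exact h0.integrableOn
    have h2 := hasSum_integral_measure h1
    rw [← Measure.restrict_sum _ hA, ← hΛ] at h2
    have h3 : ∀ p : ℕ × ℕ, ∫ q in A, f x q.1 * f y q.2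
        ∂(((μ p.1).variation).prod ((μ p.2).variation)) = x p.1 * y p.2 * μ (p.1 + p.2) B := by
      rintro ⟨m, n⟩
      have e1 : (μ m).variation.withDensityᵥ (f x) = x m • μ m := by
        rw [WithDensityᵥEq.congr_ae (hf x m)]
        conv_rhs => rw [← he m]
        rw [← withDensityᵥ_smul]
        rfl
      have e2 : (μ n).variation.withDensityᵥ (f y) = y n • μ n := by
        rw [WithDensityᵥEq.congr_ae (hf y n)]
        conv_rhs => rw [← he n]
        rw [← withDensityᵥ_smul]
        rfl
      rw [← withDensityᵥ_apply ((hfi x m).mul_prod (hfi y n)) hA,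
        ← prod_withDensity _ _ (hfi x m) (hfi y n), e1, e2, hconv m n B hB]
      have e3 : (x m • μ m).prod (y n • μ n) (ContinuousLinearMap.mul ℝ ℂ) =
          (x m * y n) • (μ m).prod (μ n) (ContinuousLinearMap.mul ℝ ℂ) := by
        apply VectorMeasure.prod_eq_of_forall_apply_prod
        intro s t _ _
        simp only [_root_.smul_apply, VectorMeasure.prod_apply, smul_eq_mul,
          ContinuousLinearMap.mul_apply']
        ring
      rw [e3]
      simp [hAdef]
    simp only [h3] at h2
    have h4 := (Finset.HasAntidiagonal.sigmaAntidiagonalEquivProd (A := ℕ)).hasSum_iff.2 h2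
    have h5 : HasSum (fun n => seqConv x y n * μ n B)
        (∫ q in A, f x q.1 * f y q.2 ∂(Λ.prod Λ)) := by
      refine h4.sigma fun n => ?_
      have : seqConv x y n * μ n B = ∑ c : Finset.HasAntidiagonal.antidiagonal n,
          x c.1.1 * y c.1.2 * μ (c.1.1 + c.1.2) B := by
        rw [Finset.sum_coe_sort (Finset.HasAntidiagonal.antidiagonal n)
          (fun c => x c.1 * y c.2 * μ (c.1 + c.2) B), seqConv, Finset.sum_mul,
          Finset.Nat.sum_antidiagonal_eq_sum_range_succ_mk]
        refine Finset.sum_congr rfl fun j hj => ?_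
        have hj' : j ≤ n := Nat.lt_succ_iff.1 (Finset.mem_range.1 hj)
        simp [Nat.add_sub_cancel' hj']
      rw [this]
      exact hasSum_fintype _
    exact hxy.unique h5
  · intro x hx
    beta_reduce
    rw [Measure.variation_withDensityᵥ (hint x hx), withDensity_apply _ MeasurableSet.univ,
      Measure.restrict_univ, ← ofReal_integral_norm_eq_lintegral_enorm (hint x hx),
      integral_sum_measure (hint x hx).norm]
    simp only [hfn]
    rfl

end Pool.Agent.P.MP_f562c3_an
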