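import Mathlib

open MeasureTheory Filter Topology Set
open scoped ENNReal

namespace Pool.Agent.P.MP_f562c3_an

theorem cancel {W G : Type*} [MeasurableSpace W] [AddCommGroup G] [Fintype G] (Q : Measure W)
    (cfg : ℕ → W → G) (hcfg : ∀ r g, MeasurableSet {w | cfg r w = g})
    (τ : ℕ → G → W → W) (hτ : ∀ r t, MeasurePreserving (τ r t) Q Q)
    (h1 : ∀ r t w, cfg r (τ r t w) = cfg r w + t)
    (h2 : ∀ r r' t w, r' ≠ r → cfg r' (τ r t w) = cfg r' w)
    (Y : Set W) (hY : MeasurableSet Y) (hYfin : Q Y ≠ ∞) (hYτ : ∀ r t w, τ r t w ∈ Y ↔ w ∈ Y)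
    (S : W → ℝ) (hS : Measurable S) (σ : W → ℝ) (hσ : Measurable σ) (hσ1 : ∀ w, |σ w| ≤ 1)
    (p q : G) (hpq : p ≠ q) (L : ℕ)
    (hswap : ∀ r < L, ∀ w ∈ Y, cfg r w = p →
      S (τ r (q - p) w) = S w ∧ σ (τ r (q - p) w) = -σ w) :
    ∃ V ⊆ Y, MeasurableSet V ∧
      Q.real V ≤ (1 - 1 / (Fintype.card G : ℝ)) ^ L * Q.real Y ∧
      ∀ E, MeasurableSet E → ∫ w in Y ∩ S ⁻¹' E, σ w ∂Q = ∫ w in V ∩ S ⁻¹' E, σ w ∂Q := by
  let V : ℕ → Set W := fun r => {w | w ∈ Y ∧ ∀ r' < r, cfg r' w ≠ p ∧ cfg r' w ≠ q}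
  have hVY : ∀ r, V r ⊆ Y := fun r w hw => hw.1
  have hVm : ∀ r, MeasurableSet (V r) := by
    intro r
    have : V r = Y ∩ ⋂ r' < r, ({w | cfg r' w = p}ᶜ ∩ {w | cfg r' w = q}ᶜ) := by
      ext w; simp [V]
    rw [this]
    exact hY.inter (MeasurableSet.iInter fun r' => MeasurableSet.iInter fun _ =>
      (hcfg _ _).compl.inter (hcfg _ _).compl)
  have hVfin : ∀ r, Q (V r) ≠ ∞ := fun r => ne_top_of_le_ne_top hYfin (measure_mono (hVY r))
  have hVτ : ∀ r t w, τ r t w ∈ V r ↔ w ∈ V r := by
    intro r t w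
    simp only [V, mem_setOf_eq, hYτ]
    refine and_congr_right fun _ => forall₂_congr fun r' hr' => ?_
    rw [h2 r r' t w hr'.ne]
  have hcard : (0 : ℝ) < Fintype.card G := by exact_mod_cast Fintype.card_pos
  have hc0 : 0 ≤ 1 - 1 / (Fintype.card G : ℝ) := by
    rw [sub_nonneg, div_le_one hcard]; exact_mod_cast Fintype.card_pos
  have hint : ∀ A, A ⊆ Y → IntegrableOn σ A Q := by
    intro A hA
    refine Measure.integrableOn_of_bounded (M := 1)
      (ne_top_of_le_ne_top hYfin (measure_mono hA)) hσ.aestronglyMeasurable ?_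
    exact Eventually.of_forall fun w => hσ1 w
  have main : ∀ r ≤ L, Q.real (V r) ≤ (1 - 1 / (Fintype.card G : ℝ)) ^ r * Q.real Y ∧
      ∀ E, MeasurableSet E → ∫ w in Y ∩ S ⁻¹' E, σ w ∂Q = ∫ w in V r ∩ S ⁻¹' E, σ w ∂Q := by
    intro r
    induction r with
    | zero =>
      intro _
      have : V 0 = Y := by ext w; simp [V]
      rw [this]; simp
    | succ r ih =>
      intro hr
      obtain ⟨ih1, ih2⟩ := ih (Nat.le_of_succ_le hr)
      have hpre : ∀ v, τ r (v - p) ⁻¹' (V r ∩ {w | cfg r w = v}) = V r ∩ {w | cfg r w = p} := by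
        intro v
        ext w
        simp only [mem_preimage, mem_inter_iff, hVτ, mem_setOf_eq, h1]
        refine and_congr_right fun _ => ⟨fun h => ?_, fun h => ?_⟩
        · have : cfg r w = v - (v - p) := eq_sub_of_add_eq h
          rw [this]; abel
        · rw [h]; abel
      constructor
      · have e1 : ∀ v, Q.real (V r ∩ {w | cfg r w = v}) = Q.real (V r ∩ {w | cfg r w = p}) := by
          intro v
          rw [← hpre v, Measure.real, Measure.real,
            (hτ r (v - p)).measure_preimage ((hVm r).inter (hcfg r v)).nullMeasurableSet]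
        have e2 : Q.real (V r) = Fintype.card G * Q.real (V r ∩ {w | cfg r w = p}) := by
          have : V r = ⋃ v, V r ∩ {w | cfg r w = v} := by ext w; simp
          conv_lhs => rw [this]
          rw [measureReal_iUnion_fintype _ _
            (fun v => ne_top_of_le_ne_top (hVfin r) (measure_mono inter_subset_left))]
          · simp [e1]
          · intro v v' hv
            exact Set.disjoint_left.2 fun w hw hw' => hv (hw.2.symm.trans hw'.2)
          · exact fun v => (hVm r).inter (hcfg r v)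
        have e3 := measureReal_inter_add_sdiff (μ := Q) (s := V r) (hcfg r p) (hVfin r)
        have e4 : Q.real (V (r + 1)) ≤ Q.real (V r \ {w | cfg r w = p}) := by
          refine measureReal_mono ?_ (ne_top_of_le_ne_top (hVfin r) (measure_mono sdiff_subset))
          intro w hw
          exact ⟨⟨hw.1, fun r' hr' => hw.2 r' (Nat.lt_succ_of_lt hr')⟩,
            (hw.2 r (Nat.lt_succ_self r)).1⟩
        have e5 : Q.real (V r ∩ {w | cfg r w = p}) = 1 / (Fintype.card G : ℝ) * Q.real (V r) := by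
          rw [e2]; field_simp
        calc Q.real (V (r + 1)) ≤ (1 - 1 / (Fintype.card G : ℝ)) * Q.real (V r) := by linarith
          _ ≤ (1 - 1 / (Fintype.card G : ℝ)) *
              ((1 - 1 / (Fintype.card G : ℝ)) ^ r * Q.real Y) := by gcongr
          _ = _ := by ring
      · intro E hE
        rw [ih2 E hE]
        have hA : MeasurableSet (V r ∩ S ⁻¹' E) := (hVm r).inter (hS hE)
        set A := V r ∩ S ⁻¹' E with hAdef
        have hAY : A ⊆ Y := fun w hw => hw.1.1
        have e1 : τ r (q - p) ⁻¹' (A ∩ {w | cfg r w = q}) = A ∩ {w | cfg r w = p} := by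
          ext w
          have := Set.ext_iff.1 (hpre q) w
          simp only [mem_preimage, mem_inter_iff, hAdef] at this ⊢
          constructor
          · rintro ⟨⟨a, b⟩, c⟩
            obtain ⟨d, e⟩ := this.1 ⟨a, c⟩
            rw [(hswap r hr w d.1 e).1] at b
            exact ⟨⟨d, b⟩, e⟩
          · rintro ⟨⟨a, b⟩, c⟩
            obtain ⟨d, e⟩ := this.2 ⟨a, c⟩
            rw [← (hswap r hr w a.1 c).1] at b
            exact ⟨⟨d, b⟩, e⟩
        have e2 : ∫ w in A ∩ {w | cfg r w = q}, σ w ∂Q =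
            -∫ w in A ∩ {w | cfg r w = p}, σ w ∂Q := by
          have := setIntegral_map (μ := Q) (g := τ r (q - p)) (f := σ) (hA.inter (hcfg r q))
            hσ.aestronglyMeasurable (hτ r (q - p)).measurable.aemeasurable
          rw [(hτ r (q - p)).map_eq, e1] at this
          rw [this, ← integral_neg]
          exact setIntegral_congr_fun (hA.inter (hcfg r p)) fun w hw =>
            (hswap r hr w (hAY hw.1) hw.2).2
        have e3 : A = ((V (r + 1) ∩ S ⁻¹' E) ∪ (A ∩ {w | cfg r w = p})) ∪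
            (A ∩ {w | cfg r w = q}) := by
          ext w
          constructor
          · intro hw
            by_cases hp : cfg r w = p
            · exact Or.inl (Or.inr ⟨hw, hp⟩)
            by_cases hq : cfg r w = q
            · exact Or.inr ⟨hw, hq⟩
            refine Or.inl (Or.inl ⟨⟨hw.1.1, fun r' hr' => ?_⟩, hw.2⟩)
            rcases Nat.lt_succ_iff_lt_or_eq.1 hr' with h | rfl
            · exact hw.1.2 r' h
            · exact ⟨hp, hq⟩
          · rintro ((hw | hw) | hw)
            · exact ⟨⟨hw.1.1, fun r' hr' => hw.1.2 r' (Nat.lt_succ_of_lt hr')⟩, hw.2⟩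
            · exact hw.1
            · exact hw.1
        have i1 := hint (V (r + 1) ∩ S ⁻¹' E) fun w hw => hw.1.1
        have i2 := hint (A ∩ {w | cfg r w = p}) fun w hw => hAY hw.1
        have i3 := hint (A ∩ {w | cfg r w = q}) fun w hw => hAY hw.1
        conv_lhs => rw [e3]
        rw [setIntegral_union _ (hA.inter (hcfg r q)) (i1.union i2) i3,
          setIntegral_union _ (hA.inter (hcfg r p)) i1 i2, e2]
        · ring
        · exact Set.disjoint_left.2 fun w hw hw' => (hw.1.2 r (Nat.lt_succ_self r)).1 hw'.2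
        · refine Set.disjoint_left.2 ?_
          rintro w (hw | hw) hw'
          · exact (hw.1.2 r (Nat.lt_succ_self r)).2 hw'.2
          · exact hpq (hw.2.symm.trans hw'.2)
  exact ⟨V L, hVY L, hVm L, (main L le_rfl).1, (main L le_rfl).2⟩

end Pool.Agent.P.MP_f562c3_an
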