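import Pool.Agent.P.MP_f562c3_an.Digits

open Filter Topology Set

namespace Pool.Agent.P.MP_f562c3_an

/-- Sum of the positions of a tuple of draws. -/
noncomputable def SS (L : ℕ → ℕ) {n : ℕ} (w : Fin n → ℕ × Om) : ℝ := ∑ l, pos L (w l)

/-- Product of the signs of a tuple of draws. -/
def Sg (L : ℕ → ℕ) {n : ℕ} (w : Fin n → ℕ × Om) : ℝ := ∏ l, sgn L (w l)

/-- Digit sums. -/
def dsum (L : ℕ → ℕ) {n : ℕ} (w : Fin n → ℕ × Om) (m : ℕ) : ℕ := ∑ l, dig L (w l) m

/-- The multiset of component indices. -/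
def ms {n : ℕ} (w : Fin n → ℕ × Om) : Multiset ℕ := Finset.univ.val.map fun l => (w l).1

theorem SS_nonneg (L : ℕ → ℕ) {n : ℕ} (w : Fin n → ℕ × Om) : 0 ≤ SS L w :=
  Finset.sum_nonneg fun l _ => (pos_pos L (w l)).le

theorem Sg_eq (L : ℕ → ℕ) {n : ℕ} (w : Fin n → ℕ × Om) : Sg L w = 1 ∨ Sg L w = -1 := by
  unfold Sg
  induction (Finset.univ : Finset (Fin n)) using Finset.induction_on with
  | empty => simp
  | insert a s ha ih =>
    rw [Finset.prod_insert ha]
    rcases sgn_eq L (w a) with h' | h' <;> rcases ih with h | h <;> simp [h, h']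

theorem abs_Sg (L : ℕ → ℕ) {n : ℕ} (w : Fin n → ℕ × Om) : |Sg L w| = 1 := by
  rcases Sg_eq L w with h | h <;> simp [h]

theorem SS_eq (L : ℕ → ℕ) {n : ℕ} (w : Fin n → ℕ × Om) :
    SS L w = ((ms w).map fun i : ℕ => 1 / ((i : ℝ) + 2)).sum +
      ∑' m, (dsum L w m : ℝ) / BB (m + 1) := by
  unfold SS pos ms dsum
  rw [Finset.sum_add_distrib, Multiset.map_map, ← Summable.tsum_finsetSum
    fun l _ => summable_all (abs_dig_le L (w l))]
  congr 1
  refine tsum_congr fun m => ?_
  rw [← Finset.sum_div]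
  push_cast
  rfl

theorem card_le_of_lt (L : ℕ → ℕ) {n : ℕ} {w : Fin n → ℕ × Om} (hw : SS L w < 1) (k : ℕ) :
    (Finset.univ.filter fun l => (w l).1 ≤ k).card ≤ k + 1 := by
  have h1 : ((Finset.univ.filter fun l => (w l).1 ≤ k).card : ℝ) * (1 / ((k : ℝ) + 2)) ≤
      SS L w := by
    calc _ = ∑ _l ∈ Finset.univ.filter fun l => (w l).1 ≤ k, 1 / ((k : ℝ) + 2) := by simp
      _ ≤ ∑ l ∈ Finset.univ.filter fun l => (w l).1 ≤ k, pos L (w l) := by
        refine Finset.sum_le_sum fun l hl => le_trans ?_ (le_pos L (w l))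
        have : ((w l).1 : ℝ) ≤ k := by exact_mod_cast (Finset.mem_filter.1 hl).2
        gcongr
      _ ≤ SS L w := Finset.sum_le_sum_of_subset_of_nonneg (Finset.filter_subset _ _)
        fun l _ _ => (pos_pos L (w l)).le
  have h2 := h1.trans_lt hw
  rw [mul_one_div, div_lt_one (by positivity)] at h2
  have : (Finset.univ.filter fun l => (w l).1 ≤ k).card < k + 2 := by exact_mod_cast h2
  omega

theorem dsum_le (L : ℕ → ℕ) {n : ℕ} {w : Fin n → ℕ × Om} (hw : SS L w < 1) (m : ℕ) :
    dsum L w m ≤ (m + 1) * (m + 1) := by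
  calc dsum L w m ≤ ∑ l, if (w l).1 ≤ m then m + 1 else 0 :=
        Finset.sum_le_sum fun l _ => dig_le L (w l) m
    _ = (Finset.univ.filter fun l => (w l).1 ≤ m).card * (m + 1) := by
        rw [← Finset.sum_filter]; simp
    _ ≤ _ := Nat.mul_le_mul_right _ (card_le_of_lt L hw m)

theorem dsum_marker (L : ℕ → ℕ) {n : ℕ} (w : Fin n → ℕ × Om) (β : ℕ) :
    dsum L w (3 * β) = (ms w).count (kk β) := by
  unfold dsum ms dig
  rw [Multiset.count_map, ← Finset.filter_val, ← Finset.card_def, Finset.card_filter]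
  refine Finset.sum_congr rfl fun l _ => ?_
  simp [dg, eq_comm]

theorem same_sum (L : ℕ → ℕ) {n n' : ℕ} {w : Fin n → ℕ × Om} {w' : Fin n' → ℕ × Om}
    (hw : SS L w < 1) (h : SS L w = SS L w') :
    ms w = ms w' ∧ ∀ m, dsum L w m = dsum L w' m := by
  have hw' : SS L w' < 1 := h ▸ hw
  let e : ℕ → ℤ := fun m => (dsum L w m : ℤ) - dsum L w' m
  have hb : ∀ {n : ℕ} {w : Fin n → ℕ × Om}, SS L w < 1 → ∀ m,
      (dsum L w m : ℝ) ≤ ((m : ℝ) + 2) ^ 2 := by
    intro n w hw m
    have h1 : (dsum L w m : ℝ) ≤ (m + 1) * (m + 1) := by exact_mod_cast dsum_le L hw m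
    have h0 : (0 : ℝ) ≤ m := Nat.cast_nonneg m
    nlinarith
  have he : ∀ m, |(e m : ℝ)| ≤ ((m : ℝ) + 2) ^ 2 := by
    intro m
    have h1 := hb hw m
    have h2 := hb hw' m
    have h3 : (0 : ℝ) ≤ dsum L w m := Nat.cast_nonneg _
    have h4 : (0 : ℝ) ≤ dsum L w' m := Nat.cast_nonneg _
    simp only [e]
    push_cast
    rw [abs_le]
    constructor <;> linarith
  have hsum : ∑' m, (e m : ℝ) / BB (m + 1) =
      ((ms w').map fun i : ℕ => 1 / ((i : ℝ) + 2)).sum -
        ((ms w).map fun i : ℕ => 1 / ((i : ℝ) + 2)).sum := by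
    have s1 := summable_all (e := fun m => (dsum L w m : ℝ))
      fun m => by rw [abs_of_nonneg (Nat.cast_nonneg _)]; exact hb hw m
    have s2 := summable_all (e := fun m => (dsum L w' m : ℝ))
      fun m => by rw [abs_of_nonneg (Nat.cast_nonneg _)]; exact hb hw' m
    have : ∑' m, (e m : ℝ) / BB (m + 1) =
        ∑' m, (dsum L w m : ℝ) / BB (m + 1) - ∑' m, (dsum L w' m : ℝ) / BB (m + 1) := by
      rw [← s1.tsum_sub s2]
      refine tsum_congr fun m => ?_
      simp only [e]; push_cast; ring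
    rw [this]
    rw [SS_eq, SS_eq] at h
    linarith
  have hoff : ∀ (s : Multiset ℕ) (M : ℕ), (∀ i ∈ s, i + 1 ≤ M) →
      ∃ z : ℤ, (s.map fun i : ℕ => 1 / ((i : ℝ) + 2)).sum * BB M = z := by
    intro s M hs
    induction s using Multiset.induction_on with
    | empty => exact ⟨0, by simp⟩
    | cons a s ih =>
      obtain ⟨z, hz⟩ := ih fun i hi => hs i (Multiset.mem_cons_of_mem hi)
      obtain ⟨c, hc⟩ := dvd_BB (hs a (Multiset.mem_cons_self a s))
      refine ⟨c + z, ?_⟩
      rw [Multiset.map_cons, Multiset.sum_cons, add_mul, hz, hc]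
      push_cast
      field_simp
  let M0 := (ms w + ms w').sup + 1
  have hM : ∀ i ∈ ms w + ms w', i + 1 ≤ M0 := fun i hi =>
    Nat.succ_le_succ (Multiset.le_sup hi)
  obtain ⟨z, hz⟩ := hoff (ms w) M0 fun i hi => hM i (Multiset.mem_add.2 (Or.inl hi))
  obtain ⟨z', hz'⟩ := hoff (ms w') M0 fun i hi => hM i (Multiset.mem_add.2 (Or.inr hi))
  have htail := decode e he M0 (z' - z) (by rw [hsum, sub_mul, hz, hz']; push_cast; ring)
  have hms : ms w = ms w' := by
    ext i
    have h1 := htail (3 * Nat.pair i M0) (by have := Nat.right_le_pair i M0; omega)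
    simp only [e, dsum_marker, kk, Nat.unpair_pair] at h1
    omega
  refine ⟨hms, fun m => ?_⟩
  have := decode e he 0 0 (by rw [hsum, hms]; simp) m (Nat.zero_le m)
  simp only [e] at this
  omega

theorem card_ms {n : ℕ} (w : Fin n → ℕ × Om) : (ms w).card = n := by simp [ms]

theorem mem_ms {n : ℕ} {w : Fin n → ℕ × Om} {i : ℕ} : i ∈ ms w ↔ ∃ l, (w l).1 = i := by
  simp [ms]

/-- Good tuples: all indices are large compared with the degree. -/
def Good {n : ℕ} (ι : Fin n → ℕ) : Prop := ∀ l, n ≤ ι l + 1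

theorem SS_lt_one (L : ℕ → ℕ) {n : ℕ} {w : Fin n → ℕ × Om} (hw : Good fun l => (w l).1) :
    SS L w < 1 := by
  rcases Nat.eq_zero_or_pos n with rfl | hn
  · simp [SS]
  have hn' : (0 : ℝ) < n := by exact_mod_cast hn
  have : Nonempty (Fin n) := ⟨⟨0, hn⟩⟩
  calc SS L w < ∑ _l : Fin n, 1 / (n : ℝ) := by
        refine Finset.sum_lt_sum_of_nonempty Finset.univ_nonempty fun l _ => ?_
        refine (pos_lt L (w l)).trans_le ?_
        have : (n : ℝ) ≤ (w l).1 + 1 := by exact_mod_cast hw l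
        gcongr
    _ = 1 := by simp [hn'.ne']

theorem one_le_SS (L : ℕ → ℕ) {n : ℕ} {w : Fin n → ℕ × Om} (hn : 0 < n)
    (hw : ∀ l, (w l).1 + 2 ≤ n) : 1 ≤ SS L w := by
  have hn' : (0 : ℝ) < n := by exact_mod_cast hn
  calc (1 : ℝ) = ∑ _l : Fin n, 1 / (n : ℝ) := by simp [hn'.ne']
    _ ≤ SS L w := by
        refine Finset.sum_le_sum fun l _ => le_trans ?_ (le_pos L (w l))
        have : ((w l).1 : ℝ) + 2 ≤ n := by exact_mod_cast hw l
        gcongr

/-- Number of negative symbols in block `β`. -/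
def ycount (L : ℕ → ℕ) {n : ℕ} (w : Fin n → ℕ × Om) (β : ℕ) : ℕ :=
  ∑ l, if (Act L β ∧ (w l).1 = kk β) ∧ (w l).2 β = 2 then 1 else 0

theorem Sg_eq_prod (L : ℕ → ℕ) {n : ℕ} (w : Fin n → ℕ × Om) (F : Finset ℕ)
    (hF : ∀ l, blocks L (w l).1 ⊆ F) : Sg L w = ∏ β ∈ F, (-1) ^ ycount L w β := by
  unfold Sg ycount
  simp only [← Finset.prod_pow_eq_pow_sum]
  rw [Finset.prod_comm]
  refine Finset.prod_congr rfl fun l _ => ?_
  unfold sgn
  rw [← Finset.prod_subset (hF l)]
  · refine Finset.prod_congr rfl fun β hβ => ?_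
    have := mem_blocks.1 hβ
    unfold sg
    by_cases hc : (w l).2 β = 2 <;> simp [hc, this]
  · intro β _ hβ
    rw [mem_blocks] at hβ
    simp [hβ]

theorem ycount_eq (L : ℕ → ℕ) {n : ℕ} {w w' : Fin n → ℕ × Om} (hw : Good fun l => (w l).1)
    (hw' : Good fun l => (w' l).1) (h : ∀ m, dsum L w m = dsum L w' m) (β : ℕ) :
    ycount L w β = ycount L w' β := by
  by_cases hA : Act L β
  swap
  · simp [ycount, hA]
  have key : ∀ w : Fin n → ℕ × Om, (Good fun l => (w l).1) → ∃ u v : ℕ,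
      dsum L w (3 * β + 1) = u + (jj β + 1) * ycount L w β ∧
      dsum L w (3 * β + 2) = v + ycount L w β ∧ u + v ≤ n ∧ (0 < v → n ≤ jj β + 1) := by
    intro w hw
    have hjk : jj β ≠ kk β := hA.1.ne
    refine ⟨∑ l, if (w l).1 ≤ kk β ∧ (w l).2 β = 1 then 1 else 0,
      ∑ l, if (w l).1 = jj β ∧ (w l).2 β = 2 then 1 else 0, ?_, ?_, ?_, ?_⟩
    · unfold dsum ycount dig
      rw [Finset.mul_sum, ← Finset.sum_add_distrib]
      refine Finset.sum_congr rfl fun l _ => ?_
      rw [show (3 * β + 1) / 3 = β by omega, show (3 * β + 1) % 3 = 1 by omega]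
      have h12 : (1 : ZMod 3) ≠ 2 := by decide
      unfold dg
      by_cases c1 : (w l).2 β = 1 <;> by_cases c2 : (w l).2 β = 2 <;>
        by_cases c3 : (w l).1 = kk β <;> by_cases c4 : (w l).1 ≤ kk β <;>
        simp_all
    · unfold dsum ycount dig
      rw [← Finset.sum_add_distrib]
      refine Finset.sum_congr rfl fun l _ => ?_
      rw [show (3 * β + 2) / 3 = β by omega, show (3 * β + 2) % 3 = 2 by omega]
      unfold dg
      by_cases c2 : (w l).2 β = 2 <;> by_cases c3 : (w l).1 = kk β <;>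
        by_cases c4 : (w l).1 = jj β <;> simp_all
    · rw [← Finset.sum_add_distrib]
      calc _ ≤ ∑ _l : Fin n, 1 := by
            refine Finset.sum_le_sum fun l _ => ?_
            have h12 : (1 : ZMod 3) ≠ 2 := by decide
            by_cases c1 : (w l).2 β = 1 <;> by_cases c2 : (w l).2 β = 2 <;> simp_all <;>
              split_ifs <;> simp
        _ = n := by simp
    · intro hv
      obtain ⟨l, -, hl⟩ := Finset.exists_ne_zero_of_sum_ne_zero hv.ne'
      have h1 : (w l).1 = jj β := by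
        by_contra hne
        simp [hne] at hl
      have := hw l
      simp only [h1] at this
      exact this
  obtain ⟨u, v, a1, a2, a3, a4⟩ := key w hw
  obtain ⟨u', v', b1, b2, b3, b4⟩ := key w' hw'
  have e1 := h (3 * β + 1)
  have e2 := h (3 * β + 2)
  rw [a1, b1] at e1
  rw [a2, b2] at e2
  rcases lt_trichotomy (ycount L w β) (ycount L w' β) with hlt | heq | hgt
  · exfalso
    have h1 := a4 (by omega)
    have h2 : (jj β + 1) * (ycount L w β + 1) ≤ (jj β + 1) * ycount L w' β :=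
      Nat.mul_le_mul_left _ hlt
    rw [mul_add, mul_one] at h2
    omega
  · exact heq
  · exfalso
    have h1 := b4 (by omega)
    have h2 : (jj β + 1) * (ycount L w' β + 1) ≤ (jj β + 1) * ycount L w β :=
      Nat.mul_le_mul_left _ hgt
    rw [mul_add, mul_one] at h2
    omega

theorem Sg_eq_of_good (L : ℕ → ℕ) {n : ℕ} {w w' : Fin n → ℕ × Om} (hw : Good fun l => (w l).1)
    (hw' : Good fun l => (w' l).1) (h : SS L w = SS L w') : Sg L w = Sg L w' := by
  have hd := (same_sum L (SS_lt_one L hw) h).2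
  let F := (Finset.univ.biUnion fun l => blocks L (w l).1) ∪
    (Finset.univ.biUnion fun l => blocks L (w' l).1)
  rw [Sg_eq_prod L w F fun l => (Finset.subset_biUnion_of_mem (fun l => blocks L (w l).1)
      (Finset.mem_univ l)).trans Finset.subset_union_left,
    Sg_eq_prod L w' F fun l => (Finset.subset_biUnion_of_mem (fun l => blocks L (w' l).1)
      (Finset.mem_univ l)).trans Finset.subset_union_right]
  exact Finset.prod_congr rfl fun β _ => by rw [ycount_eq L hw hw' hd β]

/-- Translation of the symbols in block `β`. -/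
def tr {n : ℕ} (β : ℕ) (t : Fin n → ZMod 3) (w : Fin n → ℕ × Om) : Fin n → ℕ × Om :=
  fun l => ((w l).1, (w l).2 + Pi.single β (t l))

theorem swap (L : ℕ → ℕ) {n : ℕ} {β : ℕ} (hA : Act L β) (w : Fin n → ℕ × Om) (l0 l1 : Fin n)
    (U : Finset (Fin n)) (hU : U.card = jj β + 1) (hl0 : l0 ∉ U) (h0 : (w l0).1 = jj β)
    (h1 : (w l1).1 = kk β) (hk : ∀ l, (w l).1 ≤ kk β)
    (p q : Fin n → ZMod 3) (hp : ∀ l, p l = if l = l0 then 2 else if l ∈ U then 1 else 0)
    (hq : ∀ l, q l = if l = l1 then 2 else 0) (hw : ∀ l, (w l).2 β = p l) :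
    SS L (tr β (q - p) w) = SS L w ∧ Sg L (tr β (q - p) w) = -Sg L w := by
  have hjk : jj β ≠ kk β := hA.1.ne
  have h01 : l0 ≠ l1 := by
    rintro rfl
    exact hjk (h0.symm.trans h1)
  have h12 : (1 : ZMod 3) ≠ 2 := by decide
  have h02 : (0 : ZMod 3) ≠ 2 := by decide
  have h01' : (0 : ZMod 3) ≠ 1 := by decide
  have hat : ∀ l, (tr β (q - p) w l).2 β = q l := by
    intro l
    simp [tr, hw l]
  have hne : ∀ l γ, γ ≠ β → (tr β (q - p) w l).2 γ = (w l).2 γ := by
    intro l γ hγ
    simp [tr, hγ]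
  have hfst : ∀ l, (tr β (q - p) w l).1 = (w l).1 := fun l => rfl
  constructor
  · rw [SS_eq, SS_eq]
    have hms : ms (tr β (q - p) w) = ms w := rfl
    rw [hms]
    congr 1
    refine tsum_congr fun m => ?_
    congr 2
    unfold dsum dig
    by_cases hm : m / 3 = β
    swap
    · exact Finset.sum_congr rfl fun l _ => by rw [hne l _ hm, hfst]
    simp only [hm, hat, hw, hfst]
    have h3 : m % 3 = 0 ∨ m % 3 = 1 ∨ m % 3 = 2 := by omega
    rcases h3 with h3 | h3 | h3 <;> rw [h3]
    · simp [dg]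
    · have e1 : ∀ l, dg L (w l).1 β 1 (q l) = if l = l1 then jj β + 1 else 0 := by
        intro l
        rw [hq]
        by_cases hl : l = l1
        · subst hl; simp [dg, hA, h1, h12.symm]
        · simp [dg, hl, h02, h01']
      have e2 : ∀ l, dg L (w l).1 β 1 (p l) = if l ∈ U then 1 else 0 := by
        intro l
        rw [hp]
        by_cases hl : l = l0
        · subst hl; simp [dg, h0, hjk, h12.symm, hl0]
        · by_cases hl' : l ∈ U
          · simp [dg, hl, hl', hA, hk l]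
          · simp [dg, hl, hl', h02, h01']
      simp only [e1, e2]
      simp [hU]
    · have e1 : ∀ l, dg L (w l).1 β 2 (q l) = if l = l1 then 1 else 0 := by
        intro l
        rw [hq]
        by_cases hl : l = l1
        · subst hl; simp [dg, hA, h1]
        · simp [dg, hl, h02]
      have e2 : ∀ l, dg L (w l).1 β 2 (p l) = if l = l0 then 1 else 0 := by
        intro l
        rw [hp]
        by_cases hl : l = l0
        · subst hl; simp [dg, h0, hA]
        · by_cases hl' : l ∈ U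
          · simp [dg, hl, hl', h12]
          · simp [dg, hl, hl', h02]
      simp only [e1, e2]
      simp
  · let F := insert β (Finset.univ.biUnion fun l => blocks L (w l).1)
    have hF : ∀ l, blocks L (w l).1 ⊆ F := fun l =>
      (Finset.subset_biUnion_of_mem (fun l => blocks L (w l).1) (Finset.mem_univ l)).trans
        (Finset.subset_insert _ _)
    have hβ : β ∈ F := Finset.mem_insert_self _ _
    rw [Sg_eq_prod L w F hF, Sg_eq_prod L (tr β (q - p) w) F hF,
      ← Finset.mul_prod_erase F _ hβ, ← Finset.mul_prod_erase F _ hβ]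
    have e1 : ycount L (tr β (q - p) w) β = 1 := by
      unfold ycount
      rw [Finset.sum_eq_single l1]
      · simp [hat, hq, hA, hfst, h1]
      · intro l _ hl
        simp [hat, hq, hl, h02]
      · simp
    have e2 : ycount L w β = 0 := by
      unfold ycount
      refine Finset.sum_eq_zero fun l _ => ?_
      rw [hw, hp]
      by_cases hl : l = l0
      · subst hl; simp [h0, hjk]
      · by_cases hl' : l ∈ U <;> simp [hl, hl', h12, h02]
    have e3 : ∏ γ ∈ F.erase β, (-1 : ℝ) ^ ycount L (tr β (q - p) w) γ =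
        ∏ γ ∈ F.erase β, (-1 : ℝ) ^ ycount L w γ := by
      refine Finset.prod_congr rfl fun γ hγ => ?_
      unfold ycount
      simp only [hne _ γ (Finset.ne_of_mem_erase hγ), hfst]
    rw [e1, e2, e3]
    ring

end Pool.Agent.P.MP_f562c3_an
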