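import Pool.Agent.P.MP_f562c3_an.Push
import Pool.Agent.P.MP_f562c3_an.Tuples
import Pool.Agent.P.MP_f562c3_an.Cancel

open MeasureTheory Filter Topology Set
open scoped ENNReal

namespace Pool.Agent.P.MP_f562c3_an

/-- Haar probability on the symbol space. -/
noncomputable def PP : Measure Om := Measure.addHaarMeasure ⊤

instance : IsProbabilityMeasure PP := ⟨by
  have := Measure.addHaarMeasure_self (K₀ := (⊤ : TopologicalSpace.PositiveCompacts Om))
  simpa [PP] using this⟩

instance : PP.IsAddHaarMeasure := by unfold PP; infer_instance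

/-- Reference measure for one draw. -/
noncomputable def Q1 : Measure (ℕ × Om) := (Measure.count : Measure ℕ).prod PP

instance : SigmaFinite Q1 := by unfold Q1; infer_instance

/-- Reference measure for `n` draws. -/
noncomputable def QQ (n : ℕ) : Measure (Fin n → ℕ × Om) := Measure.pi fun _ => Q1

instance (n : ℕ) : SigmaFinite (QQ n) := by unfold QQ; infer_instance

/-- The indices of a tuple. -/
def idx {n : ℕ} (w : Fin n → ℕ × Om) : Fin n → ℕ := fun l => (w l).1

theorem measurable_idx {n : ℕ} : Measurable (idx : (Fin n → ℕ × Om) → Fin n → ℕ) := by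
  unfold idx; fun_prop

theorem measurable_SS (L : ℕ → ℕ) (n : ℕ) : Measurable (SS L : (Fin n → ℕ × Om) → ℝ) :=
  Finset.measurable_sum _ fun l _ => (continuous_pos L).measurable.comp (measurable_pi_apply l)

theorem measurable_Sg (L : ℕ → ℕ) (n : ℕ) : Measurable (Sg L : (Fin n → ℕ × Om) → ℝ) :=
  Finset.measurable_prod _ fun l _ => (continuous_sgn L).measurable.comp (measurable_pi_apply l)

theorem measurableSet_idx {n : ℕ} (P : (Fin n → ℕ) → Prop) :
    MeasurableSet {w : Fin n → ℕ × Om | P (idx w)} :=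
  measurable_idx (MeasurableSet.of_discrete (s := {ι | P ι}))

theorem QQ_idx {n : ℕ} (ι : Fin n → ℕ) : QQ n {w | idx w = ι} = 1 := by
  have : {w : Fin n → ℕ × Om | idx w = ι} = Set.pi univ fun l => {ι l} ×ˢ univ := by
    ext w; simp [idx, funext_iff]
  rw [this, QQ, Measure.pi_pi]
  simp [Q1]

theorem measurePreserving_tr {n : ℕ} (β : ℕ) (t : Fin n → ZMod 3) :
    MeasurePreserving (tr β t) (QQ n) (QQ n) :=
  measurePreserving_pi (fun _ => Q1) (fun _ => Q1)
    (f := fun l (v : ℕ × Om) => (v.1, v.2 + (Pi.single β (t l) : Om)))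
    fun l => (MeasurePreserving.id Measure.count).prod
      (measurePreserving_add_right PP (Pi.single β (t l) : Om))

theorem measurePreserving_append (m n : ℕ) :
    MeasurePreserving (fun p : (Fin m → ℕ × Om) × (Fin n → ℕ × Om) => Fin.append p.1 p.2)
      ((QQ m).prod (QQ n)) (QQ (m + n)) := by
  have hm : Measurable fun p : (Fin m → ℕ × Om) × (Fin n → ℕ × Om) => Fin.append p.1 p.2 := by
    refine measurable_pi_iff.2 fun l => ?_
    induction l using Fin.addCases with
    | left l => simp only [Fin.append_left]; fun_prop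
    | right l => simp only [Fin.append_right]; fun_prop
  refine ⟨hm, (Measure.pi_eq fun s hs => ?_).symm⟩
  rw [Measure.map_apply hm (MeasurableSet.univ_pi hs)]
  have : (fun p : (Fin m → ℕ × Om) × (Fin n → ℕ × Om) => Fin.append p.1 p.2) ⁻¹' Set.pi univ s =
      (Set.pi univ fun l => s (Fin.castAdd n l)) ×ˢ Set.pi univ fun l => s (Fin.natAdd m l) := by
    ext p
    simp only [mem_preimage, mem_univ_pi, mem_prod, Fin.forall_fin_add, Fin.append_left,
      Fin.append_right]
  rw [this, Measure.prod_prod, QQ, QQ, Measure.pi_pi, Measure.pi_pi, Fin.prod_univ_add]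

/-- The weight of a tuple of indices. -/
def wt (a : ℕ → ℝ) {n : ℕ} (ι : Fin n → ℕ) : ℝ := ∏ l, a (ι l)

theorem integrable_wt {a : ℕ → ℝ} (ha : Summable a) (n : ℕ) :
    Integrable (fun w => wt a (idx w)) (QQ n) :=
  Integrable.fintype_prod (f := fun _ (v : ℕ × Om) => a v.1)
    fun _ => (integrable_count_iff.2 ha.norm).comp_fst PP

theorem integral_wt {a : ℕ → ℝ} (ha : Summable a) (n : ℕ) :
    ∫ w, wt a (idx w) ∂QQ n = (∑' j, a j) ^ n := by
  have := integral_fintype_prod_eq_pow (ι := Fin n) (fun v : ℕ × Om => a v.1) (μ := Q1)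
  rw [Fintype.card_fin] at this
  refine this.trans ?_
  rw [Q1, integral_fun_fst, integral_countable (integrable_count_iff.2 ha.norm)]
  simp

theorem integrable_mul_Sg (L : ℕ → ℕ) {n : ℕ} {f : (Fin n → ℕ × Om) → ℝ}
    (hf : Integrable f (QQ n)) : Integrable (fun w => f w * Sg L w) (QQ n) :=
  hf.mul_bdd (c := 1) (measurable_Sg L n).aestronglyMeasurable
    (Eventually.of_forall fun w => (abs_Sg L w).le)

theorem hasSum_part {n : ℕ} {f : (Fin n → ℕ × Om) → ℝ} (hf : Integrable f (QQ n))
    {A : Set (Fin n → ℕ × Om)} (hA : MeasurableSet A) :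
    HasSum (fun ι => ∫ w in {w | idx w = ι} ∩ A, f w ∂QQ n) (∫ w in A, f w ∂QQ n) := by
  have : A = ⋃ ι, {w | idx w = ι} ∩ A := by ext w; simp
  conv => arg 2; rw [this]
  refine hasSum_integral_iUnion (fun ι => (measurableSet_idx (· = ι)).inter hA) ?_
    hf.integrableOn
  intro ι ι' h
  exact Set.disjoint_left.2 fun w hw hw' => h (hw.1.symm.trans hw'.1)

theorem bad_tuple {L : ℕ → ℕ} {η : ℕ → ℝ} (hη : ∀ n, 0 ≤ η n)
    (hL : ∀ k n, n ≤ k + 1 → 0 < n → (1 - 1 / (3 : ℝ) ^ n) ^ L k ≤ η n)
    {n : ℕ} {ι : Fin n → ℕ} (hι : ¬ Good ι) :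
    ∃ V ⊆ {w | idx w = ι}, MeasurableSet V ∧ (QQ n).real V ≤ η n ∧
      ∀ E, MeasurableSet E → E ⊆ Iio 1 →
        ∫ w in {w | idx w = ι} ∩ SS L ⁻¹' E, Sg L w ∂QQ n =
          ∫ w in V ∩ SS L ⁻¹' E, Sg L w ∂QQ n := by
  classical
  obtain ⟨l', hl'⟩ : ∃ l, ι l + 1 < n := by
    unfold Good at hι; push Not at hι; exact hι
  have hn : 0 < n := by omega
  by_cases hall : ∀ l, ι l + 2 ≤ n
  · refine ⟨∅, empty_subset _, MeasurableSet.empty, by simpa using hη n, fun E _ hE => ?_⟩
    have : {w | idx w = ι} ∩ SS L ⁻¹' E = ∅ := by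
      refine eq_empty_of_forall_notMem fun w hw => ?_
      have h1 : SS L w < 1 := hE hw.2
      have h2 := one_le_SS L (w := w) hn fun l => by
        have := congrFun hw.1 l
        simp only [idx] at this
        rw [this]; exact hall l
      linarith
    rw [this]; simp
  push Not at hall
  obtain ⟨l'', hl''⟩ := hall
  obtain ⟨l0, -, h0⟩ := Finset.exists_min_image Finset.univ ι ⟨l', Finset.mem_univ _⟩
  obtain ⟨l1, -, h1⟩ := Finset.exists_max_image Finset.univ ι ⟨l', Finset.mem_univ _⟩
  have a1 := h0 l' (Finset.mem_univ _)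
  have a2 := h1 l'' (Finset.mem_univ _)
  have hjk : ι l0 < ι l1 := by omega
  obtain ⟨U, hU1, hU2⟩ := Finset.exists_subset_card_eq (s := Finset.univ.erase l0) (n := ι l0 + 1)
    (by rw [Finset.card_erase_of_mem (Finset.mem_univ _)]; simp; omega)
  have hl0 : l0 ∉ U := fun h => Finset.notMem_erase l0 _ (hU1 h)
  have h01 : l0 ≠ l1 := by rintro rfl; omega
  let p : Fin n → ZMod 3 := fun l => if l = l0 then 2 else if l ∈ U then 1 else 0
  let q : Fin n → ZMod 3 := fun l => if l = l1 then 2 else 0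
  have hpq : p ≠ q := by
    intro h
    have := congrFun h l0
    simp only [p, q, if_true, h01, if_false] at this
    exact absurd this (by decide)
  obtain ⟨V, hV1, hV2, hV3, hV4⟩ := cancel (QQ n)
    (fun r w l => (w l).2 (blk (ι l1) (ι l0) r))
    (fun r g => by
      have : Measurable fun (w : Fin n → ℕ × Om) l => (w l).2 (blk (ι l1) (ι l0) r) := by
        fun_prop
      exact this (MeasurableSet.singleton g))
    (fun r t => tr (blk (ι l1) (ι l0) r) t) (fun r t => measurePreserving_tr _ _)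
    (fun r t w => by funext l; simp [tr])
    (fun r r' t w hr => by
      funext l
      have : blk (ι l1) (ι l0) r' ≠ blk (ι l1) (ι l0) r := fun h => hr (by
        simpa using congrArg rr h)
      simp [tr, this])
    {w | idx w = ι} (measurableSet_idx (· = ι)) (by rw [QQ_idx]; simp)
    (fun r t w => Iff.rfl) (SS L) (measurable_SS L n) (Sg L) (measurable_Sg L n)
    (fun w => (abs_Sg L w).le) p q hpq (L (ι l1))
    (fun r hr w hw hc => by
      have hw' : ∀ l, (w l).1 = ι l := fun l => congrFun hw l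
      exact swap L (β := blk (ι l1) (ι l0) r) (by simpa [Act] using ⟨hjk, hr⟩) w l0 l1 U
        (by simpa using hU2) hl0 (by simpa using hw' l0) (by simpa using hw' l1)
        (fun l => by simpa [hw' l] using h1 l (Finset.mem_univ _)) p q (fun _ => rfl)
        (fun _ => rfl) fun l => congrFun hc l)
  refine ⟨V, hV1, hV2, hV3.trans ?_, fun E hE _ => hV4 E hE⟩
  have := hL (ι l1) n (by omega) hn
  simpa [Measure.real, QQ_idx] using this

theorem bad_bound {L : ℕ → ℕ} {η : ℕ → ℝ} (hη : ∀ n, 0 ≤ η n)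
    (hL : ∀ k n, n ≤ k + 1 → 0 < n → (1 - 1 / (3 : ℝ) ^ n) ^ L k ≤ η n)
    {n : ℕ} {g : (Fin n → ℕ) → ℝ} (hg : Integrable (fun w => g (idx w)) (QQ n)) :
    (push (QQ n) (SS L) fun w =>
      {w | ¬ Good (idx w)}.indicator (fun w => g (idx w) * Sg L w) w).variation univ ≤
      ENNReal.ofReal (η n * ∫ w, |g (idx w)| ∂QQ n) := by
  classical
  choose! V hV1 hV2 hV3 hV4 using fun (ι : Fin n → ℕ) (hι : ¬ Good ι) => bad_tuple hη hL hι
  let Z : (Fin n → ℕ) → Set (Fin n → ℕ × Om) := fun ι => if Good ι then ∅ else V ι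
  have hZ1 : ∀ ι, Z ι ⊆ {w | idx w = ι} := by
    intro ι
    simp only [Z]
    split_ifs with h
    · exact empty_subset _
    · exact hV1 ι h
  have hZ2 : ∀ ι, MeasurableSet (Z ι) := by
    intro ι
    simp only [Z]
    split_ifs with h
    · exact MeasurableSet.empty
    · exact hV2 ι h
  have hZ3 : ∀ ι, (QQ n).real (Z ι) ≤ η n := by
    intro ι
    simp only [Z]
    split_ifs with h
    · simpa using hη n
    · exact hV3 ι h
  have hZm : MeasurableSet (⋃ ι, Z ι) := MeasurableSet.iUnion hZ2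
  have hZi : ∀ ι, {w | idx w = ι} ∩ ⋃ ι, Z ι = Z ι := by
    intro ι
    ext w
    constructor
    · rintro ⟨h1, h2⟩
      obtain ⟨ι', h3⟩ := mem_iUnion.1 h2
      have : ι' = ι := (hZ1 ι' h3).symm.trans h1
      exact this ▸ h3
    · exact fun h => ⟨hZ1 ι h, mem_iUnion.2 ⟨ι, h⟩⟩
  have hi := integrable_mul_Sg L hg
  have hbad := measurableSet_idx (n := n) fun ι => ¬ Good ι
  have heq : (push (QQ n) (SS L) fun w =>
      {w | ¬ Good (idx w)}.indicator (fun w => g (idx w) * Sg L w) w) =
      push (QQ n) (SS L) fun w => (⋃ ι, Z ι).indicator (fun w => g (idx w) * Sg L w) w := by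
    ext B hB
    have hE := measurable_SS L n (measurableSet_val hB)
    rw [push_apply (measurable_SS L n) (hi.indicator hbad) hB,
      push_apply (measurable_SS L n) (hi.indicator hZm) hB, setIntegral_indicator hbad,
      setIntegral_indicator hZm]
    congr 1
    refine (hasSum_part hi (hE.inter hbad)).unique ((hasSum_part hi (hE.inter hZm)).congr_fun ?_)
    intro ι
    have e1 : {w | idx w = ι} ∩ (SS L ⁻¹' (Subtype.val '' B) ∩ ⋃ ι, Z ι) =
        Z ι ∩ SS L ⁻¹' (Subtype.val '' B) := by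
      rw [← hZi ι]; ext w; simp only [mem_inter_iff]; tauto
    rw [e1]
    by_cases hι : Good ι
    · have e2 : {w | idx w = ι} ∩ (SS L ⁻¹' (Subtype.val '' B) ∩ {w | ¬ Good (idx w)}) = ∅ := by
        refine eq_empty_of_forall_notMem fun w hw => hw.2.2 ?_
        have : idx w = ι := hw.1
        rw [this]; exact hι
      rw [e2]
      simp [Z, hι]
    · have e2 : {w | idx w = ι} ∩ (SS L ⁻¹' (Subtype.val '' B) ∩ {w | ¬ Good (idx w)}) =
          {w | idx w = ι} ∩ SS L ⁻¹' (Subtype.val '' B) := by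
        ext w
        simp only [mem_inter_iff, mem_setOf_eq]
        constructor
        · exact fun h => ⟨h.1, h.2.1⟩
        · exact fun h => ⟨h.1, h.2, h.1 ▸ hι⟩
      have e3 : ∀ A ⊆ {w | idx w = ι}, MeasurableSet A →
          ∫ w in A, g (idx w) * Sg L w ∂QQ n = g ι * ∫ w in A, Sg L w ∂QQ n := by
        intro A hA hAm
        rw [← integral_const_mul]
        exact setIntegral_congr_fun hAm fun w hw => by
          have : idx w = ι := hA hw
          simp only [this]
      rw [e2, e3 _ inter_subset_left ((measurableSet_idx (· = ι)).inter hE),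
        e3 _ (inter_subset_left.trans (hZ1 ι)) ((hZ2 ι).inter hE),
        hV4 ι hι _ (measurableSet_val hB) fun x hx => (mem_val_iff.1 hx).1.2]
      simp [Z, hι]
  rw [heq]
  refine (push_variation_le (measurable_SS L n) (hi.indicator hZm)).trans
    (ENNReal.ofReal_le_ofReal ?_)
  have e1 : ∫ w, |(⋃ ι, Z ι).indicator (fun w => g (idx w) * Sg L w) w| ∂QQ n =
      ∫ w in ⋃ ι, Z ι, |g (idx w)| ∂QQ n := by
    rw [← integral_indicator hZm]
    congr 1
    funext w
    by_cases hw : w ∈ ⋃ ι, Z ι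
    · rw [indicator_of_mem hw, indicator_of_mem hw, abs_mul, abs_Sg, mul_one]
    · rw [indicator_of_notMem hw, indicator_of_notMem hw, abs_zero]
  rw [e1]
  have s1 := hasSum_part hg.abs hZm
  have s2 := (hasSum_part hg.abs MeasurableSet.univ).mul_left (η n)
  rw [Measure.restrict_univ] at s2
  refine hasSum_le (fun ι => ?_) s1 s2
  have e3 : ∀ A ⊆ {w | idx w = ι}, MeasurableSet A →
      ∫ w in A, |g (idx w)| ∂QQ n = (QQ n).real A * |g ι| := by
    intro A hA hAm
    rw [← smul_eq_mul, ← setIntegral_const]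
    exact setIntegral_congr_fun hAm fun w hw => by
      have : idx w = ι := hA hw
      simp only [this]
  rw [hZi, inter_univ, e3 _ (hZ1 ι) (hZ2 ι), e3 _ subset_rfl (measurableSet_idx (· = ι)),
    Measure.real, Measure.real, QQ_idx]
  simp only [ENNReal.toReal_one, one_mul]
  exact mul_le_mul_of_nonneg_right (hZ3 ι) (abs_nonneg _)

end Pool.Agent.P.MP_f562c3_an
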