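import Mathlib

/-!
Definitions for the problem on isometric embeddings of the weighted algebras l1(w) into M(0,1).
-/

open MeasureTheory Filter Topology

namespace Pool.Agent.P.MP_f562c3_an

/-- The half-open interval `[0,1)`, with its Borel sigma-algebra. -/
abbrev UI : Type := Set.Ico (0 : ℝ) 1

/-- The root sequence `w n ^ (1/n)`. -/
noncomputable def root (w : ℕ → ℝ) (n : ℕ) : ℝ := w n ^ (1 / (n : ℝ))

/-- Radical weight sequences. -/
def IsRadicalWeight (w : ℕ → ℝ) : Prop :=
  (∀ n, 0 < w n) ∧ w 0 = 1 ∧ (∀ m n, w (m + n) ≤ w m * w n) ∧ Tendsto (root w) atTop (𝓝 0)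

/-- Membership in l1(w). -/
def InL1 (w : ℕ → ℝ) (x : ℕ → ℂ) : Prop := Summable fun n => ‖x n‖ * w n

/-- The norm of l1(w). -/
noncomputable def normL1 (w : ℕ → ℝ) (x : ℕ → ℂ) : ℝ := ∑' n, ‖x n‖ * w n

/-- The convolution product of sequences. -/
def seqConv (x y : ℕ → ℂ) : ℕ → ℂ := fun n => ∑ j ∈ Finset.range (n + 1), x j * y (n - j)

/-- `ξ` is the convolution of `μ` and `ν` truncated to `[0,1)`: for every Borel set `B` in `[0,1)`,
`ξ B` is the product measure of the set of pairs `(s, t)` with `s + t ∈ B`. -/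
def IsConv (μ ν ξ : ComplexMeasure UI) : Prop :=
  ∀ B : Set UI, MeasurableSet B →
    ξ B = μ.prod ν (ContinuousLinearMap.mul ℝ ℂ)
      {p : UI × UI | (p.1 : ℝ) + (p.2 : ℝ) ∈ Subtype.val '' B}

/-- There is an isometric algebra homomorphism from l1(w) into M(0,1): a map `T`, linear and
multiplicative on l1(w), such that the total variation of `T x` is the norm of `x`. -/
def Embeds (w : ℕ → ℝ) : Prop :=
  ∃ T : (ℕ → ℂ) → ComplexMeasure UI,
    (∀ x y, InL1 w x → InL1 w y → T (x + y) = T x + T y) ∧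
    (∀ (c : ℂ) x, InL1 w x → T (c • x) = c • T x) ∧
    (∀ x y, InL1 w x → InL1 w y → IsConv (T x) (T y) (T (seqConv x y))) ∧
    (∀ x, InL1 w x → (T x).variation Set.univ = ENNReal.ofReal (normL1 w x))

end Pool.Agent.P.MP_f562c3_an
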