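import Mathlib

open Filter Topology Set

namespace Pool.Agent.P.MP_f562c3_an

/-- The denominators of the mixed radix expansion. -/
def BB : ℕ → ℕ
  | 0 => 2
  | m + 1 => 4 * (m + 2) ^ 2 * BB m

theorem BB_pos (m : ℕ) : 0 < BB m := by
  induction m with
  | zero => simp [BB]
  | succ m ih => simp only [BB]; positivity

theorem BB_posR (m : ℕ) : (0 : ℝ) < BB m := by exact_mod_cast BB_pos m

theorem BB_succ (m : ℕ) : (BB (m + 1) : ℝ) = 4 * ((m : ℝ) + 2) ^ 2 * BB m := by
  simp [BB]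

theorem BB_dvd {m M : ℕ} (h : m ≤ M) : BB m ∣ BB M := by
  induction M, h using Nat.le_induction with
  | base => exact dvd_rfl
  | succ M _ ih => exact ih.mul_left _

theorem dvd_BB {i M : ℕ} (h : i + 1 ≤ M) : i + 2 ∣ BB M := by
  refine dvd_trans ?_ (BB_dvd h)
  exact ⟨4 * (i + 2) * BB i, by simp only [BB]; ring⟩

theorem le_BB (m : ℕ) : ((m : ℝ) + 1) * (m + 2) ≤ BB m := by
  cases m with
  | zero => simp [BB]
  | succ m =>
    rw [BB_succ]
    have : (1 : ℝ) ≤ BB m := by exact_mod_cast BB_pos m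
    have h0 : (0 : ℝ) ≤ m := Nat.cast_nonneg m
    push_cast
    nlinarith [mul_le_mul_of_nonneg_left this (by positivity : (0 : ℝ) ≤ 4 * ((m : ℝ) + 2) ^ 2)]

theorem two_pow_le_BB (M m : ℕ) : (2 : ℝ) ^ m * BB M ≤ BB (m + M) := by
  induction m with
  | zero => simp
  | succ m ih =>
    rw [show m + 1 + M = (m + M) + 1 by ring, BB_succ, pow_succ]
    have h0 : (0 : ℝ) ≤ ((m + M : ℕ) : ℝ) := Nat.cast_nonneg _
    have h1 := BB_posR (m + M)
    nlinarith [mul_nonneg (mul_nonneg h0 h0) h1.le, mul_nonneg h0 h1.le]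

theorem term_le {e : ℕ → ℝ} (he : ∀ m, |e m| ≤ ((m : ℝ) + 2) ^ 2) (M m : ℕ) :
    ‖e (m + M) / BB (m + M + 1)‖ ≤ 1 / (2 * BB M) / 2 / 2 ^ m := by
  have h1 := he (m + M)
  have h2 := two_pow_le_BB M m
  have h3 := BB_posR M
  have h4 := BB_posR (m + M)
  rw [Real.norm_eq_abs, abs_div, abs_of_pos (BB_posR _), BB_succ]
  calc |e (m + M)| / (4 * (((m + M : ℕ) : ℝ) + 2) ^ 2 * BB (m + M))
      ≤ (((m + M : ℕ) : ℝ) + 2) ^ 2 / (4 * (((m + M : ℕ) : ℝ) + 2) ^ 2 * BB (m + M)) := by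
        gcongr
    _ = 1 / (4 * (BB (m + M) : ℝ)) := by field_simp
    _ ≤ 1 / (4 * (2 ^ m * (BB M : ℝ))) := by gcongr
    _ = _ := by field_simp; ring

theorem summable_tail {e : ℕ → ℝ} (he : ∀ m, |e m| ≤ ((m : ℝ) + 2) ^ 2) (M : ℕ) :
    Summable fun m => e (m + M) / BB (m + M + 1) :=
  Summable.of_norm_bounded (hasSum_geometric_two' _).summable (term_le he M)

theorem summable_all {e : ℕ → ℝ} (he : ∀ m, |e m| ≤ ((m : ℝ) + 2) ^ 2) :
    Summable fun m => e m / BB (m + 1) := by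
  simpa using summable_tail he 0

theorem abs_tail_le {e : ℕ → ℝ} (he : ∀ m, |e m| ≤ ((m : ℝ) + 2) ^ 2) (M : ℕ) :
    |∑' m, e (m + M) / BB (m + M + 1)| ≤ 1 / (2 * BB M) :=
  tsum_of_norm_bounded (hasSum_geometric_two' _) (term_le he M)

theorem decode (e : ℕ → ℤ) (he : ∀ m, |(e m : ℝ)| ≤ ((m : ℝ) + 2) ^ 2) (M0 : ℕ) (z : ℤ)
    (h : (∑' m, (e m : ℝ) / BB (m + 1)) * BB M0 = z) : ∀ m, M0 ≤ m → e m = 0 := by
  let T : ℕ → ℝ := fun M => ∑' m, (e (m + M) : ℝ) / BB (m + M + 1)
  have hT : ∀ M (y : ℤ), T M * BB M = y → T M = 0 := by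
    intro M y hy
    have h1 : |T M| ≤ 1 / (2 * BB M) := abs_tail_le (e := fun m => (e m : ℝ)) he M
    have h2 := BB_posR M
    have h3 : |(y : ℝ)| < 1 := by
      rw [← hy, abs_mul, abs_of_pos h2]
      calc |T M| * BB M ≤ 1 / (2 * BB M) * BB M := by gcongr
        _ = 1 / 2 := by field_simp
        _ < 1 := by norm_num
    have h4 : y = 0 := by
      have : |y| < 1 := by exact_mod_cast h3
      exact Int.abs_lt_one_iff.1 this
    rw [h4] at hy
    simpa [h2.ne'] using hy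
  have hbase : T M0 = 0 := by
    have h1 := (summable_all (e := fun m => (e m : ℝ)) he).sum_add_tsum_nat_add M0
    refine hT M0 (z - ∑ m ∈ Finset.range M0, e m * (BB M0 / BB (m + 1) : ℕ)) ?_
    have h2 : ∀ m ∈ Finset.range M0, (e m : ℝ) / BB (m + 1) * BB M0 =
        e m * ((BB M0 / BB (m + 1) : ℕ) : ℝ) := by
      intro m hm
      rw [Nat.cast_div (BB_dvd (Finset.mem_range.1 hm)) (BB_posR _).ne']
      ring
    rw [Int.cast_sub, Int.cast_sum]
    simp only [Int.cast_mul, Int.cast_natCast]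
    rw [← h, ← h1, add_mul, Finset.sum_mul, Finset.sum_congr rfl h2]
    simp only [T]
    ring
  have hstep : ∀ M, T M = 0 → e M = 0 ∧ T (M + 1) = 0 := by
    intro M hM
    have h1 := (summable_tail (e := fun m => (e m : ℝ)) he M).tsum_eq_zero_add
    have h2 : T M = e M / BB (M + 1) + T (M + 1) := by
      simp only [T]
      rw [h1]
      simp only [zero_add]
      congr 1
      refine tsum_congr fun m => ?_
      rw [show m + 1 + M = m + (M + 1) by ring]
    have h3 := BB_posR (M + 1)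
    have h4 : T (M + 1) = 0 := by
      refine hT (M + 1) (-e M) ?_
      have : T (M + 1) = -(e M / BB (M + 1)) := by linarith
      rw [this]
      push_cast
      field_simp
    refine ⟨?_, h4⟩
    rw [hM, h4, add_zero] at h2
    have : (e M : ℝ) = 0 := by
      rcases div_eq_zero_iff.1 h2.symm with h | h
      · exact h
      · exact absurd h h3.ne'
    exact_mod_cast this
  have hall : ∀ M, M0 ≤ M → T M = 0 := by
    intro M hM
    induction M, hM using Nat.le_induction with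
    | base => exact hbase
    | succ M _ ih => exact (hstep M ih).2
  exact fun m hm => (hstep m (hall m hm)).1

/-- Coding of blocks. -/
def kk (β : ℕ) : ℕ := (Nat.unpair β).1
/-- Coding of blocks. -/
def jj (β : ℕ) : ℕ := (Nat.unpair (Nat.unpair β).2).1
/-- Coding of blocks. -/
def rr (β : ℕ) : ℕ := (Nat.unpair (Nat.unpair β).2).2
/-- Coding of blocks. -/
def blk (k j r : ℕ) : ℕ := Nat.pair k (Nat.pair j r)

@[simp] theorem kk_blk (k j r : ℕ) : kk (blk k j r) = k := by simp [kk, blk]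
@[simp] theorem jj_blk (k j r : ℕ) : jj (blk k j r) = j := by simp [jj, blk]
@[simp] theorem rr_blk (k j r : ℕ) : rr (blk k j r) = r := by simp [rr, blk]
theorem blk_self (β : ℕ) : blk (kk β) (jj β) (rr β) = β := by simp [kk, jj, rr, blk]
theorem kk_le (β : ℕ) : kk β ≤ β := Nat.unpair_left_le β

/-- Active blocks. -/
def Act (L : ℕ → ℕ) (β : ℕ) : Prop := jj β < kk β ∧ rr β < L (kk β)

instance (L : ℕ → ℕ) (β : ℕ) : Decidable (Act L β) := by unfold Act; infer_instance

/-- The space of random symbols. -/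
abbrev Om : Type := ℕ → ZMod 3

/-- The digit of component `i` in slot `t` of block `β` when the symbol is `c`. -/
def dg (L : ℕ → ℕ) (i β t : ℕ) (c : ZMod 3) : ℕ :=
  if t = 0 then (if i = kk β then 1 else 0)
  else if t = 1 then
    (if Act L β ∧ i ≤ kk β then
      (if c = 1 then 1 else if c = 2 ∧ i = kk β then jj β + 1 else 0) else 0)
  else (if Act L β ∧ c = 2 ∧ (i = jj β ∨ i = kk β) then 1 else 0)

theorem dg_le (L : ℕ → ℕ) (i β t : ℕ) (c : ZMod 3) :
    dg L i β t c ≤ if i ≤ kk β then kk β + 1 else 0 := by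
  unfold dg Act
  split_ifs <;> omega

/-- The digit at position `m`. -/
def dig (L : ℕ → ℕ) (v : ℕ × Om) (m : ℕ) : ℕ := dg L v.1 (m / 3) (m % 3) (v.2 (m / 3))

theorem dig_le (L : ℕ → ℕ) (v : ℕ × Om) (m : ℕ) : dig L v m ≤ if v.1 ≤ m then m + 1 else 0 := by
  have h1 := dg_le L v.1 (m / 3) (m % 3) (v.2 (m / 3))
  have h2 := kk_le (m / 3)
  unfold dig
  split_ifs at h1 ⊢ <;> omega

theorem abs_dig_le (L : ℕ → ℕ) (v : ℕ × Om) (m : ℕ) :
    |(dig L v m : ℝ)| ≤ ((m : ℝ) + 2) ^ 2 := by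
  have h1 : dig L v m ≤ m + 1 := by
    have := dig_le L v m
    split_ifs at this <;> omega
  have h2 : (dig L v m : ℝ) ≤ m + 1 := by exact_mod_cast h1
  have h0 : (0 : ℝ) ≤ m := Nat.cast_nonneg m
  rw [abs_of_nonneg (Nat.cast_nonneg _)]
  nlinarith

/-- The position of a draw. -/
noncomputable def pos (L : ℕ → ℕ) (v : ℕ × Om) : ℝ :=
  1 / ((v.1 : ℝ) + 2) + ∑' m, (dig L v m : ℝ) / BB (m + 1)

theorem le_pos (L : ℕ → ℕ) (v : ℕ × Om) : 1 / ((v.1 : ℝ) + 2) ≤ pos L v :=
  le_add_of_nonneg_right (tsum_nonneg fun _ => by positivity)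

theorem pos_pos (L : ℕ → ℕ) (v : ℕ × Om) : 0 < pos L v :=
  lt_of_lt_of_le (by positivity) (le_pos L v)

theorem pos_lt (L : ℕ → ℕ) (v : ℕ × Om) : pos L v < 1 / ((v.1 : ℝ) + 1) := by
  have h1 := (summable_all (abs_dig_le L v)).sum_add_tsum_nat_add v.1
  have h2 : ∑ m ∈ Finset.range v.1, (dig L v m : ℝ) / BB (m + 1) = 0 := by
    refine Finset.sum_eq_zero fun m hm => ?_
    have := dig_le L v m
    rw [if_neg (not_le.2 (Finset.mem_range.1 hm))] at this
    simp [Nat.le_zero.1 this]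
  have h3 := (le_abs_self _).trans (abs_tail_le (abs_dig_le L v) v.1)
  have h4 := le_BB v.1
  have h0 : (0 : ℝ) ≤ v.1 := Nat.cast_nonneg _
  have h5 : 1 / (2 * (BB v.1 : ℝ)) < 1 / (((v.1 : ℝ) + 1) * (v.1 + 2)) := by
    apply one_div_lt_one_div_of_lt (by positivity)
    nlinarith [BB_posR v.1]
  have h6 : 1 / (((v.1 : ℝ) + 1) * (v.1 + 2)) = 1 / ((v.1 : ℝ) + 1) - 1 / ((v.1 : ℝ) + 2) := by
    field_simp; ring
  unfold pos
  rw [← h1, h2]
  linarith

theorem continuous_pos (L : ℕ → ℕ) : Continuous (pos L) := by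
  unfold pos
  refine Continuous.add ?_ ?_
  · exact (continuous_of_discreteTopology (f := fun i : ℕ => 1 / ((i : ℝ) + 2))).comp
      continuous_fst
  · refine continuous_tsum (fun m => ?_) (hasSum_geometric_two' (1 / (2 * (BB 0 : ℝ)))).summable
      (fun m v => by simpa using term_le (abs_dig_le L v) 0 m)
    exact (continuous_of_discreteTopology
      (f := fun x : ℕ × ZMod 3 => (dg L x.1 (m / 3) (m % 3) x.2 : ℝ) / BB (m + 1))).comp
      (continuous_fst.prodMk ((continuous_apply (m / 3)).comp continuous_snd))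

/-- The sign attached to a symbol. -/
def sg (c : ZMod 3) : ℝ := if c = 2 then -1 else 1

/-- The blocks where component `i` carries signs. -/
def blocks (L : ℕ → ℕ) (i : ℕ) : Finset ℕ :=
  (Finset.range i ×ˢ Finset.range (L i)).image fun p => blk i p.1 p.2

theorem mem_blocks {L : ℕ → ℕ} {i β : ℕ} : β ∈ blocks L i ↔ Act L β ∧ i = kk β := by
  simp only [blocks, Finset.mem_image, Finset.mem_product, Finset.mem_range, Act]
  constructor
  · rintro ⟨p, hp, rfl⟩
    simpa using hp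
  · rintro ⟨h, rfl⟩
    exact ⟨(jj β, rr β), h, blk_self β⟩

/-- The sign of a draw. -/
def sgn (L : ℕ → ℕ) (v : ℕ × Om) : ℝ := ∏ β ∈ blocks L v.1, sg (v.2 β)

theorem sgn_eq (L : ℕ → ℕ) (v : ℕ × Om) : sgn L v = 1 ∨ sgn L v = -1 := by
  unfold sgn
  induction blocks L v.1 using Finset.induction_on with
  | empty => simp
  | insert a s ha ih =>
    rw [Finset.prod_insert ha]
    unfold sg at *
    split_ifs <;> rcases ih with h | h <;> simp [h]

theorem continuous_sgn (L : ℕ → ℕ) : Continuous (sgn L) := by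
  refine continuous_prod_of_discrete_left.2 fun i => ?_
  simp only [sgn]
  exact continuous_finset_prod _ fun β _ =>
    (continuous_of_discreteTopology (f := sg)).comp (continuous_apply β)

end Pool.Agent.P.MP_f562c3_an
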