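import Mathlib

/-! An abstract inequality for families of decreasing functions and iterated limits. -/

open Filter Topology Set

namespace Pool.Agent.P.MP_f562c3_an.Fac

theorem quad {D : ℝ → ℝ} {C : ℝ} (h : ∀ x y, x ≤ y → D x - D y ≤ C * (y - x) ^ 2) {x y : ℝ}
    (hxy : x ≤ y) : D x ≤ D y := by
  have key : ∀ M : ℕ, D x - D y ≤ C * (y - x) ^ 2 * (1 / ((M : ℝ) + 1)) := by
    intro M
    have hM : (0 : ℝ) < M + 1 := by positivity
    set d := (y - x) / (M + 1) with hd
    have hd0 : 0 ≤ d := div_nonneg (sub_nonneg.2 hxy) hM.le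
    have h1 : ∀ j : ℕ, D x - D (x + j * d) ≤ j * (C * d ^ 2) := by
      intro j
      induction j with
      | zero => simp
      | succ j ih =>
        have := h (x + j * d) (x + (j + 1 : ℕ) * d) (by push_cast; linarith)
        have e : x + (j + 1 : ℕ) * d - (x + j * d) = d := by push_cast; ring
        rw [e] at this
        push_cast at this ⊢
        linarith
    have h2 := h1 (M + 1)
    have e : x + (M + 1 : ℕ) * d = y := by
      push_cast
      rw [hd]
      field_simp
      ring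
    rw [e] at h2
    refine h2.trans (le_of_eq ?_)
    push_cast
    rw [hd]
    field_simp
  have := ge_of_tendsto' ((tendsto_one_div_add_atTop_nhds_zero_nat (𝕜 := ℝ)).const_mul
    (C * (y - x) ^ 2)) key
  linarith

theorem prod_sub_le {ι : Type*} (I : Finset ι) {x y : ι → ℝ} {h : ℝ} (hy : ∀ i, 0 ≤ y i)
    (hxy : ∀ i, y i ≤ x i) (hx : ∀ i, x i ≤ 1) (hh : ∀ i, x i - y i ≤ h) :
    ∏ i ∈ I, x i - ∏ i ∈ I, y i ≤ I.card * h := by
  classical
  induction I using Finset.induction_on with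
  | empty => simp
  | insert a I ha ih =>
    rw [Finset.prod_insert ha, Finset.prod_insert ha, Finset.card_insert_of_notMem ha]
    have h1 : ∏ i ∈ I, x i ≤ 1 :=
      Finset.prod_le_one (fun i _ => (hy i).trans (hxy i)) fun i _ => hx i
    have h2 : ∏ i ∈ I, y i ≤ ∏ i ∈ I, x i :=
      Finset.prod_le_prod (fun i _ => hy i) fun i _ => hxy i
    have h3 : (x a - y a) * ∏ i ∈ I, x i ≤ h :=
      (mul_le_of_le_one_right (sub_nonneg.2 (hxy a)) h1).trans (hh a)
    have h4 : y a * (∏ i ∈ I, x i - ∏ i ∈ I, y i) ≤ I.card * h :=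
      (mul_le_of_le_one_left (sub_nonneg.2 h2) ((hxy a).trans (hx a))).trans ih
    push_cast
    nlinarith

theorem sum_prod_le {ι : Type*} [DecidableEq ι] (I : Finset ι) {x y : ι → ℝ} {h : ℝ}
    (hy : ∀ i, 0 ≤ y i) (hxy : ∀ i, y i ≤ x i) (hx : ∀ i, x i ≤ 1) (hh : ∀ i, x i - y i ≤ h)
    (h0 : 0 ≤ h) : ∑ i ∈ I, (∏ l ∈ I.erase i, x l) * (x i - y i) ≤
      ∏ i ∈ I, x i - ∏ i ∈ I, y i + (I.card : ℝ) ^ 2 * h ^ 2 := by
  induction I using Finset.induction_on with
  | empty => simp
  | insert a I ha ih =>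
    rw [Finset.sum_insert ha, Finset.erase_insert ha, Finset.prod_insert ha,
      Finset.prod_insert ha, Finset.card_insert_of_notMem ha]
    have e : ∑ i ∈ I, (∏ l ∈ (insert a I).erase i, x l) * (x i - y i) =
        x a * ∑ i ∈ I, (∏ l ∈ I.erase i, x l) * (x i - y i) := by
      rw [Finset.mul_sum]
      refine Finset.sum_congr rfl fun i hi => ?_
      rw [Finset.erase_insert_of_ne (ne_of_mem_of_not_mem hi ha).symm,
        Finset.prod_insert fun h => ha (Finset.mem_of_mem_erase h), mul_assoc]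
    have h1 := prod_sub_le I hy hxy hx hh
    have h2 : ∏ i ∈ I, y i ≤ ∏ i ∈ I, x i :=
      Finset.prod_le_prod (fun i _ => hy i) fun i _ => hxy i
    have h3 := mul_le_mul_of_nonneg_left ih ((hy a).trans (hxy a))
    have h4 : (x a - y a) * (∏ i ∈ I, x i - ∏ i ∈ I, y i) ≤ h * (I.card * h) :=
      mul_le_mul (hh a) h1 (sub_nonneg.2 h2) h0
    have h5 : x a * ((I.card : ℝ) ^ 2 * h ^ 2) ≤ (I.card : ℝ) ^ 2 * h ^ 2 :=
      mul_le_of_le_one_left (by positivity) (hx a)
    have h6 : (0 : ℝ) ≤ I.card * h ^ 2 := by positivity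
    have h7 : (0 : ℝ) ≤ h ^ 2 := by positivity
    rw [e]
    push_cast
    nlinarith

/-- The limit of a real function along an ultrafilter. -/
noncomputable def ul {X : Type*} (V : Ultrafilter X) (f : X → ℝ) : ℝ := limUnder (V : Filter X) f

theorem ul_spec {X : Type*} (V : Ultrafilter X) {f : X → ℝ} (h : ∀ x, f x ∈ Icc (0 : ℝ) 1) :
    Tendsto f V (𝓝 (ul V f)) ∧ ul V f ∈ Icc (0 : ℝ) 1 := by
  obtain ⟨c, hc, hl⟩ := (isCompact_Icc (a := (0 : ℝ)) (b := 1)).ultrafilter_le_nhds (V.map f)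
    (by rw [le_principal_iff]; exact mem_map.2 (Eventually.of_forall h))
  have ht : Tendsto f V (𝓝 c) := hl
  rw [ul, ht.limUnder_eq]
  exact ⟨ht, hc⟩

theorem tendsto_bind {X Y : Type} (V : Ultrafilter X) (F : X → Ultrafilter Y) {f : Y → ℝ}
    {g : X → ℝ} {c : ℝ} (hg : Tendsto g V (𝓝 c)) (hf : ∀ x, Tendsto f (F x) (𝓝 (g x))) :
    Tendsto f (V.bind F : Ultrafilter Y) (𝓝 c) := by
  rw [tendsto_nhds] at hg ⊢
  intro s hs hc
  have h1 : ∀ᶠ x in (V : Filter X), f ⁻¹' s ∈ (F x : Filter Y) := by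
    filter_upwards [hg s hs hc] with x hx
    exact tendsto_nhds.1 (hf x) s hs hx
  exact Filter.mem_bind'.2 h1

/-- The properties of the damped norms of the powers that are used. -/
structure Sys (a : ℕ → ℝ → ℝ) (w : ℕ → ℝ) : Prop where
  pos : ∀ n, 0 < w n
  zero : ∀ n, a n 0 = w n
  nonneg : ∀ n x, 0 ≤ a n x
  le : ∀ n x, a n x ≤ w n
  anti : ∀ n x y, x ≤ y → a n y ≤ a n x
  lip : ∀ n x y, x ≤ y → a n x - a n y ≤ (y - x) * w n
  sub : ∀ m n x, a (m + n) x ≤ a m x * a n x
  step : ∀ m n x y, 1 ≤ m → 1 ≤ n → x ≤ y →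
    n * (a (m + n) x - a (m + n) y) ≤ (m + n) * (a m x * (a n x - a n y))
  dec : ∀ m, 1 ≤ m → Tendsto (a m) atTop (𝓝 0)

namespace Sys

variable {a : ℕ → ℝ → ℝ} {w : ℕ → ℝ} (S : Sys a w) {ι : Type} [DecidableEq ι]
include S

theorem w_sub (m n : ℕ) : w (m + n) ≤ w m * w n := by
  simpa only [S.zero] using S.sub m n 0

omit [DecidableEq ι] in
theorem w_sum (n : ι → ℕ) {I : Finset ι} (hI : I.Nonempty) :
    w (∑ i ∈ I, n i) ≤ ∏ i ∈ I, w (n i) := by
  induction hI using Finset.Nonempty.cons_induction with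
  | singleton i => simp
  | cons i I hi _ ih =>
    rw [Finset.sum_cons, Finset.prod_cons]
    exact (S.w_sub _ _).trans (mul_le_mul_of_nonneg_left ih (S.pos _).le)

end Sys

/-- The normalised damped norm of a product. -/
noncomputable def nb {ι : Type} (a : ℕ → ℝ → ℝ) (w : ℕ → ℝ) (I : Finset ι) (x : ℝ) (n : ι → ℕ) :
    ℝ := a (∑ i ∈ I, n i) x / ∏ i ∈ I, w (n i)

/-- The limit profile along an ultrafilter. -/
noncomputable def ps (a : ℕ → ℝ → ℝ) (w : ℕ → ℝ) (U : Ultrafilter ℕ) (x : ℝ) : ℝ :=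
  ul U fun m => a m x / w m

namespace Sys

variable {a : ℕ → ℝ → ℝ} {w : ℕ → ℝ} (S : Sys a w) {ι : Type} [DecidableEq ι]
include S

theorem div_mem (m : ℕ) (x : ℝ) : a m x / w m ∈ Icc (0 : ℝ) 1 :=
  ⟨div_nonneg (S.nonneg _ _) (S.pos _).le, (div_le_one (S.pos _)).2 (S.le _ _)⟩

omit [DecidableEq ι] in
theorem nb_mem {I : Finset ι} (hI : I.Nonempty) (x : ℝ) (n : ι → ℕ) :
    nb a w I x n ∈ Icc (0 : ℝ) 1 := by
  have h : 0 < ∏ i ∈ I, w (n i) := Finset.prod_pos fun i _ => S.pos _
  exact ⟨div_nonneg (S.nonneg _ _) h.le, (div_le_one h).2 ((S.le _ _).trans (S.w_sum n hI))⟩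

theorem ps_tendsto (U : Ultrafilter ℕ) (x : ℝ) :
    Tendsto (fun m => a m x / w m) U (𝓝 (ps a w U x)) := (ul_spec U fun m => S.div_mem m x).1

theorem ps_mem (U : Ultrafilter ℕ) (x : ℝ) : ps a w U x ∈ Icc (0 : ℝ) 1 :=
  (ul_spec U fun m => S.div_mem m x).2

theorem ps_anti (U : Ultrafilter ℕ) : Antitone (ps a w U) := fun x y h =>
  le_of_tendsto_of_tendsto' (S.ps_tendsto U y) (S.ps_tendsto U x) fun m =>
    div_le_div_of_nonneg_right (S.anti m x y h) (S.pos m).le

theorem ps_lip (U : Ultrafilter ℕ) {x y : ℝ} (h : x ≤ y) : ps a w U x - ps a w U y ≤ y - x :=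
  le_of_tendsto' ((S.ps_tendsto U x).sub (S.ps_tendsto U y)) fun m => by
    rw [← sub_div, div_le_iff₀ (S.pos m)]
    exact S.lip m x y h

theorem ext_spec {I : Finset ι} (hI : I.Nonempty) {i : ι} (hi : i ∉ I) {U : Ultrafilter ℕ}
    (hU : (U : Filter ℕ) ≤ atTop) {V : Ultrafilter (ι → ℕ)}
    (hV : ∀ᶠ n in (V : Filter (ι → ℕ)), ∀ l ∈ I, 1 ≤ n l) {W : Ultrafilter (ι → ℕ)}
    (hW : W = V.bind fun n => U.map (Function.update n i)) :
    (∀ x y, x ≤ y → ul W (nb a w (insert i I) x) - ul W (nb a w (insert i I) y) ≤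
      ul V (nb a w I x) * (ps a w U x - ps a w U y)) ∧
    ∀ x, ul W (nb a w (insert i I) x) ≤ ps a w U x - ⨅ y, ps a w U y := by
  have hI' : (insert i I).Nonempty := Finset.insert_nonempty _ _
  have e : ∀ x n m, nb a w (insert i I) x (Function.update n i m) =
      a (∑ l ∈ I, n l + m) x / ((∏ l ∈ I, w (n l)) * w m) := fun x n m => by
    have h1 : ∀ l ∈ I, Function.update n i m l = n l := fun l hl =>
      Function.update_of_ne (ne_of_mem_of_not_mem hl hi) _ _
    rw [nb, Finset.sum_insert hi, Finset.prod_insert hi, Function.update_self,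
      Finset.sum_congr rfl h1, Finset.prod_congr rfl fun l hl => congrArg w (h1 l hl), add_comm,
      mul_comm]
  set γ : ℝ → (ι → ℕ) → ℝ := fun x n =>
    ul U fun m => nb a w (insert i I) x (Function.update n i m) with hγ
  have g1 := fun x n => ul_spec U (f := fun m => nb a w (insert i I) x (Function.update n i m))
    fun m => S.nb_mem hI' x _
  have g2 := fun x => ul_spec V (f := γ x) fun n => (g1 x n).2
  have g3 : ∀ x, ul W (nb a w (insert i I) x) = ul V (γ x) := fun x =>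
    tendsto_nhds_unique (ul_spec W (S.nb_mem hI' x)).1
      (hW ▸ tendsto_bind V _ (g2 x).1 fun n => (g1 x n).1)
  have hN : ∀ᶠ n in (V : Filter (ι → ℕ)), 1 ≤ ∑ l ∈ I, n l := by
    filter_upwards [hV] with n hn
    obtain ⟨l, hl⟩ := hI
    exact (hn l hl).trans (Finset.single_le_sum (f := n) (fun _ _ => Nat.zero_le _) hl)
  have k1 : ∀ n : ι → ℕ, 1 ≤ ∑ l ∈ I, n l → ∀ x y, x ≤ y →
      γ x n - γ y n ≤ nb a w I x n * (ps a w U x - ps a w U y) := by
    intro n hn x y hxy
    have hP : 0 < ∏ l ∈ I, w (n l) := Finset.prod_pos fun l _ => S.pos _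
    have t1 : Tendsto (fun m : ℕ => ((∑ l ∈ I, n l : ℕ) : ℝ) / m + 1) U (𝓝 (0 + 1)) :=
      ((tendsto_const_div_atTop_nhds_zero_nat _).mono_left hU).add_const 1
    have t2 := t1.mul (((S.ps_tendsto U x).sub (S.ps_tendsto U y)).const_mul (nb a w I x n))
    rw [zero_add, one_mul] at t2
    refine le_of_tendsto_of_tendsto ((g1 x n).1.sub (g1 y n).1) t2 ?_
    filter_upwards [hU (eventually_ge_atTop 1)] with m hm
    have hm' : (0 : ℝ) < m := Nat.cast_pos.2 hm
    have hw := S.pos m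
    have := S.step _ m x y hn hm hxy
    rw [e, e, ← sub_div, div_le_iff₀ (mul_pos hP hw), nb]
    refine le_of_mul_le_mul_left (this.trans (le_of_eq ?_)) hm'
    field_simp
  have k2 : ∀ n y, γ y n ≤ nb a w I y n := fun n y =>
    le_of_tendsto' (g1 y n).1 fun m => by
      have hP : 0 < ∏ l ∈ I, w (n l) := Finset.prod_pos fun l _ => S.pos _
      rw [e, nb, div_le_div_iff₀ (mul_pos hP (S.pos m)) hP, mul_comm _ (w m), ← mul_assoc]
      exact mul_le_mul_of_nonneg_right ((S.sub _ _ _).trans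
        (mul_le_mul_of_nonneg_left (S.le _ _) (S.nonneg _ _))) hP.le
  refine ⟨fun x y hxy => ?_, fun x => ?_⟩
  · rw [g3, g3]
    refine le_of_tendsto_of_tendsto ((g2 x).1.sub (g2 y).1)
      ((ul_spec V (S.nb_mem hI x)).1.mul_const _) ?_
    filter_upwards [hN] with n hn using k1 n hn x y hxy
  · rw [g3]
    refine le_of_tendsto (g2 x).1 ?_
    filter_upwards [hN] with n hn
    have t : Tendsto (fun y => ps a w U x - (⨅ y, ps a w U y) + nb a w I y n) atTop (𝓝 _) :=
      ((S.dec _ hn).div_const _).const_add _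
    rw [zero_div, add_zero] at t
    refine ge_of_tendsto t ?_
    filter_upwards [eventually_ge_atTop x] with y hy
    have h1 := k1 n hn x y hy
    have h2 := k2 n y
    have h3 : (⨅ y, ps a w U y) ≤ ps a w U y :=
      ciInf_le ⟨0, by rintro _ ⟨z, rfl⟩; exact (S.ps_mem U z).1⟩ y
    have h4 := mul_le_of_le_one_left (sub_nonneg.2 (S.ps_anti U hy)) (S.nb_mem hI x n).2
    linarith

theorem family {A : ι → Set ℕ} {U : ι → Ultrafilter ℕ} (hU : ∀ i, (U i : Filter ℕ) ≤ atTop)
    (hA : ∀ i, A i ∈ U i) (k : ℕ) : ∀ I : Finset ι, I.card = k + 1 →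
    ∃ M : Multiset (Ultrafilter (ι → ℕ)), M.card = (k + 1).factorial ∧
      (∀ V ∈ M, ∀ᶠ n in (V : Filter (ι → ℕ)), ∀ l ∈ I, n l ∈ A l ∧ 1 ≤ n l) ∧
      ∀ x, (M.map fun V => ul V (nb a w I x)).sum ≤ ∏ l ∈ I, ps a w (U l) x := by
  have hA' : ∀ i, ∀ᶠ m in (U i : Filter ℕ), m ∈ A i ∧ 1 ≤ m := fun i =>
    Eventually.and (hA i) (hU i (eventually_ge_atTop 1))
  induction k with
  | zero =>
    intro I hI
    obtain ⟨i, rfl⟩ := Finset.card_eq_one.1 hI
    refine ⟨{(U i).map fun m _ => m}, rfl, fun V hV => ?_, fun x => ?_⟩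
    · rw [Multiset.mem_singleton.1 hV]
      exact eventually_map.2 ((hA' i).mono fun m hm l hl => Finset.mem_singleton.1 hl ▸ hm)
    · rw [Multiset.map_singleton, Multiset.sum_singleton, Finset.prod_singleton]
      refine (tendsto_nhds_unique (ul_spec _ (S.nb_mem (Finset.singleton_nonempty i) x)).1
        ?_).le
      simpa only [Ultrafilter.coe_map, tendsto_map'_iff, Function.comp_def, nb,
        Finset.sum_singleton, Finset.prod_singleton] using S.ps_tendsto (U i) x
  | succ k ih =>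
    intro I hI
    have hc : ∀ i ∈ I, (I.erase i).card = k + 1 := fun i hi => by
      rw [Finset.card_erase_of_mem hi, hI]; rfl
    choose! M m1 m2 m3 using ih
    have hne : ∀ i ∈ I, (I.erase i).Nonempty := fun i hi =>
      Finset.card_pos.1 (by rw [hc i hi]; omega)
    set X : ι → Ultrafilter (ι → ℕ) → Ultrafilter (ι → ℕ) := fun i V =>
      V.bind fun n => (U i).map (Function.update n i) with hX
    have sp := fun i (hi : i ∈ I) V (hV : V ∈ M (I.erase i)) =>
      S.ext_spec (hne i hi) (Finset.notMem_erase i I) (hU i)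
        ((m2 _ (hc i hi) V hV).mono fun n hn l hl => (hn l hl).2) (W := X i V) rfl
    refine ⟨I.val.bind fun i => (M (I.erase i)).map (X i), ?_, fun W hW => ?_, fun x => ?_⟩
    · rw [Multiset.card_bind]
      change ∑ i ∈ I, ((M (I.erase i)).map (X i)).card = _
      rw [Finset.sum_congr rfl fun i hi => (Multiset.card_map _ _).trans (m1 _ (hc i hi)),
        Finset.sum_const, hI, smul_eq_mul, ← Nat.factorial_succ]
    · obtain ⟨i, hi, hW⟩ := Multiset.mem_bind.1 hW
      obtain ⟨V, hV, rfl⟩ := Multiset.mem_map.1 hW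
      refine Filter.mem_bind'.2 ?_
      filter_upwards [m2 _ (hc i hi) V hV] with n hn
      refine mem_map.2 ?_
      filter_upwards [hA' i] with m hm l hl
      by_cases e : l = i
      · subst e
        rwa [Function.update_self]
      · rw [Function.update_of_ne e]
        exact hn l (Finset.mem_erase.2 ⟨e, hl⟩)
    · set G : ℝ → ℝ := fun x =>
        ∑ i ∈ I, ((M (I.erase i)).map fun V => ul (X i V) (nb a w I x)).sum with hG
      have e : (((I.val.bind fun i => (M (I.erase i)).map (X i))).map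
          fun V => ul V (nb a w I x)).sum = G x := by
        rw [Multiset.map_bind, Multiset.sum_bind]
        simp only [Multiset.map_map, Function.comp_def]
        rfl
      rw [e]
      have d1 : ∀ x y, x ≤ y → (G x - ∏ l ∈ I, ps a w (U l) x) - (G y - ∏ l ∈ I, ps a w (U l) y) ≤
          (I.card : ℝ) ^ 2 * (y - x) ^ 2 := by
        intro x y hxy
        have h1 := sum_prod_le I (fun i => (S.ps_mem (U i) y).1) (fun i => S.ps_anti (U i) hxy)
          (fun i => (S.ps_mem (U i) x).2) (fun i => S.ps_lip (U i) hxy) (sub_nonneg.2 hxy)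
        have h2 : G x - G y ≤ ∑ i ∈ I, (∏ l ∈ I.erase i, ps a w (U l) x) *
            (ps a w (U i) x - ps a w (U i) y) := by
          rw [hG, ← Finset.sum_sub_distrib]
          refine Finset.sum_le_sum fun i hi => ?_
          rw [← Multiset.sum_map_sub]
          refine le_trans (Multiset.sum_map_le_sum_map _
            (fun V => ul V (nb a w (I.erase i) x) * (ps a w (U i) x - ps a w (U i) y))
            fun V hV => ?_) ?_
          · have := (sp i hi V hV).1 x y hxy
            rwa [Finset.insert_erase hi] at this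
          · rw [Multiset.sum_map_mul_right]
            exact mul_le_mul_of_nonneg_right (m3 _ (hc i hi) x)
              (sub_nonneg.2 (S.ps_anti _ hxy))
        linarith
      have d2 : ∀ y, G y ≤ ∑ i ∈ I, ((k + 1).factorial : ℝ) *
          (ps a w (U i) y - ⨅ z, ps a w (U i) z) := fun y =>
        Finset.sum_le_sum fun i hi => by
          refine le_trans (Multiset.sum_map_le_sum_map _
            (fun _ => ps a w (U i) y - ⨅ z, ps a w (U i) z) fun V hV => ?_) (le_of_eq ?_)
          · have := (sp i hi V hV).2 y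
            rwa [Finset.insert_erase hi] at this
          · rw [Multiset.map_const', Multiset.sum_replicate, m1 _ (hc i hi), nsmul_eq_mul]
      have t : Tendsto (fun y => ∑ i ∈ I, ((k + 1).factorial : ℝ) *
          (ps a w (U i) y - ⨅ z, ps a w (U i) z)) atTop (𝓝 _) :=
        tendsto_finsetSum _ fun i _ => ((tendsto_atTop_ciInf (S.ps_anti (U i))
          ⟨0, by rintro _ ⟨z, rfl⟩; exact (S.ps_mem _ z).1⟩).sub_const _).const_mul _
      simp only [sub_self, mul_zero, Finset.sum_const_zero] at t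
      refine sub_nonpos.1 (ge_of_tendsto t ?_)
      filter_upwards [eventually_ge_atTop x] with y hy
      have h1 := quad d1 hy
      have h2 : 0 ≤ ∏ l ∈ I, ps a w (U l) y := Finset.prod_nonneg fun l _ => (S.ps_mem _ y).1
      linarith [d2 y]

theorem factorial_le {r : ℕ} (A : Fin (r + 1) → Set ℕ) (hA : ∀ i, (A i).Infinite) {ε : ℝ}
    (hε : 0 < ε) : ∃ n : Fin (r + 1) → ℕ, (∀ i, n i ∈ A i) ∧
      (r + 1).factorial * w (∑ i, n i) ≤ (1 + ε) * ∏ i, w (n i) := by
  have hne : ∀ i, ((atTop : Filter ℕ) ⊓ 𝓟 (A i)).NeBot := fun i =>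
    frequently_iff_neBot.1 (Nat.frequently_atTop_iff_infinite.2 (hA i))
  obtain ⟨M, m1, m2, m3⟩ := S.family (A := A) (U := fun i => @Ultrafilter.of _ _ (hne i))
    (fun i => (Ultrafilter.of_le _).trans inf_le_left)
    (fun i => le_principal_iff.1 ((Ultrafilter.of_le _).trans inf_le_right)) r Finset.univ
    (by simp)
  have hf : (0 : ℝ) < (r + 1).factorial := Nat.cast_pos.2 (Nat.factorial_pos _)
  obtain ⟨V, hV, h⟩ : ∃ V ∈ M, ul V (nb a w Finset.univ 0) < (1 + ε) / (r + 1).factorial := by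
    by_contra hn
    push Not at hn
    have h1 := Multiset.sum_map_le_sum_map (fun _ => (1 + ε) / (r + 1).factorial) _ hn
    rw [Multiset.map_const', Multiset.sum_replicate, m1, nsmul_eq_mul,
      mul_div_cancel₀ _ hf.ne'] at h1
    have h2 := (m3 0).trans (Finset.prod_le_one (fun i _ => (S.ps_mem _ 0).1)
      fun i _ => (S.ps_mem _ 0).2)
    linarith
  obtain ⟨n, h1, h2⟩ := ((m2 V hV).and
    ((ul_spec V (S.nb_mem Finset.univ_nonempty 0)).1.eventually_lt_const h)).exists
  refine ⟨n, fun i => (h1 i (Finset.mem_univ i)).1, ?_⟩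
  rw [nb, S.zero, div_lt_div_iff₀ (Finset.prod_pos fun i _ => S.pos _) hf, mul_comm] at h2
  exact h2.le

end Sys

end Pool.Agent.P.MP_f562c3_an.Fac
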