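import Pool.Agent.P.MP_f562c3_an.Defs

open MeasureTheory

namespace Pool.Agent.P.MP_f562c3_an

/-- There is an algebra homomorphism `T` from l1(w) into M(0,1) such that the total variation of
`T x` lies between `a` times and `b` times the norm of `x`. For `a = b = 1` this is an isometric
isomorphism of l1(w) into M(0,1). -/
def EmbedsWith (a b : ℝ) (w : ℕ → ℝ) : Prop :=
  ∃ T : (ℕ → ℂ) → ComplexMeasure UI,
    (∀ x y, InL1 w x → InL1 w y → T (x + y) = T x + T y) ∧
    (∀ (c : ℂ) x, InL1 w x → T (c • x) = c • T x) ∧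
    (∀ x y, InL1 w x → InL1 w y → IsConv (T x) (T y) (T (seqConv x y))) ∧
    (∀ x, InL1 w x → ENNReal.ofReal (a * normL1 w x) ≤ (T x).variation Set.univ ∧
      (T x).variation Set.univ ≤ ENNReal.ofReal (b * normL1 w x))

end Pool.Agent.P.MP_f562c3_an
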