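import Pool.Agent.P.MP_f562c3_an.Nec1
import Pool.Agent.P.MP_f562c3_an.FacDefs
import Pool.Agent.P.MP_f562c3_an.Fac1

/-! Damped norms of the powers of the generator, and factorial decay. -/

open MeasureTheory Filter Topology Set Complex
open scoped ENNReal

namespace Pool.Agent.P.MP_f562c3_an

theorem embedsWith_one {w : ℕ → ℝ} : EmbedsWith 1 1 w ↔ Embeds w := by
  simp only [EmbedsWith, Embeds, one_mul, ← le_antisymm_iff, eq_comm]

theorem exists_Pw' {a b : ℝ} {w : ℕ → ℝ} (hw : ∀ n, 0 < w n) (hE : EmbedsWith a b w) :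
    ∃ v : ℕ → ℝ, (∀ n, a * w n ≤ v n ∧ v n ≤ max b 0 * w n) ∧ Nonempty (Pw v) := by
  classical
  obtain ⟨T, -, -, hmul, hiso⟩ := hE
  let e : ℕ → ℕ → ℂ := fun n => Pi.single n 1
  have he : ∀ n, HasSum (fun j => ‖e n j‖ * w j) (w n) := by
    intro n
    have := hasSum_single (f := fun j => ‖e n j‖ * w j) n fun j hj => by simp [e, hj]
    simpa [e] using this
  have hc : ∀ m n, seqConv (e m) (e n) = e (m + n) := by
    intro m n
    funext k
    unfold seqConv
    by_cases hk : k = m + n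
    · subst hk
      rw [Finset.sum_eq_single m]
      · simp [e]
      · intro j _ hj; simp [e, hj]
      · intro h; exact absurd (Finset.mem_range.2 (by omega)) h
    · rw [Finset.sum_eq_zero]
      · simp [e, hk]
      · intro j hj
        have := Finset.mem_range.1 hj
        by_cases h1 : j = m
        · have : k - j ≠ n := by omega
          simp [e, this]
        · simp [e, h1]
  have hvar := fun n => hiso _ (he n).summable
  simp only [normL1, fun n => (he n).tsum_eq] at hvar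
  have hfin : ∀ n, IsFiniteMeasure (T (e n)).variation := fun n =>
    ⟨(hvar n).2.trans_lt ENNReal.ofReal_lt_top⟩
  choose h hm hi hq hn using fun n => polar (T (e n))
  let h' : ℕ → UI → ℂ := fun n s => if ‖h n s‖ = 1 then h n s else 1
  have hm' : ∀ n, Measurable (h' n) := fun n =>
    Measurable.ite ((hm n).norm (measurableSet_singleton 1)) (hm n) measurable_const
  have hae : ∀ n, h' n =ᵐ[(T (e n)).variation] h n := fun n => by
    filter_upwards [hn n] with s hs
    simp [h', hs]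
  have hi' : ∀ n, Integrable (h' n) (T (e n)).variation := fun n => (hi n).congr (hae n).symm
  have hq' : ∀ n, (T (e n)).variation.withDensityᵥ (h' n) = T (e n) := fun n => by
    rw [WithDensityᵥEq.congr_ae (hae n), hq]
  refine ⟨fun n => (T (e n)).variation.real univ, fun n => ⟨?_, ?_⟩,
    ⟨⟨fun n => (T (e n)).variation, h', hfin, hm', fun n s => ?_, fun n => rfl, ?_⟩⟩⟩
  · exact (ENNReal.ofReal_le_iff_le_toReal (measure_ne_top _ _)).1 (hvar n).1
  · refine ENNReal.toReal_le_of_le_ofReal (mul_nonneg (le_max_right _ _) (hw n).le)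
      ((hvar n).2.trans (ENNReal.ofReal_le_ofReal ?_))
    exact mul_le_mul_of_nonneg_right (le_max_left _ _) (hw n).le
  · simp only [h']
    split_ifs with h1
    · exact h1
    · simp
  · rintro m n f ⟨hf, ⟨C, hC⟩, hf1⟩
    have hadd : Measurable fun p : UI × UI => (p.1 : ℝ) + p.2 := by fun_prop
    have hA : MeasurableSet {p : UI × UI | (p.1 : ℝ) + p.2 < 1} := hadd measurableSet_Iio
    have ip := (hi' m).mul_prod (hi' n)
    have := ext_bdd (σ := (T (e (m + n))).variation)
      (τ := ((T (e m)).variation).prod (T (e n)).variation) (hi' (m + n)) (ip.indicator hA)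
      (φ := fun p : UI × UI => toUI (p.1 + p.2)) (measurable_toUI.comp hadd) ?_
      (f := fun s : UI => f s) (hf.comp measurable_subtype_coe) (C := C) fun s => hC s s.2.1
    · rw [this]
      congr 1
      funext p
      by_cases hp : (p.1 : ℝ) + p.2 < 1
      · rw [indicator_of_mem (by exact hp), toUI_of_mem ⟨add_nonneg p.1.2.1 p.2.2.1, hp⟩]
      · rw [indicator_of_notMem (by exact hp), hf1 _ (not_lt.1 hp)]
        simp
    · intro B hB
      rw [← withDensityᵥ_apply (hi' _) hB, hq', ← hc, hmul _ _ (he m).summable (he n).summable B hB]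
      conv_lhs => rw [← hq' m, ← hq' n]
      rw [prod_withDensity _ _ (hi' m) (hi' n), withDensityᵥ_apply ip (measurableSet_addPre hB),
        setIntegral_indicator hA]
      congr 2
      ext p
      simp only [mem_ofPred_eq, mem_val_iff, mem_inter_iff, mem_preimage, mem_Ico]
      have := add_nonneg p.1.2.1 p.2.2.1
      tauto

theorem exp_sub_le {x y s : ℝ} (hx : 0 ≤ x) (hxy : x ≤ y) (hs : 0 ≤ s) :
    Real.exp (-(x * s)) - Real.exp (-(y * s)) ≤ (y - x) * s := by
  have h1 : Real.exp (-(y * s)) = Real.exp (-(x * s)) * Real.exp (-((y - x) * s)) := by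
    rw [← Real.exp_add]; congr 1; ring
  have h2 := Real.add_one_le_exp (-((y - x) * s))
  have h3 : Real.exp (-(x * s)) ≤ 1 := Real.exp_le_one_iff.2 (neg_nonpos.2 (mul_nonneg hx hs))
  have h4 := Real.exp_pos (-(x * s))
  have h5 : 0 ≤ (y - x) * s := mul_nonneg (sub_nonneg.2 hxy) hs
  rw [h1]
  nlinarith

theorem exp_anti {x y s : ℝ} (hxy : x ≤ y) (hs : 0 ≤ s) :
    Real.exp (-(y * s)) ≤ Real.exp (-(x * s)) :=
  Real.exp_le_exp.2 (neg_le_neg (mul_le_mul_of_nonneg_right hxy hs))

theorem kernel_le {x y s t : ℝ} (hxy : x ≤ y) (hs : 0 ≤ s) (ht : 0 ≤ t) :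
    s * ((Real.exp (-(x * (s + t))) - Real.exp (-(y * (s + t)))) / (s + t)) ≤
      (Real.exp (-(x * s)) - Real.exp (-(y * s))) * Real.exp (-(x * t)) := by
  rcases (add_nonneg hs ht).eq_or_lt with h0 | h0
  · rw [← h0, div_zero, mul_zero]
    exact mul_nonneg (sub_nonneg.2 (exp_anti hxy hs)) (Real.exp_pos _).le
  have h1 := convexOn_exp.2 (mem_univ (-((y - x) * (s + t)))) (mem_univ 0)
    (div_nonneg hs h0.le) (div_nonneg ht h0.le) (by field_simp)
  have e0 : (s / (s + t)) • (-((y - x) * (s + t))) + (t / (s + t)) • (0 : ℝ) = -((y - x) * s) := by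
    simp only [smul_eq_mul]
    field_simp
    ring
  rw [e0, Real.exp_zero, smul_eq_mul, smul_eq_mul] at h1
  have e1 : Real.exp (-(y * (s + t))) =
      Real.exp (-(x * (s + t))) * Real.exp (-((y - x) * (s + t))) := by
    rw [← Real.exp_add]; congr 1; ring
  have e2 : Real.exp (-(y * s)) = Real.exp (-(x * s)) * Real.exp (-((y - x) * s)) := by
    rw [← Real.exp_add]; congr 1; ring
  have e3 : Real.exp (-(x * (s + t))) = Real.exp (-(x * s)) * Real.exp (-(x * t)) := by
    rw [← Real.exp_add]; congr 1; ring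
  have e4 : t / (s + t) = 1 - s / (s + t) := by
    field_simp
    ring
  have h2 := mul_le_mul_of_nonneg_left h1 (Real.exp_pos (-(x * (s + t)))).le
  rw [e1, e2, ← mul_div_assoc, mul_div_right_comm]
  rw [e4] at h2
  rw [e3] at h2 ⊢
  nlinarith

namespace Pw

variable {w : ℕ → ℝ} (P : Pw w)

/-- The test function that norms a power against a positive function. -/
noncomputable def tf (N : ℕ) (φ : ℝ → ℝ) : ℝ → ℂ :=
  (Iio 1).indicator fun x => (φ x : ℂ) * (starRingEnd ℂ) (P.h N (toUI x))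

theorem norm_tf_le (N : ℕ) (φ : ℝ → ℝ) (x : ℝ) : ‖P.tf N φ x‖ ≤ |φ x| :=
  (norm_indicator_le_norm_self _ _).trans (by
    rw [norm_mul, RCLike.norm_conj, P.norm1, mul_one, norm_real, Real.norm_eq_abs])

theorem tst_tf (N : ℕ) {φ : ℝ → ℝ} (hφ : Measurable φ) {C : ℝ} (hC : ∀ x, 0 ≤ x → |φ x| ≤ C) :
    Tst (P.tf N φ) :=
  ⟨((measurable_ofReal.comp hφ).mul (continuous_conj.measurable.comp
    ((P.meas _).comp measurable_toUI))).indicator measurableSet_Iio,
    ⟨C, fun x hx => (P.norm_tf_le N φ x).trans (hC x hx)⟩,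
    fun x hx => indicator_of_notMem (by simpa using hx) _⟩

theorem tf_mul (N : ℕ) (φ : ℝ → ℝ) (s : UI) : P.tf N φ s * P.h N s = φ s := by
  rw [tf, indicator_of_mem (by exact s.2.2), toUI_of_mem s.2, mul_assoc, conj_mul', P.norm1]
  simp

/-- The damped norm of a power. -/
noncomputable def dn (n : ℕ) (x : ℝ) : ℝ := ∫ s : UI, Real.exp (-(x * s)) ∂P.σ n

theorem int_dn (n : ℕ) {x : ℝ} (hx : 0 ≤ x) :
    Integrable (fun s : UI => Real.exp (-(x * s))) (P.σ n) :=
  Integrable.of_bound (by fun_prop : Measurable _).aestronglyMeasurable 1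
    (Eventually.of_forall fun s => by
      rw [Real.norm_eq_abs, abs_of_pos (Real.exp_pos _)]
      exact Real.exp_le_one_iff.2 (neg_nonpos.2 (mul_nonneg hx s.2.1)))

theorem dn_zero (n : ℕ) : P.dn n 0 = w n := by simp [dn, P.mass]

theorem dn_nonneg (n : ℕ) (x : ℝ) : 0 ≤ P.dn n x := integral_nonneg fun _ => (Real.exp_pos _).le

theorem dn_anti (n : ℕ) {x y : ℝ} (hx : 0 ≤ x) (hxy : x ≤ y) : P.dn n y ≤ P.dn n x :=
  integral_mono (P.int_dn n (hx.trans hxy)) (P.int_dn n hx) fun s => exp_anti hxy s.2.1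

theorem dn_lip (n : ℕ) {x y : ℝ} (hx : 0 ≤ x) (hxy : x ≤ y) :
    P.dn n x - P.dn n y ≤ (y - x) * w n := by
  rw [dn, dn, ← integral_sub (P.int_dn n hx) (P.int_dn n (hx.trans hxy)), ← P.mass, mul_comm,
    ← smul_eq_mul, ← integral_const]
  exact integral_mono ((P.int_dn n hx).sub (P.int_dn n (hx.trans hxy))) (integrable_const _)
    fun s => (exp_sub_le hx hxy s.2.1).trans
      (mul_le_of_le_one_right (sub_nonneg.2 hxy) s.2.2.le)

theorem dn_sub (m n : ℕ) {x : ℝ} (hx : 0 ≤ x) : P.dn (m + n) x ≤ P.dn m x * P.dn n x := by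
  have h1 := P.conv m n _ (P.tst_tf (m + n) (φ := fun u => Real.exp (-(x * u))) (by fun_prop)
    (C := 1) fun u hu => by
      rw [abs_of_pos (Real.exp_pos _)]
      exact Real.exp_le_one_iff.2 (neg_nonpos.2 (mul_nonneg hx hu)))
  simp only [P.tf_mul] at h1
  rw [integral_complex_ofReal] at h1
  have h2 := congrArg norm h1
  rw [norm_real, Real.norm_eq_abs] at h2
  refine (le_abs_self _).trans (h2.trans_le ?_)
  rw [dn, dn, ← integral_prod_mul]
  refine norm_integral_le_of_norm_le ((P.int_dn m hx).mul_prod (P.int_dn n hx))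
    (Eventually.of_forall fun p => ?_)
  rw [norm_mul, norm_mul, P.norm1, P.norm1, mul_one, mul_one]
  refine (P.norm_tf_le _ _ _).trans (le_of_eq ?_)
  rw [abs_of_pos (Real.exp_pos _), ← Real.exp_add]
  congr 1
  ring

theorem dn_step {m n : ℕ} (hm : 1 ≤ m) (hn : 1 ≤ n) {x y : ℝ} (hx : 0 ≤ x) (hxy : x ≤ y) :
    n * (P.dn (m + n) x - P.dn (m + n) y) ≤ (m + n) * (P.dn m x * (P.dn n x - P.dn n y)) := by
  have hy := hx.trans hxy
  set φ : ℝ → ℝ := fun u => (Real.exp (-(x * u)) - Real.exp (-(y * u))) / u with hφ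
  have φ0 : ∀ u, 0 ≤ u → 0 ≤ φ u := fun u hu =>
    div_nonneg (sub_nonneg.2 (exp_anti hxy hu)) hu
  have hf := P.tst_tf (m + n) (φ := φ) (by fun_prop) (C := y - x) fun u hu => by
    rw [abs_of_nonneg (φ0 u hu)]
    exact div_le_of_le_mul₀ hu (sub_nonneg.2 hxy) (exp_sub_le hx hxy hu)
  have h1 := P.A_add_A m n hf
  have h2 := P.A_symm hm hn hf
  have e1 : ∀ s : UI, ((s : ℝ) : ℂ) * P.tf (m + n) φ s * P.h (m + n) s =
      ((Real.exp (-(x * s)) - Real.exp (-(y * s)) : ℝ) : ℂ) := fun s => by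
    rw [mul_assoc, P.tf_mul, ← ofReal_mul]
    congr 1
    rcases s.2.1.eq_or_lt with h | h
    · simp [← h]
    · exact mul_div_cancel₀ _ h.ne'
  simp only [e1] at h1
  rw [integral_complex_ofReal, integral_sub (P.int_dn _ hx) (P.int_dn _ hy)] at h1
  have h3 : ((n * (P.dn (m + n) x - P.dn (m + n) y) : ℝ) : ℂ) =
      ((m + n : ℝ) : ℂ) * P.A n m (P.tf (m + n) φ) := by
    rw [ofReal_mul, dn, dn, ← h1]
    push_cast
    rw [mul_add, h2]
    ring
  have h4 := congrArg norm h3
  rw [norm_real, Real.norm_eq_abs, norm_mul, norm_real, Real.norm_eq_abs,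
    abs_of_nonneg (by positivity : (0 : ℝ) ≤ m + n)] at h4
  refine (le_abs_self _).trans (h4.trans_le (mul_le_mul_of_nonneg_left ?_ (by positivity)))
  rw [dn, dn, dn, ← integral_sub (P.int_dn _ hx) (P.int_dn _ hy), mul_comm, ← integral_prod_mul]
  refine norm_integral_le_of_norm_le (((P.int_dn n hx).sub (P.int_dn n hy)).mul_prod
    (P.int_dn m hx)) (Eventually.of_forall fun p => ?_)
  rw [norm_mul, norm_mul, norm_mul, P.norm1, P.norm1, mul_one, mul_one, norm_real,
    Real.norm_eq_abs, abs_of_nonneg p.1.2.1]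
  refine le_trans (mul_le_mul_of_nonneg_left (P.norm_tf_le _ _ _) p.1.2.1) ?_
  rw [abs_of_nonneg (φ0 _ (add_nonneg p.1.2.1 p.2.2.1))]
  exact kernel_le hxy p.1.2.1 p.2.2.1

theorem atom_zero' (hw : ∀ ρ : ℝ, 0 < ρ → ∃ n, w (n + 1) < ρ ^ (n + 1)) {m : ℕ} (hm : 1 ≤ m) :
    P.σ m {s | (s : ℝ) = 0} = 0 := by
  let f : ℝ → ℂ := ({0} : Set ℝ).indicator 1
  let z : UI := ⟨0, le_rfl, one_pos⟩
  have hz : {s : UI | (s : ℝ) = 0} = {z} := by
    ext s
    exact ⟨fun h => Subtype.ext h, fun h => congrArg Subtype.val h⟩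
  have hf : Tst f := ⟨measurable_const.indicator (measurableSet_singleton 0),
    ⟨1, fun x _ => by by_cases hx : x = 0 <;> simp [f, hx]⟩,
    fun x hx => indicator_of_notMem (by simp; linarith) _⟩
  let a : ℕ → ℂ := fun n => ∫ s : UI, f s * P.h n s ∂P.σ n
  have hadd : ∀ m n, a (m + n) = a m * a n := by
    intro m n
    simp only [a]
    rw [P.conv m n f hf, ← integral_prod_mul]
    congr 1
    funext p
    have h1 := p.1.2.1
    have h2 := p.2.2.1
    by_cases e1 : (p.1 : ℝ) = 0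
    · by_cases e2 : (p.2 : ℝ) = 0 <;> simp [f, e1, e2]
    · have : (p.1 : ℝ) + p.2 ≠ 0 := by
        have := lt_of_le_of_ne h1 (Ne.symm e1)
        positivity
      simp [f, e1, this]
  have hpow : ∀ n, a (n + 1) = a 1 ^ (n + 1) := by
    intro n
    induction n with
    | zero => simp
    | succ n ih => rw [hadd, ih, ← pow_succ]
  have hnorm : ∀ n, ‖a n‖ = (P.σ n).real {z} := by
    intro n
    have : (fun s : UI => f s * P.h n s) = ({z} : Set UI).indicator fun _ => P.h n z := by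
      funext s
      by_cases hs : s = z
      · subst hs; simp [f, z]
      · have : (s : ℝ) ≠ 0 := fun h => hs (Subtype.ext h)
        simp [f, hs, this]
    simp only [a]
    rw [this, integral_indicator_const _ (measurableSet_singleton _), norm_smul, P.norm1]
    simp
  have h0 : ‖a 1‖ ≤ 0 := not_lt.1 fun h => by
    obtain ⟨n, hn⟩ := hw _ h
    rw [← norm_pow, ← hpow, hnorm, ← P.mass] at hn
    exact hn.not_ge (measureReal_mono (subset_univ _))
  obtain ⟨m, rfl⟩ := Nat.exists_eq_add_of_le' hm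
  have := hnorm (m + 1)
  rw [hpow, norm_le_zero_iff.1 h0, zero_pow (Nat.succ_ne_zero m), norm_zero] at this
  rw [hz]
  exact (measureReal_eq_zero_iff (measure_ne_top _ _)).1 this.symm

theorem dn_dec {m : ℕ} (h0 : P.σ m {s | (s : ℝ) = 0} = 0) :
    Tendsto (fun x => P.dn m (max x 0)) atTop (𝓝 0) := by
  have := tendsto_integral_filter_of_dominated_convergence (μ := P.σ m) (l := atTop)
    (F := fun (x : ℝ) (s : UI) => Real.exp (-(max x 0 * s))) (f := fun _ => 0) (fun _ => 1)
    (Eventually.of_forall fun x => (P.int_dn m (le_max_right x 0)).aestronglyMeasurable)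
    (Eventually.of_forall fun x => Eventually.of_forall fun s => by
      rw [Real.norm_eq_abs, abs_of_pos (Real.exp_pos _)]
      exact Real.exp_le_one_iff.2 (neg_nonpos.2 (mul_nonneg (le_max_right _ _) s.2.1)))
    (integrable_const _) (by
      filter_upwards [measure_eq_zero_iff_ae_notMem.1 h0] with s hs
      exact Real.tendsto_exp_neg_atTop_nhds_zero.comp
        ((tendsto_atTop_mono (fun x => le_max_left x 0) tendsto_id).atTop_mul_const
          (s.2.1.lt_of_ne' hs)))
  simpa only [integral_zero, dn] using this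

theorem sys (hp : ∀ n, 0 < w n) (hw : ∀ ρ : ℝ, 0 < ρ → ∃ n, w (n + 1) < ρ ^ (n + 1)) :
    Fac.Sys (fun n x => P.dn n (max x 0)) w where
  pos := hp
  zero n := by simp only [max_self, P.dn_zero]
  nonneg n x := P.dn_nonneg _ _
  le n x := (P.dn_anti n le_rfl (le_max_right _ _)).trans_eq (P.dn_zero n)
  anti n x y h := P.dn_anti n (le_max_right _ _) (max_le_max_right _ h)
  lip n x y h := (P.dn_lip n (le_max_right _ _) (max_le_max_right _ h)).trans
    (mul_le_mul_of_nonneg_right (by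
      rcases le_total x 0 with h1 | h1 <;> rcases le_total y 0 with h2 | h2 <;>
        simp only [max_eq_left, max_eq_right, h1, h2] <;> linarith) (hp n).le)
  sub m n x := P.dn_sub m n (le_max_right _ _)
  step m n x y hm hn h := P.dn_step hm hn (le_max_right _ _) (max_le_max_right _ h)
  dec m hm := P.dn_dec (P.atom_zero' hw hm)

end Pw

theorem factorial_decay {a b : ℝ} {w : ℕ → ℝ} (hw : IsRadicalWeight w) (ha : 0 < a)
    (hE : EmbedsWith a b w) {r : ℕ} (hr : 1 ≤ r) (A : Fin r → Set ℕ) (hA : ∀ i, (A i).Infinite)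
    {ε : ℝ} (hε : 0 < ε) : ∃ n : Fin r → ℕ, (∀ i, n i ∈ A i) ∧
      a * (r.factorial * w (∑ i, n i)) ≤ (1 + ε) * b ^ r * ∏ i, w (n i) := by
  obtain ⟨r, rfl⟩ := Nat.exists_eq_add_of_le' hr
  obtain ⟨v, hv, ⟨P⟩⟩ := exists_Pw' hw.1 hE
  have hp : ∀ n, 0 < v n := fun n => (mul_pos ha (hw.1 n)).trans_le (hv n).1
  have hb : 0 < b := by
    have := (mul_pos_iff_of_pos_right (hw.1 0)).1 ((hp 0).trans_le (hv 0).2)
    exact (lt_max_iff.1 this).resolve_right (lt_irrefl _)
  rw [max_eq_left hb.le] at hv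
  have hρ : ∀ ρ : ℝ, 0 < ρ → ∃ n, v (n + 1) < ρ ^ (n + 1) := by
    intro ρ hρ
    have t1 := (hw.2.2.2.comp (tendsto_add_atTop_nat 1)).eventually_lt_const (half_pos hρ)
    have t2 := ((tendsto_pow_atTop_atTop_of_one_lt (one_lt_two (α := ℝ))).comp
      (tendsto_add_atTop_nat 1)).eventually_gt_atTop b
    obtain ⟨n, h1, h2⟩ := (t1.and t2).exists
    refine ⟨n, (hv _).2.trans_lt ?_⟩
    have h3 : w (n + 1) ≤ (ρ / 2) ^ (n + 1) := by
      rw [← Real.rpow_inv_natCast_pow (hw.1 (n + 1)).le (Nat.succ_ne_zero n), ← one_div]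
      exact pow_le_pow_left₀ (Real.rpow_nonneg (hw.1 _).le _) h1.le _
    calc b * w (n + 1) ≤ b * (ρ / 2) ^ (n + 1) := mul_le_mul_of_nonneg_left h3 hb.le
      _ < 2 ^ (n + 1) * (ρ / 2) ^ (n + 1) := mul_lt_mul_of_pos_right h2 (by positivity)
      _ = ρ ^ (n + 1) := by rw [← mul_pow, mul_div_cancel₀ _ two_ne_zero]
  obtain ⟨n, h1, h2⟩ := (P.sys hp hρ).factorial_le A hA hε
  refine ⟨n, h1, ?_⟩
  have h3 : ∏ i, v (n i) ≤ b ^ (r + 1) * ∏ i, w (n i) := by
    refine (Finset.prod_le_prod (fun i _ => (hp _).le) fun i _ => (hv (n i)).2).trans_eq ?_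
    rw [Finset.prod_mul_distrib, Finset.prod_const, Finset.card_univ, Fintype.card_fin]
  rw [mul_left_comm, mul_assoc]
  exact (mul_le_mul_of_nonneg_left (hv _).1 (Nat.cast_nonneg _)).trans
    (h2.trans (mul_le_mul_of_nonneg_left h3 (by positivity)))

end Pool.Agent.P.MP_f562c3_an
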