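import Mathlib

open Filter Topology Set

namespace Pool.Agent.P.MP_f562c3_an

theorem box_fixed (Φ : (ℕ → ℝ) → (ℕ → ℝ))
    (hmap : ∀ u, (∀ i, u i ∈ Icc (0 : ℝ) 1) → ∀ i, Φ u i ∈ Icc (0 : ℝ) 1)
    (hlip : ∀ u v δ, (∀ i, u i ∈ Icc (0 : ℝ) 1) → (∀ i, v i ∈ Icc (0 : ℝ) 1) →
      (∀ i, |u i - v i| ≤ δ) → ∀ i, |Φ u i - Φ v i| ≤ δ / 2) :
    ∃ u, (∀ i, u i ∈ Icc (0 : ℝ) 1) ∧ Φ u = u := by
  let s : ℕ → ℕ → ℝ := fun t => Φ^[t] (fun _ => 0)
  have hs : ∀ t, s (t + 1) = Φ (s t) := fun t => Function.iterate_succ_apply' _ _ _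
  have hbox : ∀ t i, s t i ∈ Icc (0 : ℝ) 1 := by
    intro t
    induction t with
    | zero => intro i; simp [s]
    | succ t ih => rw [hs]; exact hmap _ ih
  have hstep : ∀ t i, |s t i - s (t + 1) i| ≤ 1 * (1 / 2) ^ t := by
    intro t
    induction t with
    | zero =>
      intro i
      have h1 := hbox 0 i
      have h2 := hbox 1 i
      rw [abs_le]
      constructor <;> simp only [pow_zero, zero_add] <;> linarith [h1.1, h1.2, h2.1, h2.2]
    | succ t ih =>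
      intro i
      have := hlip _ _ _ (hbox t) (hbox (t + 1)) ih i
      rw [← hs, ← hs] at this
      refine this.trans (le_of_eq ?_)
      ring
  have hc : ∀ i, CauchySeq fun t => s t i := fun i =>
    cauchySeq_of_le_geometric (1 / 2) 1 (by norm_num) fun t => by
      rw [Real.dist_eq]; exact hstep t i
  choose u hu using fun i => cauchySeq_tendsto_of_complete (hc i)
  have hub : ∀ i, u i ∈ Icc (0 : ℝ) 1 := fun i =>
    isClosed_Icc.mem_of_tendsto (hu i) (Eventually.of_forall fun t => hbox t i)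
  have hd : ∀ t i, |s t i - u i| ≤ 2 * (1 / 2) ^ t := by
    intro t i
    have := dist_le_of_le_geometric_of_tendsto (1 / 2) 1 (by norm_num)
      (fun t => by rw [Real.dist_eq]; exact hstep t i) (hu i) t
    rw [Real.dist_eq] at this
    refine this.trans (le_of_eq ?_)
    ring
  refine ⟨u, hub, ?_⟩
  funext i
  have h1 : Tendsto (fun t => s (t + 1) i) atTop (𝓝 (u i)) :=
    (hu i).comp (tendsto_add_atTop_nat 1)
  have h2 : Tendsto (fun t => s (t + 1) i) atTop (𝓝 (Φ u i)) := by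
    rw [tendsto_iff_dist_tendsto_zero]
    refine squeeze_zero (fun _ => dist_nonneg) (fun t => ?_)
      (tendsto_pow_atTop_nhds_zero_of_lt_one (r := (1 / 2 : ℝ)) (by norm_num) (by norm_num))
    rw [Real.dist_eq, hs]
    refine (hlip _ _ _ (hbox t) hub (hd t) i).trans (le_of_eq ?_)
    ring
  exact tendsto_nhds_unique h2 h1

theorem abs_sub_mul_le {c X Y : ℝ} (hc : 0 ≤ c) (hX : c ≤ X) (hY : c ≤ Y) (i : ℕ) :
    |X - Y| * c ^ i ≤ |X ^ (i + 1) - Y ^ (i + 1)| := by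
  wlog h : Y ≤ X generalizing X Y
  · have := this hY hX (le_of_not_ge h)
    rwa [abs_sub_comm X Y, abs_sub_comm (X ^ (i + 1))]
  have hY0 : 0 ≤ Y := hc.trans hY
  have h1 : Y ^ i ≤ X ^ i := pow_le_pow_left₀ hY0 h i
  have h2 : c ^ i ≤ X ^ i := pow_le_pow_left₀ hc hX i
  have h3 : Y ^ (i + 1) ≤ X ^ (i + 1) := pow_le_pow_left₀ hY0 h _
  rw [abs_of_nonneg (by linarith), abs_of_nonneg (by linarith), pow_succ, pow_succ]
  nlinarith [mul_le_mul_of_nonneg_left h2 (sub_nonneg.2 h), mul_le_mul_of_nonneg_right h1 hY0]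

theorem hasSum_tele {r : ℕ → ℝ} (hr : ∀ i, r (i + 1) ≤ r i) (h0 : Tendsto r atTop (𝓝 0))
    (i : ℕ) : HasSum (fun j => r (j + i) - r (j + i + 1)) (r i) := by
  rw [hasSum_iff_tendsto_nat_of_nonneg (fun j => sub_nonneg.2 (hr _))]
  have : ∀ n, ∑ j ∈ Finset.range n, (r (j + i) - r (j + i + 1)) = r i - r (n + i) := by
    intro n
    induction n with
    | zero => simp
    | succ n ih => rw [Finset.sum_range_succ, ih, show n + 1 + i = n + i + 1 by ring]; ring
  simp only [this]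
  simpa using (h0.comp (tendsto_add_atTop_nat i)).const_sub (r i)

/-- The sequence-level fixed point. -/
theorem seq_fixed (ρ : ℕ → ℝ) (hpos : ∀ i, 0 < ρ i) (hanti : ∀ i, ρ (i + 1) ≤ ρ i)
    (hstr : ∀ i, ρ (i + 1) = ρ i → ρ i = ρ 0) (hlim : Tendsto ρ atTop (𝓝 0)) :
    ∃ η : ℕ → ℝ, (∀ i, 0 < η i) ∧ ∀ E : (ℕ → ℝ) → ℕ → ℝ,
      (∀ a i, 0 ≤ E a i) →
      (∀ a i, (∀ j < i, a j = 0) → E a i = 0) →
      (∀ a b i, (∀ j, 0 ≤ a j) → Summable a → ∑' j, a j ≤ ρ 0 →
        (∀ j, 0 ≤ b j) → Summable b → ∑' j, b j ≤ ρ 0 →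
        |E a i - E b i| ≤ η i * ∑' j, |a j - b j|) →
      ∃ a : ℕ → ℝ, (∀ j, 0 ≤ a j) ∧ Summable a ∧
        ∀ i, (∑' j, a (j + i)) ^ (i + 1) + E a i = ρ i ^ (i + 1) := by
  classical
  have hA : Antitone ρ := antitone_nat_of_succ_le hanti
  let g : ℕ → ℝ := fun i => if ρ i = ρ 0 then 0 else ρ i - ρ (i + 1)
  have hg0 : ∀ i, 0 ≤ g i := by
    intro i
    simp only [g]
    split_ifs
    · exact le_rfl
    · exact sub_nonneg.2 (hanti i)
  have hg1 : ∀ i, g i ≤ ρ i - ρ (i + 1) := by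
    intro i
    simp only [g]
    split_ifs
    · exact sub_nonneg.2 (hanti i)
    · exact le_rfl
  have hlt : ∀ i, ρ i ≠ ρ 0 → ρ (i + 1) < ρ i := fun i hi =>
    lt_of_le_of_ne (hanti i) fun h => hi (hstr i h)
  have hgpos : ∀ i, ρ i ≠ ρ 0 → 0 < g i := by
    intro i hi
    simp only [g, hi, if_false]
    exact sub_pos.2 (hlt i hi)
  have hρsum : HasSum (fun j => ρ j - ρ (j + 1)) (ρ 0) := by
    simpa using hasSum_tele hanti hlim 0
  have hgs : Summable g := Summable.of_nonneg_of_le hg0 hg1 hρsum.summable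
  have hgle : ∑' j, g j ≤ ρ 0 := by
    rw [← hρsum.tsum_eq]; exact hgs.tsum_le_tsum hg1 hρsum.summable
  let η : ℕ → ℝ := fun i => if ρ i = ρ 0 then 1 else
    min ((ρ i ^ (i + 1) - ρ (i + 1) ^ (i + 1)) / ρ 0) (ρ (i + 1) ^ i * g i / (4 * ρ 0))
  refine ⟨η, ?_, ?_⟩
  · intro i
    simp only [η]
    split_ifs with hi
    · exact one_pos
    · have h1 : ρ (i + 1) ^ (i + 1) < ρ i ^ (i + 1) :=
        pow_lt_pow_left₀ (hlt i hi) (hpos _).le (Nat.succ_ne_zero i)
      have h2 := hgpos i hi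
      have h3 := hpos (i + 1)
      have h4 := hpos 0
      exact lt_min (div_pos (sub_pos.2 h1) h4) (by positivity)
  intro E hE0 hEz hEl
  let r : (ℕ → ℝ) → ℕ → ℝ := fun u i => ρ i - g i * u i
  let a : (ℕ → ℝ) → ℕ → ℝ := fun u i => r u i - r u (i + 1)
  have hr1 : ∀ u, (∀ i, u i ∈ Icc (0 : ℝ) 1) → ∀ i, r u i ≤ ρ i := by
    intro u hu i
    have := mul_nonneg (hg0 i) (hu i).1
    simp only [r]; linarith
  have hr2 : ∀ u, (∀ i, u i ∈ Icc (0 : ℝ) 1) → ∀ i, ρ (i + 1) ≤ r u i := by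
    intro u hu i
    have h1 := mul_le_mul_of_nonneg_left (hu i).2 (hg0 i)
    have h2 := hg1 i
    simp only [r]; linarith
  have hr3 : ∀ u, (∀ i, u i ∈ Icc (0 : ℝ) 1) → ∀ i, r u (i + 1) ≤ r u i := fun u hu i =>
    (hr1 u hu _).trans (hr2 u hu i)
  have hr0 : ∀ u, (∀ i, u i ∈ Icc (0 : ℝ) 1) → Tendsto (r u) atTop (𝓝 0) := fun u hu =>
    squeeze_zero (fun i => (hpos _).le.trans (hr2 u hu i)) (hr1 u hu) hlim
  have hsum : ∀ u, (∀ i, u i ∈ Icc (0 : ℝ) 1) → ∀ i, HasSum (fun j => a u (j + i)) (r u i) :=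
    fun u hu i => hasSum_tele (hr3 u hu) (hr0 u hu) i
  have ha0 : ∀ u, (∀ i, u i ∈ Icc (0 : ℝ) 1) → ∀ j, 0 ≤ a u j := fun u hu j =>
    sub_nonneg.2 (hr3 u hu j)
  have has : ∀ u, (∀ i, u i ∈ Icc (0 : ℝ) 1) → Summable (a u) := fun u hu => by
    simpa using (hsum u hu 0).summable
  have hat : ∀ u, (∀ i, u i ∈ Icc (0 : ℝ) 1) → ∑' j, a u j ≤ ρ 0 := fun u hu => by
    have := (hsum u hu 0).tsum_eq
    simp only [add_zero] at this
    rw [this]; exact hr1 u hu 0
  have hEle : ∀ u, (∀ i, u i ∈ Icc (0 : ℝ) 1) → ∀ i, ρ i ≠ ρ 0 →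
      ρ (i + 1) ^ (i + 1) ≤ ρ i ^ (i + 1) - E (a u) i := by
    intro u hu i hi
    have h1 := hEl (a u) (fun _ => 0) i (ha0 u hu) (has u hu) (hat u hu) (fun _ => le_rfl)
      summable_zero (by simpa using (hpos 0).le)
    rw [hEz (fun _ => 0) i (fun _ _ => rfl), sub_zero, abs_of_nonneg (hE0 _ _)] at h1
    have h2 : ∑' j, |a u j - 0| ≤ ρ 0 := by
      simp only [sub_zero, abs_of_nonneg (ha0 u hu _)]; exact hat u hu
    have h3 : η i ≤ (ρ i ^ (i + 1) - ρ (i + 1) ^ (i + 1)) / ρ 0 := by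
      simp only [η, hi, if_false]; exact min_le_left _ _
    have h4 : 0 ≤ ∑' j, |a u j - 0| := tsum_nonneg fun _ => abs_nonneg _
    have h5 : ρ (i + 1) ^ (i + 1) ≤ ρ i ^ (i + 1) := pow_le_pow_left₀ (hpos _).le (hanti i) _
    have h6 : η i * ∑' j, |a u j - 0| ≤ (ρ i ^ (i + 1) - ρ (i + 1) ^ (i + 1)) / ρ 0 * ρ 0 :=
      mul_le_mul h3 h2 h4 (div_nonneg (sub_nonneg.2 h5) (hpos 0).le)
    rw [div_mul_cancel₀ _ (hpos 0).ne'] at h6
    linarith
  let X : (ℕ → ℝ) → ℕ → ℝ := fun u i => (ρ i ^ (i + 1) - E (a u) i) ^ (((i + 1 : ℕ) : ℝ)⁻¹)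
  have hXp : ∀ u, (∀ i, u i ∈ Icc (0 : ℝ) 1) → ∀ i, ρ i ≠ ρ 0 →
      X u i ^ (i + 1) = ρ i ^ (i + 1) - E (a u) i := by
    intro u hu i hi
    exact Real.rpow_inv_natCast_pow ((pow_pos (hpos _) _).le.trans (hEle u hu i hi))
      (Nat.succ_ne_zero i)
  have hX0 : ∀ u, (∀ i, u i ∈ Icc (0 : ℝ) 1) → ∀ i, ρ i ≠ ρ 0 → 0 ≤ X u i := by
    intro u hu i hi
    exact Real.rpow_nonneg ((pow_pos (hpos _) _).le.trans (hEle u hu i hi)) _
  have hX1 : ∀ u, (∀ i, u i ∈ Icc (0 : ℝ) 1) → ∀ i, ρ i ≠ ρ 0 → ρ (i + 1) ≤ X u i := by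
    intro u hu i hi
    refine le_of_pow_le_pow_left₀ (Nat.succ_ne_zero i) (hX0 u hu i hi) ?_
    rw [hXp u hu i hi]; exact hEle u hu i hi
  have hX2 : ∀ u, (∀ i, u i ∈ Icc (0 : ℝ) 1) → ∀ i, ρ i ≠ ρ 0 → X u i ≤ ρ i := by
    intro u hu i hi
    refine le_of_pow_le_pow_left₀ (Nat.succ_ne_zero i) (hpos i).le ?_
    rw [hXp u hu i hi]; exact sub_le_self _ (hE0 (a u) i)
  let Φ : (ℕ → ℝ) → ℕ → ℝ := fun u i => if ρ i = ρ 0 then 0 else (ρ i - X u i) / g i
  obtain ⟨u, hu, hfix⟩ := box_fixed Φ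
    (by
      intro u hu i
      simp only [Φ]
      split_ifs with hi
      · exact ⟨le_rfl, zero_le_one⟩
      · refine ⟨div_nonneg (sub_nonneg.2 (hX2 u hu i hi)) (hg0 i), ?_⟩
        rw [div_le_one (hgpos i hi)]
        have := hX1 u hu i hi
        simp only [g, hi, if_false]
        linarith)
    (by
      intro u v δ hu hv hδ i
      have hδ0 : 0 ≤ δ := (abs_nonneg _).trans (hδ 0)
      simp only [Φ]
      split_ifs with hi
      · simp only [sub_self, abs_zero]; linarith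
      · have h1 := abs_sub_mul_le (hpos (i + 1)).le (hX1 u hu i hi) (hX1 v hv i hi) i
        rw [hXp u hu i hi, hXp v hv i hi] at h1
        have h2 := hEl (a u) (a v) i (ha0 u hu) (has u hu) (hat u hu) (ha0 v hv) (has v hv)
          (hat v hv)
        have h3 : ∀ j, |a u j - a v j| ≤ δ * g j + δ * g (j + 1) := by
          intro j
          have e : a u j - a v j = -(g j * (u j - v j)) + g (j + 1) * (u (j + 1) - v (j + 1)) := by
            simp only [a, r]; ring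
          rw [e]
          refine (abs_add_le _ _).trans ?_
          rw [abs_neg, abs_mul, abs_mul, abs_of_nonneg (hg0 _), abs_of_nonneg (hg0 _)]
          have := mul_le_mul_of_nonneg_left (hδ j) (hg0 j)
          have := mul_le_mul_of_nonneg_left (hδ (j + 1)) (hg0 (j + 1))
          linarith
        have hgs' : Summable fun j => g (j + 1) := (summable_nat_add_iff 1).2 hgs
        have hgle' : ∑' j, g (j + 1) ≤ ρ 0 := by
          have := hgs.tsum_eq_zero_add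
          linarith [hg0 0]
        have h4 : ∑' j, |a u j - a v j| ≤ 2 * δ * ρ 0 := by
          refine (((has u hu).sub (has v hv)).abs.tsum_le_tsum h3
            ((hgs.mul_left δ).add (hgs'.mul_left δ))).trans ?_
          rw [(hgs.mul_left δ).tsum_add (hgs'.mul_left δ), tsum_mul_left, tsum_mul_left]
          nlinarith
        have h5 : η i ≤ ρ (i + 1) ^ i * g i / (4 * ρ 0) := by
          simp only [η, hi, if_false]; exact min_le_right _ _
        have hp := pow_pos (hpos (i + 1)) i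
        have hgp := hgpos i hi
        have h0 := hpos 0
        have h6 : η i * ∑' j, |a u j - a v j| ≤
            ρ (i + 1) ^ i * g i / (4 * ρ 0) * (2 * δ * ρ 0) :=
          mul_le_mul h5 h4 (tsum_nonneg fun _ => abs_nonneg _) (by positivity)
        have h7 : ρ (i + 1) ^ i * g i / (4 * ρ 0) * (2 * δ * ρ 0) =
            (δ / 2 * g i) * ρ (i + 1) ^ i := by
          field_simp; ring
        have h8 : |ρ i ^ (i + 1) - E (a u) i - (ρ i ^ (i + 1) - E (a v) i)| =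
            |E (a u) i - E (a v) i| := by
          rw [abs_sub_comm]; congr 1; ring
        have h9 : |X u i - X v i| ≤ δ / 2 * g i := by
          refine le_of_mul_le_mul_right ?_ hp
          linarith
        rw [← sub_div, abs_div, abs_of_pos hgp, div_le_iff₀ hgp, abs_sub_comm]
        rwa [show ρ i - X v i - (ρ i - X u i) = X u i - X v i by ring])
  refine ⟨a u, ha0 u hu, has u hu, fun i => ?_⟩
  rw [(hsum u hu i).tsum_eq]
  by_cases hi : ρ i = ρ 0
  · have hj : ∀ j ≤ i, ρ j = ρ 0 := fun j hj =>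
      le_antisymm (hA (Nat.zero_le j)) (hi ▸ hA hj)
    have hrj : ∀ j ≤ i, r u j = ρ 0 := by
      intro j h
      simp only [r, g, hj j h, if_true]; ring
    rw [hEz (a u) i, hrj i le_rfl, hi, add_zero]
    intro j hji
    simp only [a]
    rw [hrj j hji.le, hrj (j + 1) hji, sub_self]
  · have h1 : u i = (ρ i - X u i) / g i := by
      have := congrFun hfix i
      simp only [Φ, hi, if_false] at this
      exact this.symm
    have h2 : r u i = X u i := by
      have := (hgpos i hi).ne'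
      simp only [r]
      rw [h1]; field_simp; ring
    rw [h2, hXp u hu i hi]
    ring

end Pool.Agent.P.MP_f562c3_an
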