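import Pool.Agent.P.MP_f562c3_an.Push

open MeasureTheory Filter Topology Set
open scoped ENNReal

namespace Pool.Agent.P.MP_f562c3_an

theorem ext_bdd {X Y : Type*} [MeasurableSpace X] [MeasurableSpace Y] {σ : Measure X}
    {τ : Measure Y} {h : X → ℂ} {g : Y → ℂ} (hh : Integrable h σ) (hg : Integrable g τ)
    {φ : Y → X} (hφ : Measurable φ)
    (H : ∀ B, MeasurableSet B → ∫ x in B, h x ∂σ = ∫ y in φ ⁻¹' B, g y ∂τ)
    {f : X → ℂ} (hf : Measurable f) {C : ℝ} (hC : ∀ x, ‖f x‖ ≤ C) :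
    ∫ x, f x * h x ∂σ = ∫ y, f (φ y) * g y ∂τ := by
  have i1 : ∀ u : SimpleFunc X ℂ, Integrable (fun x => u x * h x) σ := fun u => by
    obtain ⟨c, hc⟩ := u.exists_forall_norm_le
    exact hh.bdd_mul (c := c) u.measurable.aestronglyMeasurable (Eventually.of_forall hc)
  have i2 : ∀ u : SimpleFunc X ℂ, Integrable (fun y => u (φ y) * g y) τ := fun u => by
    obtain ⟨c, hc⟩ := u.exists_forall_norm_le
    exact hg.bdd_mul (c := c) (u.measurable.comp hφ).aestronglyMeasurable
      (Eventually.of_forall fun y => hc _)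
  have hs : ∀ u : SimpleFunc X ℂ, ∫ x, u x * h x ∂σ = ∫ y, u (φ y) * g y ∂τ := by
    intro u
    induction u using SimpleFunc.induction with
    | @const c s hs =>
      have e1 : (fun x => (SimpleFunc.piecewise s hs (SimpleFunc.const X c)
          (SimpleFunc.const X 0)) x * h x) = s.indicator fun x => c * h x := by
        funext x
        by_cases hx : x ∈ s <;> simp [hx]
      have e2 : (fun y => (SimpleFunc.piecewise s hs (SimpleFunc.const X c)
          (SimpleFunc.const X 0)) (φ y) * g y) = (φ ⁻¹' s).indicator fun y => c * g y := by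
        funext y
        by_cases hx : φ y ∈ s <;> simp [hx]
      rw [e1, e2, integral_indicator hs, integral_indicator (hφ hs), integral_const_mul,
        integral_const_mul, H s hs]
    | @add u v _ hu hv =>
      simp only [SimpleFunc.coe_add, Pi.add_apply, add_mul]
      rw [integral_add (i1 u) (i1 v), integral_add (i2 u) (i2 v), hu, hv]
  rcases isEmpty_or_nonempty X with hX | ⟨⟨x0⟩⟩
  · have : IsEmpty Y := ⟨fun y => hX.false (φ y)⟩
    rw [integral_of_isEmpty, integral_of_isEmpty]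
  have hC0 : 0 ≤ C := (norm_nonneg _).trans (hC x0)
  have hsm := hf.stronglyMeasurable
  have t1 : Tendsto (fun n => ∫ x, hsm.approxBounded C n x * h x ∂σ) atTop
      (𝓝 (∫ x, f x * h x ∂σ)) := by
    refine tendsto_integral_of_dominated_convergence (fun x => C * ‖h x‖)
      (fun n => (i1 _).aestronglyMeasurable) (hh.norm.const_mul C) (fun n => ?_) ?_
    · filter_upwards with x
      rw [norm_mul]
      gcongr
      exact hsm.norm_approxBounded_le hC0 n x
    · filter_upwards with x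
      exact (hsm.tendsto_approxBounded_of_norm_le (hC x)).mul_const _
  have t2 : Tendsto (fun n => ∫ y, hsm.approxBounded C n (φ y) * g y ∂τ) atTop
      (𝓝 (∫ y, f (φ y) * g y ∂τ)) := by
    refine tendsto_integral_of_dominated_convergence (fun y => C * ‖g y‖)
      (fun n => (i2 _).aestronglyMeasurable) (hg.norm.const_mul C) (fun n => ?_) ?_
    · filter_upwards with y
      rw [norm_mul]
      gcongr
      exact hsm.norm_approxBounded_le hC0 n _
    · filter_upwards with y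
      exact (hsm.tendsto_approxBounded_of_norm_le (hC _)).mul_const _
  simp only [hs] at t1
  exact tendsto_nhds_unique t1 t2

/-- Test functions: measurable, bounded on the half line, zero from `1` on. -/
def Tst (f : ℝ → ℂ) : Prop :=
  Measurable f ∧ (∃ C, ∀ x, 0 ≤ x → ‖f x‖ ≤ C) ∧ ∀ x, 1 ≤ x → f x = 0

/-- Polar data of the powers of the generator. -/
structure Pw (w : ℕ → ℝ) where
  σ : ℕ → Measure UI
  h : ℕ → UI → ℂ
  fin : ∀ n, IsFiniteMeasure (σ n)
  meas : ∀ n, Measurable (h n)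
  norm1 : ∀ n s, ‖h n s‖ = 1
  mass : ∀ n, (σ n).real univ = w n
  conv : ∀ m n f, Tst f → ∫ s, f s * h (m + n) s ∂σ (m + n) =
    ∫ p : UI × UI, f (p.1 + p.2) * (h m p.1 * h n p.2) ∂(σ m).prod (σ n)

theorem exists_Pw {w : ℕ → ℝ} (hw : ∀ n, 0 < w n) (hE : Embeds w) : Nonempty (Pw w) := by
  classical
  obtain ⟨T, -, -, hmul, hiso⟩ := hE
  let e : ℕ → ℕ → ℂ := fun n => Pi.single n 1
  have he : ∀ n, HasSum (fun j => ‖e n j‖ * w j) (w n) := by
    intro n
    have := hasSum_single (f := fun j => ‖e n j‖ * w j) n fun j hj => by simp [e, hj]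
    simpa [e] using this
  have hc : ∀ m n, seqConv (e m) (e n) = e (m + n) := by
    intro m n
    funext k
    unfold seqConv
    by_cases hk : k = m + n
    · subst hk
      rw [Finset.sum_eq_single m]
      · simp [e]
      · intro j _ hj; simp [e, hj]
      · intro h; exact absurd (Finset.mem_range.2 (by omega)) h
    · rw [Finset.sum_eq_zero]
      · simp [e, hk]
      · intro j hj
        have := Finset.mem_range.1 hj
        by_cases h1 : j = m
        · have : k - j ≠ n := by omega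
          simp [e, this]
        · simp [e, h1]
  have hvar : ∀ n, (T (e n)).variation univ = ENNReal.ofReal (w n) := fun n => by
    rw [hiso _ (he n).summable, normL1, (he n).tsum_eq]
  have hfin : ∀ n, IsFiniteMeasure (T (e n)).variation := fun n => ⟨by rw [hvar]; simp⟩
  choose h hm hi hq hn using fun n => polar (T (e n))
  let h' : ℕ → UI → ℂ := fun n s => if ‖h n s‖ = 1 then h n s else 1
  have hm' : ∀ n, Measurable (h' n) := fun n =>
    Measurable.ite ((hm n).norm (measurableSet_singleton 1)) (hm n) measurable_const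
  have hae : ∀ n, h' n =ᵐ[(T (e n)).variation] h n := fun n => by
    filter_upwards [hn n] with s hs
    simp [h', hs]
  have hi' : ∀ n, Integrable (h' n) (T (e n)).variation := fun n => (hi n).congr (hae n).symm
  have hq' : ∀ n, (T (e n)).variation.withDensityᵥ (h' n) = T (e n) := fun n => by
    rw [WithDensityᵥEq.congr_ae (hae n), hq]
  refine ⟨⟨fun n => (T (e n)).variation, h', hfin, hm', fun n s => ?_, fun n => ?_, ?_⟩⟩
  · simp only [h']
    split_ifs with h1
    · exact h1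
    · simp
  · rw [Measure.real, hvar, ENNReal.toReal_ofReal (hw n).le]
  · rintro m n f ⟨hf, ⟨C, hC⟩, hf1⟩
    have hadd : Measurable fun p : UI × UI => (p.1 : ℝ) + p.2 := by fun_prop
    have hA : MeasurableSet {p : UI × UI | (p.1 : ℝ) + p.2 < 1} := hadd measurableSet_Iio
    have ip := (hi' m).mul_prod (hi' n)
    have := ext_bdd (σ := (T (e (m + n))).variation)
      (τ := ((T (e m)).variation).prod (T (e n)).variation) (hi' (m + n)) (ip.indicator hA)
      (φ := fun p : UI × UI => toUI (p.1 + p.2)) (measurable_toUI.comp hadd) ?_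
      (f := fun s : UI => f s) (hf.comp measurable_subtype_coe) (C := C) fun s => hC s s.2.1
    · rw [this]
      congr 1
      funext p
      by_cases hp : (p.1 : ℝ) + p.2 < 1
      · rw [indicator_of_mem (by exact hp), toUI_of_mem ⟨add_nonneg p.1.2.1 p.2.2.1, hp⟩]
      · rw [indicator_of_notMem (by exact hp), hf1 _ (not_lt.1 hp)]
        simp
    · intro B hB
      rw [← withDensityᵥ_apply (hi' _) hB, hq', ← hc, hmul _ _ (he m).summable (he n).summable B hB]
      conv_lhs => rw [← hq' m, ← hq' n]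
      rw [prod_withDensity _ _ (hi' m) (hi' n), withDensityᵥ_apply ip (measurableSet_addPre hB),
        setIntegral_indicator hA]
      congr 2
      ext p
      simp only [mem_setOf_eq, mem_val_iff, mem_inter_iff, mem_preimage, mem_Ico]
      have := add_nonneg p.1.2.1 p.2.2.1
      tauto

namespace Pw

variable {w : ℕ → ℝ} (P : Pw w)

instance (n : ℕ) : IsFiniteMeasure (P.σ n) := P.fin n

theorem int1 (n : ℕ) {F : UI → ℂ} (hF : Measurable F) {C : ℝ} (hC : ∀ s, ‖F s‖ ≤ C) :
    Integrable (fun s => F s * P.h n s) (P.σ n) :=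
  Integrable.of_bound (hF.mul (P.meas n)).aestronglyMeasurable C
    (Eventually.of_forall fun s => by rw [norm_mul, P.norm1, mul_one]; exact hC s)

theorem int2 (m n : ℕ) {F : UI × UI → ℂ} (hF : Measurable F) {C : ℝ} (hC : ∀ p, ‖F p‖ ≤ C) :
    Integrable (fun p : UI × UI => F p * (P.h m p.1 * P.h n p.2)) ((P.σ m).prod (P.σ n)) := by
  have h1 := P.meas m
  have h2 := P.meas n
  exact Integrable.of_bound (by fun_prop : Measurable _).aestronglyMeasurable C
    (Eventually.of_forall fun p => by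
      rw [norm_mul, norm_mul, P.norm1, P.norm1, mul_one, mul_one]; exact hC p)

theorem iter (m n : ℕ) {F : UI × UI → ℂ} (hF : Measurable F) {C : ℝ} (hC : ∀ p, ‖F p‖ ≤ C) :
    ∫ p : UI × UI, F p * (P.h m p.1 * P.h n p.2) ∂(P.σ m).prod (P.σ n) =
      ∫ s, (∫ t, F (s, t) * P.h n t ∂P.σ n) * P.h m s ∂P.σ m := by
  rw [integral_prod _ (P.int2 m n hF hC)]
  congr 1
  funext s
  rw [← integral_mul_const]
  congr 1
  funext t
  ring

theorem swap2 (m n : ℕ) (F : UI × UI → ℂ) :
    ∫ p : UI × UI, F p * (P.h m p.1 * P.h n p.2) ∂(P.σ m).prod (P.σ n) =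
      ∫ p : UI × UI, F p.swap * (P.h n p.1 * P.h m p.2) ∂(P.σ n).prod (P.σ m) := by
  rw [← integral_prod_swap]
  congr 1
  funext p
  simp [mul_comm]

/-- The translation operator. -/
noncomputable def R (n : ℕ) (f : ℝ → ℂ) (x : ℝ) : ℂ := ∫ t : UI, f (x + t) * P.h n t ∂P.σ n

theorem tst_R (n : ℕ) {f : ℝ → ℂ} (hf : Tst f) : Tst (P.R n f) := by
  obtain ⟨hf, ⟨C, hC⟩, hf1⟩ := hf
  refine ⟨?_, ⟨C * (P.σ n).real univ, fun x hx => ?_⟩, fun x hx => ?_⟩
  · have h2 := P.meas n
    exact (StronglyMeasurable.integral_prod_right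
      (f := fun (x : ℝ) (t : UI) => f (x + t) * P.h n t)
      (by fun_prop : Measurable _).stronglyMeasurable).measurable
  · refine norm_integral_le_of_norm_le_const (Eventually.of_forall fun t => ?_)
    rw [norm_mul, P.norm1, mul_one]
    exact hC _ (add_nonneg hx t.2.1)
  · have : ∀ t : UI, f (x + t) = 0 := fun t => hf1 _ (by linarith [t.2.1])
    simp [R, this]

theorem tst_shift {f : ℝ → ℂ} (hf : Tst f) {x : ℝ} (hx : 0 ≤ x) : Tst fun y => f (x + y) := by
  obtain ⟨hf, ⟨C, hC⟩, hf1⟩ := hf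
  exact ⟨by fun_prop, ⟨C, fun y hy => hC _ (add_nonneg hx hy)⟩, fun y hy => hf1 _ (by linarith)⟩

theorem tst_id_mul {f : ℝ → ℂ} (hf : Tst f) : Tst fun y => (y : ℂ) * f y := by
  obtain ⟨hf, ⟨C, hC⟩, hf1⟩ := hf
  refine ⟨by fun_prop, ⟨C, fun y hy => ?_⟩, fun y hy => by simp [hf1 y hy]⟩
  rcases le_total y 1 with h | h
  · rw [norm_mul, Complex.norm_real, Real.norm_eq_abs, abs_of_nonneg hy]
    exact (mul_le_of_le_one_left (norm_nonneg _) h).trans (hC y hy)
  · simpa [hf1 y h] using (norm_nonneg _).trans (hC y hy)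

theorem R_add (m n : ℕ) {f : ℝ → ℂ} (hf : Tst f) {x : ℝ} (hx : 0 ≤ x) :
    P.R (m + n) f x = P.R m (P.R n f) x := by
  have h1 := P.conv m n _ (tst_shift hf hx)
  obtain ⟨hf, ⟨C, hC⟩, -⟩ := hf
  rw [P.iter m n (F := fun p => f (x + (p.1 + p.2))) (by fun_prop) (C := C)
    fun p => hC _ (add_nonneg hx (add_nonneg p.1.2.1 p.2.2.1))] at h1
  simpa only [R, add_assoc] using h1

theorem norm_coe_le (s : UI) : ‖((s : ℝ) : ℂ)‖ ≤ 1 := by
  rw [Complex.norm_real, Real.norm_eq_abs, abs_of_nonneg s.2.1]; exact s.2.2.le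

/-- The mixed first moment. -/
noncomputable def A (m n : ℕ) (f : ℝ → ℂ) : ℂ :=
  ∫ p : UI × UI, ((p.1 : ℝ) * f (p.1 + p.2)) * (P.h m p.1 * P.h n p.2) ∂(P.σ m).prod (P.σ n)

theorem bdd_A {f : ℝ → ℂ} {C : ℝ} (hC : ∀ x, 0 ≤ x → ‖f x‖ ≤ C) (s a b : UI) :
    ‖((s : ℝ) : ℂ) * f (a + b)‖ ≤ C := by
  rw [norm_mul]
  exact (mul_le_of_le_one_left (norm_nonneg _) (norm_coe_le s)).trans
    (hC _ (add_nonneg a.2.1 b.2.1))

theorem A_eq (m n : ℕ) {f : ℝ → ℂ} (hf : Tst f) :
    P.A m n f = ∫ s : UI, ((s : ℝ) * P.R n f s) * P.h m s ∂P.σ m := by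
  obtain ⟨hf, ⟨C, hC⟩, -⟩ := hf
  rw [A, P.iter m n (F := fun p => (p.1 : ℝ) * f (p.1 + p.2)) (by fun_prop) (C := C)
    fun p => bdd_A hC _ _ _]
  simp only [R, mul_assoc, integral_const_mul]

theorem A_add_A (m n : ℕ) {f : ℝ → ℂ} (hf : Tst f) :
    P.A m n f + P.A n m f = ∫ s : UI, ((s : ℝ) * f s) * P.h (m + n) s ∂P.σ (m + n) := by
  rw [P.conv m n _ (tst_id_mul hf)]
  obtain ⟨hf, ⟨C, hC⟩, -⟩ := hf
  rw [A, A, P.swap2 n m, ← integral_add]
  · congr 1
    funext p
    simp only [Prod.fst_swap, Prod.snd_swap, add_comm (p.2 : ℝ)]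
    push_cast
    ring
  · exact P.int2 m n (F := fun p => (p.1 : ℝ) * f (p.1 + p.2)) (by fun_prop) (C := C)
      fun p => bdd_A hC _ _ _
  · exact P.int2 m n (F := fun p => (p.2 : ℝ) * f (p.2 + p.1)) (by fun_prop) (C := C)
      fun p => bdd_A hC _ _ _

theorem A_R (m m' n : ℕ) {f : ℝ → ℂ} (hf : Tst f) :
    P.A m m' (P.R n f) = P.A m (m' + n) f := by
  rw [P.A_eq _ _ (P.tst_R n hf), P.A_eq _ _ hf]
  congr 1
  funext s
  rw [P.R_add m' n hf s.2.1]

theorem A_add (m m' n : ℕ) {f : ℝ → ℂ} (hf : Tst f) :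
    P.A (m + m') n f = P.A m (m' + n) f + P.A m' (m + n) f := by
  rw [P.A_eq _ _ hf, ← P.A_add_A m m' (P.tst_R n hf), P.A_R _ _ _ hf, P.A_R _ _ _ hf]

theorem A_succ (m n : ℕ) {f : ℝ → ℂ} (hf : Tst f) :
    P.A (m + 1) n f = (m + 1) * P.A 1 (m + n) f := by
  induction m generalizing n with
  | zero => simp
  | succ m ih =>
    rw [P.A_add (m + 1) 1 n hf, ih, show m + (1 + n) = m + 1 + n by ring]
    push_cast
    ring

theorem A_symm {m n : ℕ} (hm : 1 ≤ m) (hn : 1 ≤ n) {f : ℝ → ℂ} (hf : Tst f) :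
    (n : ℂ) * P.A m n f = m * P.A n m f := by
  obtain ⟨m, rfl⟩ := Nat.exists_eq_add_of_le' hm
  obtain ⟨n, rfl⟩ := Nat.exists_eq_add_of_le' hn
  rw [P.A_succ m (n + 1) hf, P.A_succ n (m + 1) hf, show n + (m + 1) = m + (n + 1) by ring]
  push_cast
  ring

/-- The basic identity coming from the derivation. -/
theorem deriv_id {m n : ℕ} (hm : 1 ≤ m) (hn : 1 ≤ n) {f : ℝ → ℂ} (hf : Tst f) :
    ∫ p : UI × UI, (((n : ℂ) * (p.1 : ℝ) - m * (p.2 : ℝ)) * f (p.1 + p.2)) *
      (P.h m p.1 * P.h n p.2) ∂(P.σ m).prod (P.σ n) = 0 := by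
  have h := P.A_symm hm hn hf
  obtain ⟨hf, ⟨C, hC⟩, -⟩ := hf
  rw [A, A, P.swap2 n m, ← integral_const_mul, ← integral_const_mul, ← sub_eq_zero,
    ← integral_sub] at h
  · rw [← h]
    congr 1
    funext p
    simp only [Prod.fst_swap, Prod.snd_swap, add_comm (p.2 : ℝ)]
    ring
  · exact (P.int2 m n (F := fun p => (p.1 : ℝ) * f (p.1 + p.2)) (by fun_prop) (C := C)
      fun p => bdd_A hC _ _ _).const_mul _
  · exact (P.int2 m n (F := fun p => (p.2 : ℝ) * f (p.2 + p.1)) (by fun_prop) (C := C)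
      fun p => bdd_A hC _ _ _).const_mul _

end Pw

end Pool.Agent.P.MP_f562c3_an
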