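import Pool.Agent.P.MP_f562c3_an.Nec1

open MeasureTheory Filter Topology Set Complex
open scoped ENNReal

namespace Pool.Agent.P.MP_f562c3_an

theorem norm_exp_mul_le (z : ℂ) (s : UI) : ‖exp (z * (s : ℝ))‖ ≤ Real.exp ‖z‖ := by
  refine (norm_exp_le_exp_norm _).trans (Real.exp_le_exp.2 ?_)
  rw [norm_mul]
  exact mul_le_of_le_one_right (norm_nonneg _) (Pw.norm_coe_le s)

theorem int_exp {σ : Measure UI} [IsFiniteMeasure σ] {g : UI → ℂ} (hg : Measurable g)
    (hb : ∀ s, ‖g s‖ ≤ 1) (z : ℂ) : Integrable (fun s : UI => exp (z * (s : ℝ)) * g s) σ :=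
  Integrable.of_bound (by fun_prop : Measurable _).aestronglyMeasurable (Real.exp ‖z‖)
    (Eventually.of_forall fun s => by
      rw [norm_mul]
      exact (mul_le_of_le_one_right (norm_nonneg _) (hb s)).trans (norm_exp_mul_le z s))

theorem uniq_real {σ : Measure UI} [IsFiniteMeasure σ] {g : UI → ℝ} (hg : Measurable g)
    (hb : ∀ s, |g s| ≤ 1) (H : ∀ z : ℂ, ∫ s : UI, exp (z * (s : ℝ)) * g s ∂σ = 0) :
    ∀ᵐ s ∂σ, g s = 0 := by
  let d : UI → NNReal := fun s => (1 + g s).toNNReal
  have hd : Measurable d := by fun_prop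
  have hdc : ∀ s, (d s : ℝ) = 1 + g s := fun s =>
    Real.coe_toNNReal _ (by linarith [(abs_le.1 (hb s)).1])
  have hfin : IsFiniteMeasure (σ.withDensity fun s => d s) := by
    refine isFiniteMeasure_withDensity (ne_of_lt ?_)
    calc ∫⁻ s, (d s : ℝ≥0∞) ∂σ ≤ ∫⁻ _, 2 ∂σ := lintegral_mono fun s => by
          have : d s ≤ 2 := by
            rw [← NNReal.coe_le_coe, hdc]
            simp only [NNReal.coe_ofNat]
            linarith [(abs_le.1 (hb s)).2]
          simpa using ENNReal.coe_le_coe.2 this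
      _ < ∞ := by
          rw [lintegral_const]
          exact ENNReal.mul_lt_top (by simp) (measure_lt_top _ _)
  have hemb : MeasurableEmbedding (Subtype.val : UI → ℝ) :=
    MeasurableEmbedding.subtype_coe measurableSet_Ico
  have heq : (σ.withDensity fun s => d s).map Subtype.val = σ.map Subtype.val := by
    refine Measure.ext_of_charFun (funext fun t => ?_)
    rw [charFun_apply_real, charFun_apply_real, hemb.integral_map, hemb.integral_map,
      integral_withDensity_eq_integral_smul hd]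
    have h1 := int_exp (σ := σ) (g := fun _ => 1) measurable_const (by simp) (t * I)
    have h2 := int_exp (σ := σ) (g := fun s => g s) (by fun_prop)
      (fun s => by simpa using hb s) (t * I)
    have h3 := integral_add h1 h2
    rw [H, add_zero] at h3
    convert h3 using 3 with s s
    · rw [NNReal.smul_def, hdc, real_smul]
      push_cast
      ring_nf
    · ring_nf
  have heq2 := hemb.map_injective heq
  have h1 : (fun s => (d s : ℝ≥0∞)) =ᵐ[σ] 1 := by
    rw [← withDensity_eq_iff_of_sigmaFinite (by fun_prop) (by fun_prop), heq2, withDensity_one]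
  filter_upwards [h1] with s hs
  have : d s = 1 := ENNReal.coe_eq_one.1 hs
  have := hdc s
  simp_all

theorem uniq {σ : Measure UI} [IsFiniteMeasure σ] {g : UI → ℂ} (hg : Measurable g)
    (hb : ∀ s, ‖g s‖ ≤ 1) (H : ∀ z : ℂ, ∫ s : UI, exp (z * (s : ℝ)) * g s ∂σ = 0) :
    ∀ᵐ s ∂σ, g s = 0 := by
  have hc : Measurable fun s => (starRingEnd ℂ) (g s) := continuous_conj.measurable.comp hg
  have H' : ∀ z : ℂ, ∫ s : UI, exp (z * (s : ℝ)) * (starRingEnd ℂ) (g s) ∂σ = 0 := by
    intro z
    have := congrArg (starRingEnd ℂ) (H ((starRingEnd ℂ) z))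
    rw [← integral_conj, map_zero] at this
    simpa [← exp_conj] using this
  have i1 := int_exp (σ := σ) hg hb
  have i2 := int_exp (σ := σ) hc fun s => by simpa using hb s
  have hre := uniq_real (σ := σ) (g := fun s => (g s).re) (by fun_prop)
    (fun s => (abs_re_le_norm _).trans (hb s)) fun z => by
      have := integral_add (i1 z) (i2 z)
      rw [H, H', add_zero] at this
      simp only [← mul_add, add_conj, ofReal_mul, mul_left_comm _ ((2 : ℝ) : ℂ),
        integral_const_mul] at this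
      simpa using this
  have him := uniq_real (σ := σ) (g := fun s => (g s).im) (by fun_prop)
    (fun s => (abs_im_le_norm _).trans (hb s)) fun z => by
      have := integral_sub (i1 z) (i2 z)
      rw [H, H', sub_zero] at this
      simp only [← mul_sub, sub_conj, ofReal_mul, ← mul_assoc, integral_mul_const] at this
      simp only [mul_right_comm _ ((2 : ℝ) : ℂ), integral_mul_const] at this
      simpa using this
  filter_upwards [hre, him] with s h1 h2
  exact Complex.ext h1 h2

/-- The Laplace transform. -/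
noncomputable def lap (σ : Measure UI) (g : UI → ℂ) (z : ℂ) : ℂ :=
  ∫ s : UI, exp (z * (s : ℝ)) * g s ∂σ

theorem bd_mul {g : UI → ℂ} (hb : ∀ s, ‖g s‖ ≤ 1) (s : UI) : ‖((s : ℝ) : ℂ) * g s‖ ≤ 1 := by
  rw [norm_mul]
  exact mul_le_one₀ (Pw.norm_coe_le s) (norm_nonneg _) (hb s)

theorem hasDerivAt_lap {σ : Measure UI} [IsFiniteMeasure σ] {g : UI → ℂ} (hg : Measurable g)
    (hb : ∀ s, ‖g s‖ ≤ 1) (z : ℂ) :
    HasDerivAt (lap σ g) (lap σ (fun s => (s : ℝ) * g s) z) z := by
  refine (hasDerivAt_integral_of_dominated_loc_of_deriv_le (μ := σ) (s := Metric.ball z 1)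
    (F := fun z (s : UI) => exp (z * (s : ℝ)) * g s)
    (F' := fun z (s : UI) => exp (z * (s : ℝ)) * ((s : ℝ) * g s))
    (bound := fun _ => Real.exp (‖z‖ + 1)) (Metric.ball_mem_nhds z one_pos)
    (Eventually.of_forall fun x => (int_exp hg hb x).aestronglyMeasurable) (int_exp hg hb z)
    (int_exp (by fun_prop) (bd_mul hb) z).aestronglyMeasurable ?_ (integrable_const _) ?_).2
  · filter_upwards with s x hx
    rw [norm_mul]
    refine (mul_le_of_le_one_right (norm_nonneg _) (bd_mul hb s)).trans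
      ((norm_exp_mul_le x s).trans (Real.exp_le_exp.2 ?_))
    have := mem_ball_iff_norm.1 hx
    linarith [norm_le_insert' x z]
  · filter_upwards with s x _
    refine ((((hasDerivAt_id x).mul_const ((s : ℝ) : ℂ)).cexp).mul_const (g s)).congr_deriv ?_
    simp only [id]
    ring

theorem norm_lap_le {σ : Measure UI} [IsFiniteMeasure σ] {g : UI → ℂ}
    (hb : ∀ s, ‖g s‖ ≤ 1) (z : ℂ) {B : ℝ} (hB : ∀ᵐ s : UI ∂σ, z.re * s ≤ B) :
    ‖lap σ g z‖ ≤ Real.exp B * σ.real univ := by
  refine norm_integral_le_of_norm_le_const ?_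
  filter_upwards [hB] with s hs
  rw [norm_mul, norm_exp]
  refine (mul_le_of_le_one_right (Real.exp_pos _).le (hb s)).trans (Real.exp_le_exp.2 ?_)
  simpa using hs

theorem pow_eq_of_ode {F G F' G' : ℂ → ℂ} (hF : ∀ z, HasDerivAt F (F' z) z)
    (hG : ∀ z, HasDerivAt G (G' z) z) {a b : ℕ}
    (H : ∀ z, (a + 1 : ℂ) * F' z * G z = (b + 1) * F z * G' z) {z0 : ℂ} (h0 : G z0 ≠ 0) :
    ∃ c : ℂ, ∀ z, F z ^ (a + 1) = c * G z ^ (b + 1) := by
  have dF : Differentiable ℂ F := fun z => (hF z).differentiableAt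
  have dG : Differentiable ℂ G := fun z => (hG z).differentiableAt
  obtain ⟨r, hr, hne⟩ := Metric.eventually_nhds_iff_ball.1
    (dG.continuous.continuousAt.eventually_ne h0)
  have hd : ∀ z ∈ Metric.ball z0 r, HasDerivAt (fun z => F z ^ (a + 1) / G z ^ (b + 1)) 0 z := by
    intro z hz
    refine (((hF z).pow (a + 1)).div ((hG z).pow (b + 1))
      (pow_ne_zero _ (hne z hz))).congr_deriv ?_
    rw [div_eq_zero_iff]
    left
    simp only [Nat.add_sub_cancel, Pi.pow_apply]
    push_cast
    linear_combination F z ^ a * G z ^ b * H z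
  obtain ⟨c, hc⟩ := Metric.isOpen_ball.exists_is_const_of_deriv_eq_zero (𝕜 := ℂ)
    (convex_ball z0 r).isPreconnected
    (fun z hz => (hd z hz).differentiableAt.differentiableWithinAt) fun z hz => (hd z hz).deriv
  refine ⟨c, fun z => ?_⟩
  have a1 : AnalyticOnNhd ℂ (fun z => F z ^ (a + 1)) univ :=
    analyticOnNhd_univ_iff_differentiable.2 (dF.pow _)
  have a2 : AnalyticOnNhd ℂ (fun z => c * G z ^ (b + 1)) univ :=
    analyticOnNhd_univ_iff_differentiable.2 ((dG.pow _).const_mul c)
  refine congrFun (a1.eq_of_eventuallyEq a2 (z₀ := z0) ?_) z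
  filter_upwards [Metric.ball_mem_nhds z0 hr] with y hy
  rw [← hc y hy, div_mul_cancel₀ _ (pow_ne_zero _ (hne y hy))]

theorem lap_deriv_zero {σ : Measure UI} [IsFiniteMeasure σ] {g : UI → ℂ} (hg : Measurable g)
    (hb : ∀ s, ‖g s‖ ≤ 1)
    (H : ∀ ε > 0, ∃ C, ∀ x : ℝ, 0 ≤ x → ‖lap σ g x‖ ≤ C * Real.exp (ε * x)) :
    ∀ᵐ s : UI ∂σ, ((s : ℝ) : ℂ) * g s = 0 := by
  have dF : Differentiable ℂ (lap σ g) := fun z => (hasDerivAt_lap hg hb z).differentiableAt
  have hleft : ∀ z : ℂ, z.re ≤ 0 → ‖lap σ g z‖ ≤ σ.real univ := fun z hz => by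
    simpa using norm_lap_le (σ := σ) hb z (B := 0)
      (Eventually.of_forall fun s => mul_nonpos_of_nonpos_of_nonneg hz s.2.1)
  have hright : ∀ z : ℂ, 0 ≤ z.re → ‖lap σ g z‖ ≤ σ.real univ := by
    intro z hz
    have key : ∀ ε : ℝ, 0 < ε → ‖lap σ g z * exp (-ε * z)‖ ≤ σ.real univ := by
      intro ε hε
      obtain ⟨C, hC⟩ := H ε hε
      refine PhragmenLindelof.right_half_plane_of_bounded_on_real
        (f := fun z => lap σ g z * exp (-ε * z)) (Differentiable.diffContOnCl (by fun_prop))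
        ⟨1, one_lt_two, 1, Asymptotics.IsBigO.of_bound (σ.real univ) ?_⟩ ⟨C, ?_⟩ (fun x => ?_) hz
      · refine eventually_inf_principal.2 (Eventually.of_forall fun y hy => ?_)
        have hy' : 0 < y.re := hy
        rw [norm_mul, norm_exp, Real.rpow_one, one_mul, Real.norm_eq_abs, Real.abs_exp]
        have h1 : Real.exp (-ε * y).re ≤ 1 := by
          rw [Real.exp_le_one_iff]
          simp only [neg_mul, neg_re, re_ofReal_mul, Left.neg_nonpos_iff]
          positivity
        refine (mul_le_of_le_one_right (norm_nonneg _) h1).trans ?_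
        rw [mul_comm]
        refine norm_lap_le hb y (Eventually.of_forall fun s => ?_)
        exact (mul_le_of_le_one_right hy'.le s.2.2.le).trans (re_le_norm y)
      · rw [eventually_map]
        filter_upwards [eventually_ge_atTop 0] with x hx
        rw [norm_mul, norm_exp]
        have : (-ε * (x : ℂ)).re = -(ε * x) := by simp
        rw [this, Real.exp_neg, ← div_eq_mul_inv, div_le_iff₀ (Real.exp_pos _)]
        exact hC x hx
      · rw [norm_mul, norm_exp]
        simpa using hleft (x * I) (by simp)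
    have ht : Tendsto (fun ε : ℝ => ‖lap σ g z * exp (-ε * z)‖) (𝓝[>] 0) (𝓝 ‖lap σ g z‖) :=
      Tendsto.mono_left (Continuous.tendsto' (by fun_prop) _ _ (by simp)) nhdsWithin_le_nhds
    exact le_of_tendsto ht (by filter_upwards [self_mem_nhdsWithin] with ε hε using key ε hε)
  have hbd : Bornology.IsBounded (range (lap σ g)) := by
    refine isBounded_iff_forall_norm_le.2 ⟨σ.real univ, ?_⟩
    rintro _ ⟨z, rfl⟩
    rcases le_total z.re 0 with h | h
    exacts [hleft z h, hright z h]
  obtain ⟨c, hc⟩ := dF.exists_eq_const_of_bounded hbd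
  refine uniq (by fun_prop) (bd_mul hb) fun z => ?_
  have h1 := hasDerivAt_lap (σ := σ) hg hb z
  rw [hc] at h1
  exact h1.unique (hasDerivAt_const z c)

end Pool.Agent.P.MP_f562c3_an
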