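import Pool.Agent.P.MP_f562c3_an.Nec2

open MeasureTheory Filter Topology Set Complex
open scoped ENNReal

namespace Pool.Agent.P.MP_f562c3_an

/-- The point zero. -/
def zeroUI : UI := ⟨0, le_rfl, zero_lt_one⟩

theorem support_of_exp {σ τ : Measure UI} [IsFiniteMeasure σ] [IsFiniteMeasure τ]
    (hτ : 0 < τ.real univ) {m n β c : ℝ} (hm : 0 ≤ m) (hn : 0 < n) (hβ0 : 0 ≤ β)
    (H : ∀ θ : ℝ, ∫ p : UI × UI, (n * p.1 - m * p.2) * Real.exp (θ * (p.1 + p.2)) ∂σ.prod τ = 0)
    (hβ : ∀ᵐ t : UI ∂τ, (t : ℝ) ≤ β) (hc : m * β / n < c) : σ {s | c ≤ (s : ℝ)} = 0 := by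
  set γ := m * β / n with hγ
  have hγ0 : 0 ≤ γ := by positivity
  have hA : MeasurableSet {s : UI | c ≤ (s : ℝ)} := measurableSet_le measurable_const (by fun_prop)
  have habs : ∀ s : UI, |(s : ℝ)| ≤ 1 := fun s => by rw [abs_of_nonneg s.2.1]; exact s.2.2.le
  have key : ∀ θ : ℝ, 0 ≤ θ →
      (c - γ) * Real.exp (θ * (c - γ)) * σ.real {s | c ≤ (s : ℝ)} ≤ γ * σ.real univ := by
    intro θ hθ
    have hexp : ∀ s : UI, Real.exp (θ * s) ≤ Real.exp θ := fun s =>
      Real.exp_le_exp.2 (mul_le_of_le_one_right hθ s.2.2.le)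
    have i1 : Integrable (fun s : UI => (s - γ) * Real.exp (θ * s)) σ :=
      Integrable.of_bound (by fun_prop : Measurable _).aestronglyMeasurable
        ((1 + γ) * Real.exp θ) (Eventually.of_forall fun s => by
          rw [norm_mul, Real.norm_eq_abs, Real.norm_eq_abs, Real.abs_exp]
          gcongr
          · exact (abs_sub _ _).trans (by rw [abs_of_nonneg hγ0]; linarith [habs s])
          · exact mul_le_of_le_one_right hθ s.2.2.le)
    have i2 : Integrable (fun t : UI => n * Real.exp (θ * t)) τ :=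
      Integrable.of_bound (by fun_prop : Measurable _).aestronglyMeasurable
        (n * Real.exp θ) (Eventually.of_forall fun s => by
          rw [norm_mul, Real.norm_eq_abs, Real.norm_eq_abs, Real.abs_exp, abs_of_pos hn]
          exact mul_le_mul_of_nonneg_left (hexp s) hn.le)
    have i3 : Integrable (fun p : UI × UI => (n * p.1 - m * p.2) * Real.exp (θ * (p.1 + p.2)))
        (σ.prod τ) :=
      Integrable.of_bound (by fun_prop : Measurable _).aestronglyMeasurable
        ((n + m) * (Real.exp θ * Real.exp θ)) (Eventually.of_forall fun p => by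
          rw [norm_mul, Real.norm_eq_abs, Real.norm_eq_abs, Real.abs_exp, mul_add, Real.exp_add]
          gcongr
          · refine (abs_sub _ _).trans ?_
            rw [abs_mul, abs_mul, abs_of_pos hn, abs_of_nonneg hm]
            exact add_le_add (mul_le_of_le_one_right hn.le (habs _))
              (mul_le_of_le_one_right hm (habs _))
          · exact mul_le_of_le_one_right hθ p.1.2.2.le
          · exact mul_le_of_le_one_right hθ p.2.2.2.le)
    have h1 : (∫ s : UI, (s - γ) * Real.exp (θ * s) ∂σ) * ∫ t : UI, n * Real.exp (θ * t) ∂τ ≤ 0 := by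
      rw [← integral_prod_mul]
      refine (integral_mono_ae (i1.mul_prod i2) i3 ?_).trans (H θ).le
      filter_upwards [Measure.quasiMeasurePreserving_snd.ae hβ] with p hp
      rw [mul_add, Real.exp_add]
      have e : (p.1 - γ) * Real.exp (θ * p.1) * (n * Real.exp (θ * p.2)) =
          (n * p.1 - m * β) * (Real.exp (θ * p.1) * Real.exp (θ * p.2)) := by
        rw [hγ]; field_simp
      rw [e]
      gcongr
    have h2 : 0 < ∫ t : UI, n * Real.exp (θ * t) ∂τ := by
      refine lt_of_lt_of_le (mul_pos hτ hn) ?_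
      rw [← smul_eq_mul, ← integral_const]
      refine integral_mono (integrable_const _) i2 fun t => ?_
      exact le_mul_of_one_le_right hn.le (Real.one_le_exp (mul_nonneg hθ t.2.1))
    have h3 : ∫ s : UI, (s - γ) * Real.exp (θ * s) ∂σ ≤ 0 := nonpos_of_mul_nonpos_left h1 h2
    have h4 : ∫ s : UI, ({s : UI | c ≤ (s : ℝ)}.indicator
        (fun _ => (c - γ) * Real.exp (θ * c)) s - γ * Real.exp (θ * γ)) ∂σ ≤ 0 := by
      refine le_trans (integral_mono (((integrable_const _).indicator hA).sub (integrable_const _))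
        i1 fun s => ?_) h3
      beta_reduce
      by_cases hs : c ≤ (s : ℝ)
      · rw [indicator_of_mem (by exact hs)]
        have : (c - γ) * Real.exp (θ * c) ≤ (s - γ) * Real.exp (θ * s) := by
          gcongr
          linarith
        have : 0 ≤ γ * Real.exp (θ * γ) := by positivity
        linarith
      · rw [indicator_of_notMem (by exact hs)]
        rcases le_total γ s with h | h
        · have : 0 ≤ γ * Real.exp (θ * γ) := by positivity
          have : 0 ≤ (s - γ) * Real.exp (θ * s) := mul_nonneg (sub_nonneg.2 h) (Real.exp_pos _).le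
          linarith
        · have : (γ - s) * Real.exp (θ * s) ≤ γ * Real.exp (θ * γ) := by
            gcongr
            linarith [s.2.1]
          linarith
    rw [integral_sub ((integrable_const _).indicator hA) (integrable_const _),
      integral_indicator_const _ hA, integral_const, smul_eq_mul, smul_eq_mul] at h4
    rw [mul_sub θ, Real.exp_sub, ← mul_div_assoc, div_mul_eq_mul_div,
      div_le_iff₀ (Real.exp_pos _)]
    linarith
  by_contra hne
  have hpos : 0 < σ.real {s | c ≤ (s : ℝ)} := ENNReal.toReal_pos hne (measure_ne_top _ _)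
  have hcγ : 0 < c - γ := sub_pos.2 hc
  have ht : Tendsto (fun θ : ℝ => (c - γ) * Real.exp (θ * (c - γ)) * σ.real {s | c ≤ (s : ℝ)})
      atTop atTop :=
    ((Real.tendsto_exp_atTop.comp (tendsto_id.atTop_mul_const hcγ)).const_mul_atTop
      hcγ).atTop_mul_const hpos
  obtain ⟨θ, h1, h2⟩ := ((ht.eventually_gt_atTop (γ * σ.real univ)).and
    (eventually_ge_atTop 0)).exists
  exact absurd (key θ h2) (not_le.2 h1)

namespace Pw

variable {w : ℕ → ℝ} (P : Pw w)

theorem atom_zero (hw : IsRadicalWeight w) {m : ℕ} (hm : 1 ≤ m) : P.σ m {zeroUI} = 0 := by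
  let f : ℝ → ℂ := ({0} : Set ℝ).indicator 1
  have hf : Tst f := ⟨measurable_const.indicator (measurableSet_singleton 0),
    ⟨1, fun x _ => by by_cases hx : x = 0 <;> simp [f, hx]⟩,
    fun x hx => indicator_of_notMem (by simp; linarith) _⟩
  let a : ℕ → ℂ := fun n => ∫ s : UI, f s * P.h n s ∂P.σ n
  have hadd : ∀ m n, a (m + n) = a m * a n := by
    intro m n
    simp only [a]
    rw [P.conv m n f hf, ← integral_prod_mul]
    congr 1
    funext p
    have h1 := p.1.2.1
    have h2 := p.2.2.1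
    by_cases e1 : (p.1 : ℝ) = 0
    · by_cases e2 : (p.2 : ℝ) = 0 <;> simp [f, e1, e2]
    · have : (p.1 : ℝ) + p.2 ≠ 0 := by
        have := lt_of_le_of_ne h1 (Ne.symm e1)
        positivity
      simp [f, e1, this]
  have hpow : ∀ n, a (n + 1) = a 1 ^ (n + 1) := by
    intro n
    induction n with
    | zero => simp
    | succ n ih => rw [hadd, ih, ← pow_succ]
  have hnorm : ∀ n, ‖a n‖ = (P.σ n).real {zeroUI} := by
    intro n
    have : (fun s : UI => f s * P.h n s) = ({zeroUI} : Set UI).indicator fun _ => P.h n zeroUI := by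
      funext s
      by_cases hs : s = zeroUI
      · subst hs; simp [f, zeroUI]
      · have : (s : ℝ) ≠ 0 := fun h => hs (Subtype.ext h)
        simp [f, hs, this]
    simp only [a]
    rw [this, integral_indicator_const _ (measurableSet_singleton _), norm_smul, P.norm1]
    simp
  have hle : ∀ n, ‖a 1‖ ≤ root w (n + 1) := by
    intro n
    have h1 : ‖a 1‖ ^ (n + 1) ≤ w (n + 1) := by
      rw [← norm_pow, ← hpow, hnorm, ← P.mass]
      exact measureReal_mono (subset_univ _)
    rw [root, one_div, ← Real.pow_rpow_inv_natCast (norm_nonneg (a 1)) (Nat.succ_ne_zero n)]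
    exact Real.rpow_le_rpow (by positivity) h1 (by positivity)
  have h0 : ‖a 1‖ ≤ 0 := ge_of_tendsto' (hw.2.2.2.comp (tendsto_add_atTop_nat 1)) hle
  obtain ⟨m, rfl⟩ := Nat.exists_eq_add_of_le' hm
  have := hnorm (m + 1)
  rw [hpow, norm_le_zero_iff.1 h0, zero_pow (Nat.succ_ne_zero m), norm_zero] at this
  exact (measureReal_eq_zero_iff (measure_ne_top _ _)).1 this.symm

theorem not_ae_zero (hw : IsRadicalWeight w) {m : ℕ} (hm : 1 ≤ m)
    (H : ∀ᵐ s : UI ∂P.σ m, (s : ℝ) = 0) : False := by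
  have h1 : ∀ᵐ s : UI ∂P.σ m, s ∉ ({zeroUI} : Set UI) :=
    measure_eq_zero_iff_ae_notMem.1 (P.atom_zero hw hm)
  have h2 : ∀ᵐ s : UI ∂P.σ m, s ∉ (univ : Set UI) := by
    filter_upwards [H, h1] with s hs hs'
    exact absurd (Subtype.ext hs) hs'
  have h3 := P.mass m
  rw [Measure.real, measure_eq_zero_iff_ae_notMem.2 h2] at h3
  exact (hw.1 m).ne (by simpa using h3)

theorem eq_case {m n : ℕ} (hm : 1 ≤ m) (hn : 1 ≤ n) (he : w (m + n) = w m * w n) :
    (∀ᵐ p : UI × UI ∂(P.σ m).prod (P.σ n), (p.1 : ℝ) + p.2 < 1) ∧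
    ∀ θ : ℝ, ∫ p : UI × UI, ((n : ℝ) * p.1 - (m : ℝ) * p.2) * Real.exp (θ * (p.1 + p.2))
      ∂(P.σ m).prod (P.σ n) = 0 := by
  let f : ℝ → ℂ := (Iio 1).indicator fun x => (starRingEnd ℂ) (P.h (m + n) (toUI x))
  have hfm : Measurable f := (continuous_conj.measurable.comp
    ((P.meas _).comp measurable_toUI)).indicator measurableSet_Iio
  have hfb : ∀ x, ‖f x‖ ≤ 1 := fun x =>
    (norm_indicator_le_norm_self _ _).trans (by rw [RCLike.norm_conj, P.norm1])
  have hf1 : ∀ x, 1 ≤ x → f x = 0 := fun x hx => indicator_of_notMem (by simpa using hx) _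
  have h1 := P.conv m n f ⟨hfm, ⟨1, fun x _ => hfb x⟩, hf1⟩
  have e1 : (fun s : UI => f s * P.h (m + n) s) = fun _ => 1 := by
    funext s
    simp only [f]
    rw [indicator_of_mem (by exact s.2.2), toUI_of_mem s.2, conj_mul', P.norm1]
    simp
  let g : UI × UI → ℂ := fun p => f (p.1 + p.2) * (P.h m p.1 * P.h n p.2)
  have ig : Integrable g ((P.σ m).prod (P.σ n)) :=
    P.int2 m n (F := fun p => f (p.1 + p.2)) (by fun_prop) fun p => hfb _
  have gb : ∀ p, ‖g p‖ ≤ 1 := fun p => by
    simp only [g, norm_mul, P.norm1, mul_one]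
    exact hfb _
  have igr : Integrable (fun p => (g p).re) ((P.σ m).prod (P.σ n)) := ig.re
  rw [e1, integral_const, P.mass, he] at h1
  have h2 : ∫ p, (1 - (g p).re) ∂(P.σ m).prod (P.σ n) = 0 := by
    have h3 := integral_re ig
    simp only [RCLike.re_to_complex] at h3
    rw [integral_sub (integrable_const _) igr, h3, ← h1, integral_const, ← univ_prod_univ,
      measureReal_prod_prod, P.mass, P.mass]
    simp
  rw [integral_eq_zero_iff_of_nonneg (fun p => sub_nonneg.2 ((re_le_norm _).trans (gb p)))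
    ((integrable_const _).sub igr)] at h2
  have h3 : ∀ᵐ p ∂(P.σ m).prod (P.σ n), g p = 1 := by
    filter_upwards [h2] with p hp
    have h4 : (g p).re = 1 := (sub_eq_zero.1 hp).symm
    have h5 := gb p
    have h6 := sq_norm_sub_sq_re (g p)
    have h7 := norm_nonneg (g p)
    exact Complex.ext h4 (by rw [one_im]; nlinarith)
  constructor
  · filter_upwards [h3] with p hp
    by_contra hlt
    simp [g, hf1 _ (not_lt.1 hlt)] at hp
  · intro θ
    have h4 := P.deriv_id hm hn (f := fun x => f x * Real.exp (θ * x))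
      ⟨by fun_prop, ⟨Real.exp |θ|, fun x hx => ?_⟩, fun x hx => by simp [hf1 x hx]⟩
    · rw [← ofReal_eq_zero, ← integral_complex_ofReal, ← h4]
      refine integral_congr_ae ?_
      filter_upwards [h3] with p hp
      simp only [g] at hp
      push_cast
      linear_combination (-((n : ℂ) * (p.1 : ℝ) - m * (p.2 : ℝ)) *
        exp (θ * ((p.1 : ℝ) + (p.2 : ℝ)))) * hp
    · rcases le_total x 1 with h | h
      · rw [norm_mul, norm_real, Real.norm_eq_abs, Real.abs_exp]
        refine (mul_le_of_le_one_left (Real.exp_pos _).le (hfb x)).trans (Real.exp_le_exp.2 ?_)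
        exact (mul_le_mul_of_nonneg_right (le_abs_self θ) hx).trans
          (mul_le_of_le_one_right (abs_nonneg _) h)
      · simp [hf1 x h, (Real.exp_pos _).le]

theorem mass_pos (hw : IsRadicalWeight w) (n : ℕ) : 0 < (P.σ n).real univ := by
  rw [P.mass]; exact hw.1 n

include P in
theorem finite_fibre (hw : IsRadicalWeight w) {m : ℕ} (hm : 1 ≤ m) :
    {n | 1 ≤ n ∧ w (m + n) = w m * w n}.Finite := by
  by_contra hinf
  refine P.not_ae_zero hw hm ?_
  have : ∀ k : ℕ, ∀ᵐ s : UI ∂P.σ m, (s : ℝ) < 1 / (k + 1) := by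
    intro k
    obtain ⟨n, ⟨hn, he⟩, hlt⟩ := Set.Infinite.exists_gt hinf (m * (k + 1))
    have hn' : (0 : ℝ) < n := by exact_mod_cast hn
    have := support_of_exp (P.mass_pos hw n) (Nat.cast_nonneg m) hn' zero_le_one
      (P.eq_case hm hn he).2 (Eventually.of_forall fun t => t.2.2.le) (c := 1 / (k + 1)) (by
        rw [mul_one, div_lt_div_iff₀ hn' (by positivity), one_mul]
        exact_mod_cast hlt)
    filter_upwards [measure_eq_zero_iff_ae_notMem.1 this] with s hs
    exact not_le.1 hs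
  filter_upwards [ae_all_iff.2 this] with s hs
  exact le_antisymm (ge_of_tendsto' tendsto_one_div_add_atTop_nhds_zero_nat fun k => (hs k).le)
    s.2.1

theorem half_of_eq (hw : IsRadicalWeight w) {m n : ℕ} (hm : 1 ≤ m) (hmn : m ≤ n)
    (he : w (m + n) = w m * w n) : P.σ m {s | 1 / 2 ≤ (s : ℝ)} = 0 := by
  have hn : 1 ≤ n := hm.trans hmn
  obtain ⟨h1, h2⟩ := P.eq_case hm hn he
  have h3 : P.σ m {s | 1 / 2 ≤ (s : ℝ)} * P.σ n {s | 1 / 2 ≤ (s : ℝ)} = 0 := by
    rw [← Measure.prod_prod]
    refine measure_eq_zero_iff_ae_notMem.2 ?_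
    filter_upwards [h1] with p hp hq
    have a1 : 1 / 2 ≤ (p.1 : ℝ) := hq.1
    have a2 : 1 / 2 ≤ (p.2 : ℝ) := hq.2
    linarith
  rcases mul_eq_zero.1 h3 with h | h
  · exact h
  rcases hmn.eq_or_lt with rfl | hlt
  · exact h
  have hn' : (0 : ℝ) < n := by exact_mod_cast hn
  refine support_of_exp (P.mass_pos hw n) (Nat.cast_nonneg m) hn' (β := 1 / 2) (by norm_num) h2
    ?_ ?_
  · filter_upwards [measure_eq_zero_iff_ae_notMem.1 h] with s hs
    exact (not_le.1 hs).le
  · have : (m : ℝ) < n := by exact_mod_cast hlt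
    rw [div_lt_iff₀ hn']
    linarith

theorem finite_half (hw : IsRadicalWeight w) :
    {m | 1 ≤ m ∧ P.σ m {s | 1 / 2 ≤ (s : ℝ)} = 0}.Finite := by
  by_contra hinf
  obtain ⟨m, hm, hm2⟩ := Set.Infinite.nonempty hinf
  have hb : ∀ n s, ‖P.h n s‖ ≤ 1 := fun n s => (P.norm1 n s).le
  have hne : ∀ n s, P.h n s ≠ 0 := fun n s => norm_ne_zero_iff.1 (by rw [P.norm1]; simp)
  refine P.not_ae_zero hw hm ?_
  have := lap_deriv_zero (σ := P.σ m) (P.meas m) (hb m) ?_
  · filter_upwards [this] with s hs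
    simpa [hne] using hs
  intro ε hε
  obtain ⟨n, ⟨hn, hn2⟩, hlt⟩ := Set.Infinite.exists_gt hinf ⌈m / ε⌉₊
  have hn' : (0 : ℝ) < n := by exact_mod_cast hn
  have hmε : (m : ℝ) ≤ ε * n := by
    rw [mul_comm, ← div_le_iff₀ hε]
    exact (Nat.le_ceil _).trans (by exact_mod_cast hlt.le)
  have hG : ∃ z0, lap (P.σ n) (P.h n) z0 ≠ 0 := by
    by_contra hall
    push Not at hall
    refine P.not_ae_zero hw hn ?_
    filter_upwards [uniq (P.meas n) (hb n) hall] with s hs
    exact absurd hs (hne n s)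
  obtain ⟨z0, hz0⟩ := hG
  have hm1 := P.meas m
  have hn1 := P.meas n
  have hode : ∀ z, (n : ℂ) * lap (P.σ m) (fun s => (s : ℝ) * P.h m s) z * lap (P.σ n) (P.h n) z =
      m * lap (P.σ m) (P.h m) z * lap (P.σ n) (fun s => (s : ℝ) * P.h n s) z := by
    intro z
    have h4 := P.deriv_id hm hn (f := (Iio 1).indicator fun x => exp (z * x))
      ⟨Measurable.indicator (by fun_prop) measurableSet_Iio, ⟨Real.exp ‖z‖, fun x hx => ?_⟩,
        fun x hx => indicator_of_notMem (by simpa using hx) _⟩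
    · have i1 := (int_exp (σ := P.σ m) (g := fun s => (s : ℝ) * P.h m s) (by fun_prop)
        (bd_mul (hb m)) z).mul_prod (int_exp (σ := P.σ n) hn1 (hb n) z)
      have i2 := (int_exp (σ := P.σ m) hm1 (hb m) z).mul_prod
        (int_exp (σ := P.σ n) (g := fun s => (s : ℝ) * P.h n s) (by fun_prop) (bd_mul (hb n)) z)
      simp only [lap]
      rw [mul_assoc, mul_assoc, ← integral_prod_mul, ← integral_prod_mul, ← integral_const_mul,
        ← integral_const_mul, ← sub_eq_zero, ← integral_sub (i1.const_mul _) (i2.const_mul _), ← h4]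
      refine integral_congr_ae ?_
      filter_upwards [Measure.quasiMeasurePreserving_fst.ae (measure_eq_zero_iff_ae_notMem.1 hm2),
        Measure.quasiMeasurePreserving_snd.ae (measure_eq_zero_iff_ae_notMem.1 hn2)] with p h1 h2
      have a1 : (p.1 : ℝ) < 1 / 2 := not_le.1 h1
      have a2 : (p.2 : ℝ) < 1 / 2 := not_le.1 h2
      rw [indicator_of_mem (show (p.1 : ℝ) + p.2 ∈ Iio 1 from by rw [mem_Iio]; linarith)]
      push_cast
      rw [mul_add z, exp_add]
      ring
    · rcases lt_or_ge x 1 with h | h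
      · rw [indicator_of_mem (show x ∈ Iio 1 from h)]
        exact norm_exp_mul_le z ⟨x, hx, h⟩
      · rw [indicator_of_notMem (by simpa using h), norm_zero]
        positivity
  obtain ⟨a, rfl⟩ := Nat.exists_eq_add_of_le' hn
  obtain ⟨b, rfl⟩ := Nat.exists_eq_add_of_le' hm
  obtain ⟨c, hc⟩ := pow_eq_of_ode (hasDerivAt_lap hm1 (hb _)) (hasDerivAt_lap hn1 (hb _))
    (a := a) (b := b) (by exact_mod_cast hode) hz0
  set K := ‖c‖ * (P.σ (a + 1)).real univ ^ (b + 1) with hK
  have hK0 : 0 ≤ K := by positivity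
  refine ⟨K + 1, fun x hx => ?_⟩
  refine le_of_pow_le_pow_left₀ (Nat.succ_ne_zero a) (by positivity) ?_
  have h1 := norm_lap_le (σ := P.σ (a + 1)) (hb (a + 1)) x (B := x)
    (Eventually.of_forall fun s => by simpa using mul_le_of_le_one_right hx s.2.2.le)
  rw [← norm_pow, hc, norm_mul, norm_pow, mul_pow]
  calc _ ≤ ‖c‖ * (Real.exp x * (P.σ (a + 1)).real univ) ^ (b + 1) := by gcongr
    _ = K * Real.exp x ^ (b + 1) := by rw [hK]; ring
    _ ≤ _ := by
      refine mul_le_mul ((le_add_of_nonneg_right zero_le_one).trans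
        (le_self_pow₀ (by linarith) (Nat.succ_ne_zero a))) ?_ (by positivity) (by positivity)
      rw [← Real.exp_nat_mul, ← Real.exp_nat_mul, Real.exp_le_exp, ← mul_assoc]
      exact mul_le_mul_of_nonneg_right (by rw [mul_comm]; exact hmε) hx

end Pw

theorem finite_eq {w : ℕ → ℝ} (hw : IsRadicalWeight w) (hE : Embeds w) :
    {p : ℕ × ℕ | 1 ≤ p.1 ∧ 1 ≤ p.2 ∧ w (p.1 + p.2) = w p.1 * w p.2}.Finite := by
  obtain ⟨P⟩ := exists_Pw hw.1 hE
  have h1 := (P.finite_half hw).biUnion (t := fun m =>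
    {m} ×ˢ {n | 1 ≤ n ∧ w (m + n) = w m * w n} ∪ {n | 1 ≤ n ∧ w (m + n) = w m * w n} ×ˢ {m})
    fun m hm => ((finite_singleton m).prod (P.finite_fibre hw hm.1)).union
      ((P.finite_fibre hw hm.1).prod (finite_singleton m))
  refine h1.subset ?_
  rintro ⟨m, n⟩ ⟨hm, hn, he⟩
  simp only [mem_iUnion]
  rcases le_total m n with h | h
  · exact ⟨m, ⟨hm, P.half_of_eq hw hm h he⟩, Or.inl ⟨rfl, hn, he⟩⟩
  · have he' : w (n + m) = w n * w m := by rw [add_comm, mul_comm]; exact he
    exact ⟨n, ⟨hn, P.half_of_eq hw hn h he'⟩, Or.inr ⟨⟨hm, he'⟩, rfl⟩⟩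

end Pool.Agent.P.MP_f562c3_an
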