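import Pool.Agent.P.MP_f562c3_an.Build
import Pool.Agent.P.MP_f562c3_an.Fixed

open MeasureTheory Filter Topology Set
open scoped ENNReal

namespace Pool.Agent.P.MP_f562c3_an

/-- Carrier sets. -/
def Car (L : ℕ → ℕ) (n : ℕ) (P : (Fin n → ℕ) → ℝ → Prop) : Set UI :=
  {x | ∃ w : Fin n → ℕ × Om, P (idx w) (Sg L w) ∧ SS L w = x}

theorem measurableSet_Car (L : ℕ → ℕ) (n : ℕ) (P : (Fin n → ℕ) → ℝ → Prop) :
    MeasurableSet (Car L n P) := by
  let mk : (Fin n → ℕ) → (Fin n → Om) → Fin n → ℕ × Om := fun ι ω l => (ι l, ω l)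
  have hmk : ∀ ι l, Continuous fun ω => mk ι ω l := fun ι l => by simp only [mk]; fun_prop
  have h1 : ∀ ι, Continuous fun ω => SS L (mk ι ω) := fun ι =>
    continuous_finset_sum _ fun l _ => (continuous_pos L).comp (hmk ι l)
  have h2 : ∀ ι, Continuous fun ω => Sg L (mk ι ω) := fun ι =>
    continuous_finset_prod _ fun l _ => (continuous_sgn L).comp (hmk ι l)
  have : Car L n P = Subtype.val ⁻¹' ⋃ ι, (fun ω => SS L (mk ι ω)) ''
      ((fun ω => Sg L (mk ι ω)) ⁻¹' ({s | P ι s} ∩ {1, -1})) := by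
    ext x
    simp only [Car, mem_setOf_eq, mem_preimage, mem_iUnion, mem_image, mem_inter_iff,
      mem_insert_iff, mem_singleton_iff]
    constructor
    · rintro ⟨w, hw1, hw2⟩
      exact ⟨idx w, fun l => (w l).2, ⟨hw1, Sg_eq L _⟩, hw2⟩
    · rintro ⟨ι, ω, ⟨hw1, -⟩, hw2⟩
      exact ⟨mk ι ω, hw1, hw2⟩
  rw [this]
  refine measurable_subtype_coe (MeasurableSet.iUnion fun ι => ?_)
  refine (IsCompact.image ?_ (h1 ι)).measurableSet
  refine (IsClosed.preimage (h2 ι) ?_).isCompact
  exact ((Set.toFinite _).subset inter_subset_right).isClosed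

theorem good_iff_of_ms {n : ℕ} {w w' : Fin n → ℕ × Om} (h : ms w = ms w') (hw : Good (idx w)) :
    Good (idx w') := by
  intro l
  obtain ⟨l', hl'⟩ := mem_ms.1 (h ▸ mem_ms.2 ⟨l, rfl⟩ : (w' l).1 ∈ ms w)
  have := hw l'
  simp only [idx] at this ⊢
  omega

theorem pre_good (L : ℕ → ℕ) (n : ℕ) (s : ℝ) :
    SS L ⁻¹' (Subtype.val '' Car L n fun ι t => Good ι ∧ t = s) =
      {w : Fin n → ℕ × Om | Good (idx w) ∧ Sg L w = s} := by
  ext w
  constructor
  · rintro ⟨x, ⟨w', ⟨h1, h2⟩, h3⟩, h4⟩
    have h5 : SS L w' = SS L w := h3.trans h4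
    have h6 := good_iff_of_ms (same_sum L (SS_lt_one L h1) h5).1 h1
    exact ⟨h6, (Sg_eq_of_good L h1 h6 h5).symm.trans h2⟩
  · intro h
    exact ⟨⟨SS L w, SS_nonneg L w, SS_lt_one L h.1⟩, ⟨w, h, rfl⟩, rfl⟩

theorem pre_bad (L : ℕ → ℕ) (n : ℕ) (B : Set UI) :
    SS L ⁻¹' (Subtype.val '' (B ∩ Car L n fun ι _ => ¬ Good ι)) =
      SS L ⁻¹' (Subtype.val '' B) ∩ {w : Fin n → ℕ × Om | ¬ Good (idx w)} := by
  ext w
  constructor
  · rintro ⟨x, ⟨hB, w', h1, h3⟩, h4⟩
    refine ⟨⟨x, hB, h4⟩, fun hw => h1 ?_⟩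
    exact good_iff_of_ms (same_sum L (SS_lt_one L hw) (h3.trans h4).symm).1 hw
  · rintro ⟨⟨x, hB, h4⟩, hw⟩
    exact ⟨x, ⟨hB, w, hw, h4.symm⟩, h4⟩

/-- The powers. -/
noncomputable def mu (L : ℕ → ℕ) (a : ℕ → ℝ) (n : ℕ) : ComplexMeasure UI :=
  push (QQ n) (SS L) fun w => wt a (idx w) * Sg L w

/-- The bad parts. -/
noncomputable def bad (L : ℕ → ℕ) {n : ℕ} (g : (Fin n → ℕ) → ℝ) : ComplexMeasure UI :=
  push (QQ n) (SS L) fun w => {w | ¬ Good (idx w)}.indicator (fun w => g (idx w) * Sg L w) w

theorem mu_conv (L : ℕ → ℕ) {a : ℕ → ℝ} (ha : Summable a) (m n : ℕ) :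
    IsConv (mu L a m) (mu L a n) (mu L a (m + n)) := by
  have h := push_conv (measurable_SS L m) (measurable_SS L n)
    (integrable_mul_Sg L (integrable_wt ha m)) (integrable_mul_Sg L (integrable_wt ha n))
    (SS_nonneg L) (SS_nonneg L)
  have h2 := push_comp (measurePreserving_append m n) (measurable_SS L (m + n))
    (integrable_mul_Sg L (integrable_wt ha (m + n)))
  unfold mu
  rw [← h2]
  convert h using 3 with p p
  · simp [SS, Fin.sum_univ_add]
  · simp only [wt, idx, Sg, Fin.prod_univ_add, Fin.append_left, Fin.append_right]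
    ring

theorem mu_carrier (L : ℕ → ℕ) {a : ℕ → ℝ} (ha : Summable a) (n : ℕ) :
    (mu L a n).variation (Car L n fun _ _ => True)ᶜ = 0 := by
  rw [VectorMeasure.variation_apply_eq_zero (measurableSet_Car L n _).compl]
  intro t ht htm
  rw [mu, push_apply (measurable_SS L n) (integrable_mul_Sg L (integrable_wt ha n)) htm]
  have : (SS L : (Fin n → ℕ × Om) → ℝ) ⁻¹' (Subtype.val '' t) = ∅ := by
    refine eq_empty_of_forall_notMem ?_
    rintro w ⟨x, hx, h⟩
    exact ht hx ⟨w, trivial, h.symm⟩
  rw [this]; simp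

theorem Car_disjoint (L : ℕ → ℕ) :
    Pairwise (Function.onFun Disjoint fun n => Car L n fun _ _ => True) := by
  intro n n' h
  refine Set.disjoint_left.2 ?_
  rintro x ⟨w, -, h1⟩ ⟨w', -, h2⟩
  have := (same_sum L (h1 ▸ x.2.2) (h1.trans h2.symm)).1
  exact h ((card_ms w).symm.trans (this ▸ card_ms w'))

theorem integral_good {a : ℕ → ℝ} (ha : Summable a) (n : ℕ) :
    ∫ w in {w | Good (idx w)}, wt a (idx w) ∂QQ n = (∑' j, a (j + (n - 1))) ^ n := by
  let a' : ℕ → ℝ := fun j => if n - 1 ≤ j then a j else 0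
  have ha' : Summable a' := by
    refine (summable_nat_add_iff (n - 1)).1 ?_
    simpa only [a', Nat.le_add_left, if_true] using (summable_nat_add_iff (n - 1)).2 ha
  have h1 : ∑' j, a' j = ∑' j, a (j + (n - 1)) := by
    rw [← ha'.sum_add_tsum_nat_add (n - 1), Finset.sum_eq_zero, zero_add]
    · simp only [a', Nat.le_add_left, if_true]
    · intro j hj
      exact if_neg (not_le.2 (Finset.mem_range.1 hj))
  rw [← h1, ← integral_wt ha', ← integral_indicator (measurableSet_idx Good)]
  congr 1
  funext w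
  by_cases hw : Good (idx w)
  · rw [indicator_of_mem (by exact hw)]
    refine Finset.prod_congr rfl fun l _ => ?_
    have := hw l
    simp only [a']
    rw [if_pos (by omega)]
  · rw [indicator_of_notMem (by exact hw)]
    unfold Good at hw
    push Not at hw
    obtain ⟨l, hl⟩ := hw
    refine (Finset.prod_eq_zero (Finset.mem_univ l) ?_).symm
    simp only [a']
    rw [if_neg (by omega)]

theorem mu_variation (L : ℕ → ℕ) {a : ℕ → ℝ} (ha0 : ∀ j, 0 ≤ a j) (ha : Summable a) (n : ℕ) :
    (mu L a n).variation univ = ENNReal.ofReal ((∑' j, a (j + (n - 1))) ^ n) +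
      (bad L (wt a (n := n))).variation univ := by
  have hi := integrable_mul_Sg L (integrable_wt ha n)
  have hS := measurable_SS L n
  have hG := measurableSet_idx (n := n) Good
  have hB := measurableSet_idx (n := n) fun ι => ¬ Good ι
  have hw0 : ∀ ι : Fin n → ℕ, 0 ≤ wt a ι := fun ι => Finset.prod_nonneg fun l _ => ha0 _
  apply le_antisymm
  · have : mu L a n = push (QQ n) (SS L) (fun w =>
        {w | Good (idx w)}.indicator (fun w => wt a (idx w) * Sg L w) w) +
        bad L (wt a (n := n)) := by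
      rw [bad, ← push_add hS (hi.indicator hG) (hi.indicator hB), mu]
      congr 1
      funext w
      by_cases hw : Good (idx w) <;> simp [hw]
    rw [this]
    refine (VectorMeasure.variation_add_le univ).trans ?_
    rw [Measure.add_apply]
    gcongr
    refine (push_variation_le hS (hi.indicator hG)).trans (le_of_eq ?_)
    rw [← integral_good ha, ← integral_indicator hG]
    congr 2
    funext w
    by_cases hw : Good (idx w)
    · simp [hw, abs_mul, abs_Sg, abs_of_nonneg (hw0 _)]
    · simp [hw]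
  · set Cp := Car L n fun ι t => Good ι ∧ t = 1
    set Cm := Car L n fun ι t => Good ι ∧ t = -1
    set D := Car L n fun ι _ => ¬ Good ι
    have mp : MeasurableSet Cp := measurableSet_Car L n _
    have mm : MeasurableSet Cm := measurableSet_Car L n _
    have mD : MeasurableSet D := measurableSet_Car L n _
    have d1 : Disjoint Cp Cm := by
      refine Set.disjoint_left.2 ?_
      rintro x ⟨w, ⟨h1, h2⟩, h3⟩ ⟨w', ⟨h4, h5⟩, h6⟩
      have := Sg_eq_of_good L h1 h4 (h3.trans h6.symm)
      rw [h2, h5] at this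
      norm_num at this
    have d2 : Disjoint (Cp ∪ Cm) D := by
      refine Set.disjoint_left.2 ?_
      rintro x (⟨w, ⟨h1, -⟩, h3⟩ | ⟨w, ⟨h1, -⟩, h3⟩) ⟨w', h4, h6⟩ <;>
        exact h4 (good_iff_of_ms (same_sum L (SS_lt_one L h1) (h3.trans h6.symm)).1 h1)
    have ms : ∀ s : ℝ, MeasurableSet {w : Fin n → ℕ × Om | Good (idx w) ∧ Sg L w = s} :=
      fun s => hG.inter (measurable_Sg L n (measurableSet_singleton s))
    have e1 : ∀ s : ℝ, |s| = 1 → ENNReal.ofReal
        (∫ w in {w | Good (idx w) ∧ Sg L w = s}, wt a (idx w) ∂QQ n) ≤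
        (mu L a n).variation (Car L n fun ι t => Good ι ∧ t = s) := by
      intro s hs
      refine le_trans (le_of_eq ?_) (VectorMeasure.enorm_measure_le_variation _ _)
      rw [mu, push_apply hS hi (measurableSet_Car L n _), pre_good, ← ofReal_norm,
        Complex.norm_real, setIntegral_congr_fun (f := fun w => wt a (idx w) * Sg L w)
          (g := fun w => wt a (idx w) * s) (ms s)
          (fun w hw => by simp only [hw.2]), integral_mul_const, Real.norm_eq_abs, abs_mul, hs,
        mul_one, abs_of_nonneg (integral_nonneg fun w => hw0 _)]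
    have e2 : (mu L a n).restrict D = bad L (wt a (n := n)) := by
      ext B hBm
      rw [VectorMeasure.restrict_apply _ mD hBm, mu, bad, push_apply hS hi (hBm.inter mD),
        push_apply hS (hi.indicator hB) hBm, pre_bad, setIntegral_indicator hB]
    have e3 : ∫ w in {w | Good (idx w)}, wt a (idx w) ∂QQ n =
        ∫ w in {w | Good (idx w) ∧ Sg L w = 1}, wt a (idx w) ∂QQ n +
        ∫ w in {w | Good (idx w) ∧ Sg L w = -1}, wt a (idx w) ∂QQ n := by
      rw [← setIntegral_union _ (ms _) (integrable_wt ha n).integrableOn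
        (integrable_wt ha n).integrableOn]
      · congr 2
        ext w
        simp only [mem_setOf_eq, mem_union]
        have := Sg_eq L w
        tauto
      · refine Set.disjoint_left.2 fun w h1 h2 => ?_
        have := h1.2.symm.trans h2.2
        norm_num at this
    rw [← integral_good ha, e3, ENNReal.ofReal_add (integral_nonneg fun w => hw0 _)
      (integral_nonneg fun w => hw0 _), ← e2, VectorMeasure.variation_restrict mD,
      Measure.restrict_apply_univ]
    calc _ ≤ (mu L a n).variation Cp + (mu L a n).variation Cm + (mu L a n).variation D := by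
          gcongr
          · exact e1 1 (by simp)
          · exact e1 (-1) (by simp)
      _ = (mu L a n).variation ((Cp ∪ Cm) ∪ D) := by
          rw [measure_union d2 mD, measure_union d1 mm]
      _ ≤ _ := measure_mono (subset_univ _)

theorem integral_abs_wt_sub {a b : ℕ → ℝ} {M : ℝ} (ha0 : ∀ j, 0 ≤ a j) (ha : Summable a)
    (haM : ∑' j, a j ≤ M) (hb0 : ∀ j, 0 ≤ b j) (hb : Summable b) (hbM : ∑' j, b j ≤ M) (i : ℕ) :
    ∫ w, |wt a (idx w) - wt b (idx w)| ∂QQ (i + 1) ≤
      (i + 1) * (2 * M) ^ i * ∑' j, |a j - b j| := by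
  have hmax : Summable fun j => max (a j) (b j) :=
    Summable.of_nonneg_of_le (fun j => le_max_of_le_left (ha0 j))
      (fun j => max_le_add_of_nonneg (ha0 j) (hb0 j)) (ha.add hb)
  have hmin : Summable fun j => min (a j) (b j) :=
    Summable.of_nonneg_of_le (fun j => le_min (ha0 j) (hb0 j)) (fun j => min_le_left _ _) ha
  have h1 : ∀ ι : Fin (i + 1) → ℕ, |wt a ι - wt b ι| ≤
      wt (fun j => max (a j) (b j)) ι - wt (fun j => min (a j) (b j)) ι := by
    intro ι
    have k1 : wt a ι ≤ wt (fun j => max (a j) (b j)) ι :=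
      Finset.prod_le_prod (fun l _ => ha0 _) fun l _ => le_max_left _ _
    have k2 : wt b ι ≤ wt (fun j => max (a j) (b j)) ι :=
      Finset.prod_le_prod (fun l _ => hb0 _) fun l _ => le_max_right _ _
    have k3 : wt (fun j => min (a j) (b j)) ι ≤ wt a ι :=
      Finset.prod_le_prod (fun l _ => le_min (ha0 _) (hb0 _)) fun l _ => min_le_left _ _
    have k4 : wt (fun j => min (a j) (b j)) ι ≤ wt b ι :=
      Finset.prod_le_prod (fun l _ => le_min (ha0 _) (hb0 _)) fun l _ => min_le_right _ _
    rw [abs_le]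
    constructor <;> linarith
  have h2 := integral_mono ((integrable_wt ha (i + 1)).sub (integrable_wt hb (i + 1))).abs
    ((integrable_wt hmax (i + 1)).sub (integrable_wt hmin (i + 1))) fun w => h1 (idx w)
  refine h2.trans ?_
  simp only [Pi.sub_apply]
  rw [integral_sub (integrable_wt hmax _) (integrable_wt hmin _), integral_wt hmax,
    integral_wt hmin]
  have h3 : ∑' j, |a j - b j| = ∑' j, max (a j) (b j) - ∑' j, min (a j) (b j) := by
    rw [← hmax.tsum_sub hmin]
    exact tsum_congr fun j => (max_sub_min_eq_abs' _ _).symm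
  have h4 : ∑' j, max (a j) (b j) ≤ 2 * M := by
    refine (hmax.tsum_le_tsum (fun j => max_le_add_of_nonneg (ha0 j) (hb0 j)) (ha.add hb)).trans ?_
    rw [ha.tsum_add hb]; linarith
  have h5 : 0 ≤ ∑' j, min (a j) (b j) := tsum_nonneg fun j => le_min (ha0 j) (hb0 j)
  have h6 : ∑' j, min (a j) (b j) ≤ ∑' j, max (a j) (b j) :=
    hmin.tsum_le_tsum (fun j => min_le_max) hmax
  rw [h3]
  set X := ∑' j, max (a j) (b j)
  set Y := ∑' j, min (a j) (b j)
  have h7 := abs_pow_sub_pow_le X Y (i + 1)
  rw [abs_of_nonneg (sub_nonneg.2 h6), abs_of_nonneg h5, abs_of_nonneg (h5.trans h6),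
    max_eq_left h6, Nat.add_sub_cancel] at h7
  refine (le_abs_self _).trans (h7.trans ?_)
  have h8 : X ^ i ≤ (2 * M) ^ i := pow_le_pow_left₀ (h5.trans h6) h4 i
  have h9 : 0 ≤ X - Y := sub_nonneg.2 h6
  push_cast
  calc (X - Y) * ((i : ℝ) + 1) * X ^ i ≤ (X - Y) * ((i : ℝ) + 1) * (2 * M) ^ i := by gcongr
    _ = _ := by ring

theorem exists_L {η : ℕ → ℝ} (hη : ∀ n, 0 < η n) :
    ∃ L : ℕ → ℕ, ∀ k n, n ≤ k + 1 → 0 < n → (1 - 1 / (3 : ℝ) ^ n) ^ L k ≤ η n := by
  have h : ∀ k, ∃ N : ℕ, ∀ n ∈ Finset.range (k + 2), (1 - 1 / (3 : ℝ) ^ n) ^ N ≤ η n := by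
    intro k
    refine Eventually.exists (f := atTop) ((Filter.eventually_all_finset _).2 fun n _ => ?_)
    have h1 : (1 : ℝ) ≤ 3 ^ n := one_le_pow₀ (by norm_num)
    refine (tendsto_pow_atTop_nhds_zero_of_lt_one ?_ ?_).eventually_le_const (hη n)
    · rw [sub_nonneg, div_le_one (by positivity)]; exact h1
    · have : (0 : ℝ) < 1 / 3 ^ n := by positivity
      linarith
  choose L hL using h
  exact ⟨L, fun k n hn _ => hL k n (Finset.mem_range.2 (by omega))⟩

theorem embeds_of_star {w : ℕ → ℝ} (hw : IsRadicalWeight w)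
    (hanti : ∀ n, 1 ≤ n → root w (n + 1) ≤ root w n)
    (hstr : ∀ n, 1 ≤ n → root w (n + 1) = root w n → root w n = root w 1) : Embeds w := by
  obtain ⟨hpos, h0, hsub, hlim⟩ := hw
  let ρ : ℕ → ℝ := fun i => root w (i + 1)
  have hρ : ∀ i, 0 < ρ i := fun i => Real.rpow_pos_of_pos (hpos _) _
  have hρp : ∀ i, ρ i ^ (i + 1) = w (i + 1) := fun i => by
    simp only [ρ, root, one_div]
    exact Real.rpow_inv_natCast_pow (hpos _).le (Nat.succ_ne_zero i)
  obtain ⟨η, hη, hfix⟩ := seq_fixed ρ hρ (fun i => hanti _ (Nat.succ_pos i))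
    (fun i => hstr _ (Nat.succ_pos i)) (hlim.comp (tendsto_add_atTop_nat 1))
  let η' : ℕ → ℝ := fun n => η (n - 1) / ((((n - 1 : ℕ) : ℝ) + 1) * (2 * ρ 0) ^ (n - 1))
  have hη' : ∀ n, 0 < η' n := fun n => by
    have := hη (n - 1)
    have := hρ 0
    positivity
  obtain ⟨L, hL⟩ := exists_L hη'
  have hfin : ∀ a, Summable a → ∀ n, (bad L (wt a (n := n))).variation univ ≠ ∞ := fun a ha n =>
    ne_top_of_le_ne_top ENNReal.ofReal_ne_top
      (bad_bound (fun n => (hη' n).le) hL (integrable_wt ha n))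
  obtain ⟨a, ha0, ha, hE⟩ := hfix
    (fun a i => ((bad L (wt a (n := i + 1))).variation univ).toReal)
    (fun _ _ => ENNReal.toReal_nonneg)
    (by
      intro a i h
      have : (fun w : Fin (i + 1) → ℕ × Om => {w | ¬ Good (idx w)}.indicator
          (fun w => wt a (idx w) * Sg L w) w) = fun _ => 0 := by
        funext v
        rw [indicator_apply_eq_zero]
        intro hv
        simp only [mem_setOf_eq, Good] at hv
        push Not at hv
        obtain ⟨l, hl⟩ := hv
        rw [wt, Finset.prod_eq_zero (Finset.mem_univ l) (h _ (by omega)), zero_mul]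
      simp only [bad]
      rw [this, push_zero]
      simp)
    (by
      have key : ∀ a b i, (∀ j, 0 ≤ a j) → Summable a → ∑' j, a j ≤ ρ 0 →
          (∀ j, 0 ≤ b j) → Summable b → ∑' j, b j ≤ ρ 0 →
          ((bad L (wt a (n := i + 1))).variation univ).toReal ≤
            ((bad L (wt b (n := i + 1))).variation univ).toReal + η i * ∑' j, |a j - b j| := by
        intro a b i ha0 ha haM hb0 hb hbM
        have ia := integrable_wt ha (i + 1)
        have ib := integrable_wt hb (i + 1)
        have hB := measurableSet_idx (n := i + 1) fun ι => ¬ Good ι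
        have e1 : bad L (wt a (n := i + 1)) = bad L (wt b (n := i + 1)) +
            bad L (fun ι : Fin (i + 1) → ℕ => wt a ι - wt b ι) := by
          unfold bad
          rw [← push_add (measurable_SS L _) ((integrable_mul_Sg L ib).indicator hB)
            ((integrable_mul_Sg L (f := fun w => wt a (idx w) - wt b (idx w))
              (ia.sub ib)).indicator hB)]
          congr 1
          funext v
          by_cases hv : Good (idx v)
          · simp [hv]
          · simp only [indicator_of_mem (s := {w | ¬ Good (idx w)}) hv]; ring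
        have e2 := bad_bound (g := fun ι : Fin (i + 1) → ℕ => wt a ι - wt b ι)
          (fun n => (hη' n).le) hL (ia.sub ib)
        have e3 := integral_abs_wt_sub ha0 ha haM hb0 hb hbM i
        have e4 : η' (i + 1) * ∫ w, |wt a (idx w) - wt b (idx w)| ∂QQ (i + 1) ≤
            η i * ∑' j, |a j - b j| := by
          refine (mul_le_mul_of_nonneg_left e3 (hη' _).le).trans (le_of_eq ?_)
          have := hρ 0
          simp only [η', Nat.add_sub_cancel]
          field_simp
        have e5 : (bad L (wt a (n := i + 1))).variation univ ≤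
            (bad L (wt b (n := i + 1))).variation univ +
              ENNReal.ofReal (η i * ∑' j, |a j - b j|) := by
          rw [e1]
          refine (VectorMeasure.variation_add_le univ).trans ?_
          rw [Measure.add_apply]
          gcongr
          exact e2.trans (ENNReal.ofReal_le_ofReal e4)
        have e6 := ENNReal.toReal_mono
          (ENNReal.add_ne_top.2 ⟨hfin b hb _, ENNReal.ofReal_ne_top⟩) e5
        rwa [ENNReal.toReal_add (hfin b hb _) ENNReal.ofReal_ne_top, ENNReal.toReal_ofReal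
          (mul_nonneg (hη i).le (tsum_nonneg fun _ => abs_nonneg _))] at e6
      intro a b i ha0 ha haM hb0 hb hbM
      have k1 := key a b i ha0 ha haM hb0 hb hbM
      have k2 := key b a i hb0 hb hbM ha0 ha haM
      simp only [abs_sub_comm (b _)] at k2
      rw [abs_le]
      constructor <;> linarith)
  refine assemble hpos hsub (mu L a) _ (Car_disjoint L) (mu_carrier L ha) (fun n => ?_)
    (mu_conv L ha)
  rw [mu_variation L ha0 ha]
  cases n with
  | zero =>
    have : (fun w : Fin 0 → ℕ × Om => {w | ¬ Good (idx w)}.indicator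
        (fun w => wt a (idx w) * Sg L w) w) = fun _ => 0 := by
      funext v
      simp [Good]
    simp only [bad]
    rw [this, push_zero, h0]
    simp
  | succ i =>
    rw [← hρp, ← hE i, ENNReal.ofReal_add (pow_nonneg (tsum_nonneg fun _ => ha0 _) _)
      ENNReal.toReal_nonneg, ENNReal.ofReal_toReal (hfin a ha _), Nat.add_sub_cancel]

end Pool.Agent.P.MP_f562c3_an
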