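import Pool.Agent.P.MP_f562c3_an.Assemble

open MeasureTheory Filter Topology Set
open scoped ENNReal

namespace Pool.Agent.P.MP_f562c3_an

/-- A retraction of the line onto `[0,1)`. -/
noncomputable def toUI (x : ℝ) : UI :=
  if h : x ∈ Ico (0 : ℝ) 1 then ⟨x, h⟩ else ⟨0, le_rfl, zero_lt_one⟩

theorem toUI_of_mem {x : ℝ} (h : x ∈ Ico (0 : ℝ) 1) : toUI x = ⟨x, h⟩ := dif_pos h

theorem measurable_toUI : Measurable toUI := by
  classical
  exact Measurable.dite (s := Ico (0 : ℝ) 1) (f := fun x => x)
    (g := fun _ => (⟨0, le_rfl, zero_lt_one⟩ : UI)) measurable_id measurable_const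
    measurableSet_Ico

theorem measurableSet_val {B : Set UI} (hB : MeasurableSet B) :
    MeasurableSet (Subtype.val '' B) :=
  (MeasurableEmbedding.subtype_coe measurableSet_Ico).measurableSet_image.2 hB

theorem mem_val_iff {B : Set UI} {x : ℝ} :
    x ∈ Subtype.val '' B ↔ x ∈ Ico (0 : ℝ) 1 ∧ toUI x ∈ B := by
  constructor
  · rintro ⟨y, hy, rfl⟩
    exact ⟨y.2, by rwa [toUI_of_mem y.2]⟩
  · rintro ⟨h1, h2⟩
    rw [toUI_of_mem h1] at h2
    exact ⟨_, h2, rfl⟩

variable {W W' : Type*} [MeasurableSpace W] [MeasurableSpace W']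

/-- Push forward of a real density along `S`, truncated to `[0,1)`. -/
noncomputable def push (Q : Measure W) (S F : W → ℝ) : ComplexMeasure UI :=
  (Q.withDensityᵥ fun w => (((S ⁻¹' Ico 0 1).indicator F w : ℝ) : ℂ)).map (toUI ∘ S)

theorem integrable_dens {Q : Measure W} {S F : W → ℝ} (hS : Measurable S) (hF : Integrable F Q) :
    Integrable (fun w => (((S ⁻¹' Ico 0 1).indicator F w : ℝ) : ℂ)) Q :=
  (hF.indicator (hS measurableSet_Ico)).ofReal

theorem push_apply {Q : Measure W} {S F : W → ℝ} (hS : Measurable S) (hF : Integrable F Q)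
    {B : Set UI} (hB : MeasurableSet B) :
    push Q S F B = ((∫ w in S ⁻¹' (Subtype.val '' B), F w ∂Q : ℝ) : ℂ) := by
  unfold push
  rw [VectorMeasure.map_apply _ (measurable_toUI.comp hS) hB,
    withDensityᵥ_apply (integrable_dens hS hF) ((measurable_toUI.comp hS) hB),
    integral_complex_ofReal, setIntegral_indicator (hS measurableSet_Ico)]
  congr 3
  ext w
  simp only [mem_inter_iff, mem_preimage, Function.comp, mem_val_iff]
  tauto

theorem push_zero (Q : Measure W) (S : W → ℝ) : push Q S (fun _ => 0) = 0 := by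
  unfold push
  have : (fun w => (((S ⁻¹' Ico 0 1).indicator (fun _ => (0 : ℝ)) w : ℝ) : ℂ)) = 0 := by
    funext w; simp
  rw [this, withDensityᵥ_zero, VectorMeasure.map_zero]

theorem push_add {Q : Measure W} {S F G : W → ℝ} (hS : Measurable S) (hF : Integrable F Q)
    (hG : Integrable G Q) : push Q S (fun w => F w + G w) = push Q S F + push Q S G := by
  ext B hB
  rw [_root_.add_apply, push_apply (F := fun w => F w + G w) hS (hF.add hG) hB,
    push_apply hS hF hB, push_apply hS hG hB]
  rw [← Complex.ofReal_add, ← integral_add hF.integrableOn hG.integrableOn]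

theorem push_variation_le {Q : Measure W} {S F : W → ℝ} (hS : Measurable S)
    (hF : Integrable F Q) :
    (push Q S F).variation univ ≤ ENNReal.ofReal (∫ w, |F w| ∂Q) := by
  unfold push
  refine (VectorMeasure.variation_map_le univ).trans ?_
  rw [Measure.map_apply (measurable_toUI.comp hS) MeasurableSet.univ, preimage_univ,
    Measure.variation_withDensityᵥ (integrable_dens hS hF), withDensity_apply _ MeasurableSet.univ,
    Measure.restrict_univ]
  have := ofReal_integral_norm_eq_lintegral_enorm hF
  simp only [Real.norm_eq_abs] at this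
  rw [this]
  refine lintegral_mono fun w => ?_
  refine le_trans (le_of_eq ?_) (enorm_indicator_le_enorm_self (s := S ⁻¹' Ico 0 1) F w)
  rw [← ofReal_norm, ← ofReal_norm, Complex.norm_real]

theorem push_comp {Q : Measure W} {Q' : Measure W'} {e : W → W'} (he : MeasurePreserving e Q Q')
    {S F : W' → ℝ} (hS : Measurable S) (hF : Integrable F Q') :
    push Q (fun w => S (e w)) (fun w => F (e w)) = push Q' S F := by
  ext B hB
  rw [push_apply (S := fun w => S (e w)) (F := fun w => F (e w)) (hS.comp he.measurable)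
    (he.integrable_comp_of_integrable hF) hB,
    push_apply hS hF hB]
  congr 1
  have := setIntegral_map (μ := Q) (g := e) (f := F) (hS (measurableSet_val hB))
    (by rw [he.map_eq]; exact hF.aestronglyMeasurable) he.measurable.aemeasurable
  rw [he.map_eq] at this
  rw [this]
  rfl

theorem push_conv {Q : Measure W} {Q' : Measure W'} [SFinite Q] [SFinite Q']
    {S F : W → ℝ} {S' F' : W' → ℝ} (hS : Measurable S) (hS' : Measurable S')
    (hF : Integrable F Q) (hF' : Integrable F' Q') (h0 : ∀ w, 0 ≤ S w) (h0' : ∀ w, 0 ≤ S' w) :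
    IsConv (push Q S F) (push Q' S' F')
      (push (Q.prod Q') (fun p => S p.1 + S' p.2) (fun p => F p.1 * F' p.2)) := by
  intro B hB
  have hSS : Measurable fun p : W × W' => S p.1 + S' p.2 := by fun_prop
  have i1 := integrable_dens hS hF
  have i2 := integrable_dens hS' hF'
  have hm : Measurable (Prod.map (toUI ∘ S) (toUI ∘ S')) :=
    (measurable_toUI.comp hS).prodMap (measurable_toUI.comp hS')
  have hprod : (push Q S F).prod (push Q' S' F') (ContinuousLinearMap.mul ℝ ℂ) =
      ((Q.prod Q').withDensityᵥ fun p => (((S ⁻¹' Ico 0 1).indicator F p.1 : ℝ) : ℂ) *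
        (((S' ⁻¹' Ico 0 1).indicator F' p.2 : ℝ) : ℂ)).map (Prod.map (toUI ∘ S) (toUI ∘ S')) := by
    apply VectorMeasure.prod_eq_of_forall_apply_prod
    intro s t hs ht
    rw [VectorMeasure.map_apply _ hm (hs.prod ht), ← prod_withDensity Q Q' i1 i2,
      preimage_prod_map_prod]
    have : IsFiniteMeasure (Q.withDensityᵥ
        fun w => (((S ⁻¹' Ico 0 1).indicator F w : ℝ) : ℂ)).variation := by
      rw [Measure.variation_withDensityᵥ i1]
      exact ⟨by simpa using! i1.2⟩
    rw [VectorMeasure.prod_apply]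
    unfold push
    rw [VectorMeasure.map_apply _ (measurable_toUI.comp hS) hs,
      VectorMeasure.map_apply _ (measurable_toUI.comp hS') ht]
  rw [hprod, VectorMeasure.map_apply _ hm (measurableSet_addPre hB),
    withDensityᵥ_apply (i1.mul_prod i2) (hm (measurableSet_addPre hB)),
    push_apply hSS (hF.mul_prod hF') hB, ← integral_complex_ofReal,
    ← integral_indicator (hSS (measurableSet_val hB)),
    ← integral_indicator (hm (measurableSet_addPre hB))]
  congr 1
  funext p
  by_cases h1 : S p.1 ∈ Ico (0 : ℝ) 1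
  · by_cases h2 : S' p.2 ∈ Ico (0 : ℝ) 1
    · have e1 : p.1 ∈ S ⁻¹' Ico 0 1 := h1
      have e2 : p.2 ∈ S' ⁻¹' Ico 0 1 := h2
      by_cases h3 : S p.1 + S' p.2 ∈ Subtype.val '' B
      · rw [indicator_of_mem (by exact h3), indicator_of_mem, indicator_of_mem e1,
          indicator_of_mem e2]
        · simp
        · simpa [toUI_of_mem h1, toUI_of_mem h2] using h3
      · rw [indicator_of_notMem (by exact h3), indicator_of_notMem]
        simpa [toUI_of_mem h1, toUI_of_mem h2] using h3
    · have e2 : p.2 ∉ S' ⁻¹' Ico 0 1 := h2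
      rw [indicator_of_notMem]
      · rw [eq_comm, indicator_apply_eq_zero]
        intro _
        simp [indicator_of_notMem e2]
      · intro h3
        have h4 := (mem_val_iff.1 h3).1
        exact h2 ⟨h0' _, by linarith [h4.2, h0 p.1]⟩
  · have e1 : p.1 ∉ S ⁻¹' Ico 0 1 := h1
    rw [indicator_of_notMem]
    · rw [eq_comm, indicator_apply_eq_zero]
      intro _
      simp [indicator_of_notMem e1]
    · intro h3
      have h4 := (mem_val_iff.1 h3).1
      exact h1 ⟨h0 _, by linarith [h4.2, h0' p.2]⟩

end Pool.Agent.P.MP_f562c3_an
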