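import Pool.Agent.P.MP_f562c3_an.Norm

namespace Pool.Agent.P.MP_f562c3_an.StarShapedOld

open Pool.Agent.P.MP_f562c3_an

/-- Every radical weight whose root sequence `w n ^ (1/n)` is non-increasing, and strictly
decreasing after an initial constant stretch, admits an isometric algebra homomorphism
from l1(w) into M(0,1). -/
theorem result (w : ℕ → ℝ) (hw : IsRadicalWeight w)
    (hanti : ∀ n, 1 ≤ n → root w (n + 1) ≤ root w n)
    (hstr : ∀ n, 1 ≤ n → root w (n + 1) = root w n → root w n = root w 1) :
    Embeds w :=
  embeds_of_star hw hanti hstr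

end Pool.Agent.P.MP_f562c3_an.StarShapedOld
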